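import Mathlib
import Pool.Agent.Y334.FS.Contr
import Pool.Agent.Helper113.Gorin.Schottky

/-! Inverse branches on the sphere; a map with strong contraction on a disc has a critical value
close to the image of the disc. -/

set_option autoImplicit false

open Set Filter Topology Metric
open scoped OnePoint
open Pool.Agent.Helper114.Herman
open Pool.Agent.Y334.RM
open Pool.Agent.Y334.FS

namespace Pool.Agent.Y334.SR

attribute [local instance] sphMet

theorem norm_le_of_far {u : ℂ} {s : ℝ} (hs : 0 < s) (h : s ≤ dist (u : Sp) ∞) : ‖u‖ ≤ 2 / s := by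
  have hs2 : s ≤ 2 := h.trans (dist_le_two _ _)
  rw [dist_emb, emb_coe, emb_infty, Prod.dist_eq, dist_zero_right, norm_mul, Complex.norm_real,
    Real.norm_eq_abs, Real.dist_eq] at h
  have hp : 0 < 1 + ‖u‖ ^ 2 := by positivity
  rw [abs_of_pos (by positivity : 0 < 2 / (1 + ‖u‖ ^ 2)),
    show (1 : ℝ) - 2 / (1 + ‖u‖ ^ 2) - 1 = -(2 / (1 + ‖u‖ ^ 2)) by ring, abs_neg,
    abs_of_pos (by positivity : 0 < 2 / (1 + ‖u‖ ^ 2))] at h
  by_contra hcon
  push Not at hcon
  have h1 : 1 < ‖u‖ := lt_of_le_of_lt (by rw [le_div_iff₀ hs]; linarith) hcon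
  have h2 : max (2 / (1 + ‖u‖ ^ 2) * ‖u‖) (2 / (1 + ‖u‖ ^ 2)) ≤ 2 / (1 + ‖u‖ ^ 2) * ‖u‖ := by
    apply max_le le_rfl
    exact le_mul_of_one_le_right (by positivity) h1.le
  have h3 := h.trans h2
  rw [div_mul_eq_mul_div, le_div_iff₀ hp] at h3
  rw [div_lt_iff₀ hs] at hcon
  nlinarith [mul_pos hs (by linarith : (0:ℝ) < ‖u‖)]

theorem un_mul (b : Bool) (β γ : ℂ) : (un b β).mul (un b γ) = un b (β + γ) := by
  cases b <;> simp [un, Mx.mul, add_comm]

theorem un_add_act (b : Bool) (β γ : ℂ) (x : Sp) :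
    (un b β).act ((un b γ).act x) = (un b (β + γ)).act x := by
  rw [← Mx.act_mul _ (by rw [un_det]; exact one_ne_zero), un_mul]

theorem un_lip (b : Bool) {β : ℂ} (hβ : ‖β‖ ≤ 1) (x y : Sp) :
    dist ((un b β).act x) ((un b β).act y) ≤ 300 ^ 5 * dist x y := by
  have hk : Kick (1 / 4) (un b (β / 5)) := ⟨b, β / 5, by
    rw [norm_div]
    have : ‖(5 : ℂ)‖ = 5 := by simp
    rw [this]
    linarith, rfl⟩
  have h5 : ∀ z, (un b β).act z = (un b (β / 5)).act ((un b (β / 5)).act ((un b (β / 5)).act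
      ((un b (β / 5)).act ((un b (β / 5)).act z)))) := by
    intro z
    rw [un_add_act, un_add_act, un_add_act, un_add_act]
    congr 2
    ring
  rw [h5 x, h5 y]
  refine (kick_lip hk _ _).trans ?_
  have := kick_lip hk x y
  calc _ ≤ 300 * (300 * (300 * (300 * (300 * dist x y)))) := by
        gcongr
        refine (kick_lip hk _ _).trans ?_
        gcongr
        refine (kick_lip hk _ _).trans ?_
        gcongr
        refine (kick_lip hk _ _).trans ?_
        gcongr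
    _ = 300 ^ 5 * dist x y := by ring

theorem sinv_hol : HolMap sinv := fun _ _ h => h.sinv

/-- A coordinate with a given point at infinity, with uniform constants. -/
theorem to_inf (a : Sp) : ∃ H : Sp ≃ₜ Sp, H a = ∞ ∧ HolMap H ∧ HolMap H.symm ∧
    (∀ x y, dist (H x) (H y) ≤ 300 ^ 5 * dist x y) ∧
    ∀ x y, dist (H.symm x) (H.symm y) ≤ 300 ^ 5 * dist x y := by
  obtain ⟨b, z, hz, rfl⟩ := exists_kap_le a
  have hd : ∀ β : ℂ, (un true β).det ≠ 0 := fun β => by rw [un_det]; exact one_ne_zero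
  let K : Sp ≃ₜ Sp :=
    { toFun := (un true (-z)).act
      invFun := (un true z).act
      left_inv := fun x => by
        rw [un_add_act, add_neg_cancel]
        simp [un]
        exact Mx.act_one x
      right_inv := fun x => by
        rw [un_add_act, neg_add_cancel]
        simp [un]
        exact Mx.act_one x
      continuous_toFun := (Mx.hol (hd _)).continuous
      continuous_invFun := (Mx.hol (hd _)).continuous }
  have hK : ∀ x, K x = (un true (-z)).act x := fun _ => rfl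
  have hKs : ∀ x, K.symm x = (un true z).act x := fun _ => rfl
  have h0 : (un true (-z)).act (kap true z) = ∞ := by
    rw [un_act, add_neg_cancel, kap_true, sinv_zero]
  cases b with
  | true =>
    refine ⟨K, h0, Mx.hol (hd _), Mx.hol (hd _), fun x y => ?_, fun x y => ?_⟩
    · rw [hK, hK]; exact un_lip _ (by rwa [norm_neg]) _ _
    · rw [hKs, hKs]; exact un_lip _ hz _ _
  | false =>
    refine ⟨sinvHomeo.trans K, ?_, fun φ w h => ?_, fun φ w h => ?_, fun x y => ?_, fun x y => ?_⟩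
    · show (un true (-z)).act (sinv (kap false z)) = ∞
      rw [kap_false, ← kap_true]
      exact h0
    · exact (Mx.hol (hd _)) _ _ h.sinv
    · exact ((Mx.hol (hd z)) _ _ h).sinv
    · show dist (K (sinv x)) (K (sinv y)) ≤ _
      rw [hK, hK, ← dist_sinv x y]
      exact un_lip _ (by rwa [norm_neg]) _ _
    · show dist (sinv (K.symm x)) (sinv (K.symm y)) ≤ _
      rw [dist_sinv, hKs, hKs]
      exact un_lip _ hz _ _

theorem li_nhds {F : Sp → Sp} (hF : HolMap F) {U : Set Sp} (hU : IsOpen U) (hi : InjOn F U) {x : Sp}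
    (hx : x ∈ U) : 𝓝 (F x) ≤ map F (𝓝 x) := by
  obtain ⟨b, z, rfl⟩ := exists_kap x
  have h1 : HolAt (fun w => F (kap b w)) z := hF _ _ (holAt_kap b z)
  have hc : ContinuousAt (kap b) z := (isOpenEmbedding_kap b).continuous.continuousAt
  have h2 := h1.nhds_le (not_eventually_const_of_injOn (U := kap b ⁻¹' U)
    (hc (hU.mem_nhds hx)) (fun u hu v hv h => (isOpenEmbedding_kap b).injective (hi hu hv h)))
  rw [nhds_kap, Filter.map_map]
  exact h2

/-- **Inverse branches** over discs without critical values. -/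
theorem branchS {F : Sp → Sp} (hF : HolMap F) {b : Bool} {w₀ : ℂ} {δ : ℝ} (hδ : 0 < δ) {v : Sp}
    (hv : F v = kap b w₀) (hcrit : ∀ ζ, ¬ LI F ζ → F ζ ∉ kap b '' ball w₀ δ) :
    ∃ g : ℂ → Sp, (∀ w ∈ ball w₀ δ, HolAt g w ∧ F (g w) = kap b w) ∧ g w₀ = v := by
  classical
  have hc : ContractibleSpace (ball w₀ δ) :=
    (convex_ball w₀ δ).contractibleSpace ⟨w₀, mem_ball_self hδ⟩
  have : LocallyPathConnectedSpace (ball w₀ δ) := isOpen_ball.locallyPathConnectedSpace
  have hLI : ∀ x, F x ∈ kap b '' ball w₀ δ → LI F x := by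
    intro x hx
    by_contra h
    exact hcrit x h hx
  have hloc : IsLocalHomeomorphOn F (F ⁻¹' (kap b '' ball w₀ δ)) := by
    rw [isLocalHomeomorphOn_iff_isOpenEmbedding_restrict]
    intro x hx
    obtain ⟨U, hU, hUi⟩ := hLI x hx
    refine ⟨interior U, interior_mem_nhds.2 hU, ?_⟩
    refine IsOpenEmbedding.of_continuous_injective_isOpenMap ?_ ?_ ?_
    · exact hF.continuous.comp continuous_subtype_val
    · intro p q h
      exact Subtype.ext (hUi (interior_subset p.2) (interior_subset q.2) h)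
    · apply IsOpenMap.of_nhds_le
      intro p
      have h1 := li_nhds hF isOpen_interior (hUi.mono interior_subset) p.2
      have h2 : map ((interior U).domRestrict F) (𝓝 p) = map F (map Subtype.val (𝓝 p)) := by
        rw [Filter.map_map]
        rfl
      rw [h2, map_nhds_subtype_coe_eq_nhds p.2 (isOpen_interior.mem_nhds p.2)]
      exact h1
  have hcov := IsCoveringMapOn.of_isLocalHomeomorphOn hF.continuous hloc
  obtain ⟨Φ, ⟨h1, h2⟩, -⟩ := hcov.existsUnique_continuousMap_lifts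
    (⟨fun w => kap b w.1, (isOpenEmbedding_kap b).continuous.comp continuous_subtype_val⟩ :
      C(ball w₀ δ, Sp)) (a₀ := ⟨w₀, mem_ball_self hδ⟩)
    (e₀ := v) hv (fun a => ⟨a.1, a.2, rfl⟩)
  set g : ℂ → Sp := fun u => if h : u ∈ ball w₀ δ then Φ ⟨u, h⟩ else ∞ with hg
  have hgc : ∀ u ∈ ball w₀ δ, ContinuousAt g u := by
    intro u hu
    have h3 : ContinuousOn g (ball w₀ δ) := by
      rw [continuousOn_iff_continuous_domRestrict]
      convert! Φ.continuous using 1
      funext z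
      have hz := z.2
      simp only [hg, Set.domRestrict]
      rw [dif_pos hz]
    exact h3.continuousAt (isOpen_ball.mem_nhds hu)
  have hge : ∀ u ∈ ball w₀ δ, F (g u) = kap b u := by
    intro u hu
    show F (if h : u ∈ ball w₀ δ then Φ ⟨u, h⟩ else ∞) = kap b u
    rw [dif_pos hu]
    have := congrFun h2 ⟨u, hu⟩
    exact this
  refine ⟨g, fun w hw => ⟨?_, hge w hw⟩, ?_⟩
  · obtain ⟨U, hU, hUi⟩ := hLI (g w) (by rw [hge w hw]; exact ⟨w, hw, rfl⟩)
    have hev : ∀ᶠ u in 𝓝 w, u ∈ ball w₀ δ := isOpen_ball.mem_nhds hw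
    refine holAt_of_comp hF hU hUi ?_ ?_
    · filter_upwards [hev] with u hu
      exact hgc u hu
    · refine (holAt_kap b w).congr ?_
      filter_upwards [hev] with u hu
      exact (hge u hu).symm
  · show (if h : w₀ ∈ ball w₀ δ then Φ ⟨w₀, h⟩ else ∞) = v
    rw [dif_pos (mem_ball_self hδ)]
    exact h1

theorem ci_cont (b : Bool) (z : ℂ) : ContinuousAt (ci b) (kap b z) := by
  have h1 : Tendsto (fun w => ci b (kap b w)) (𝓝 z) (𝓝 z) := by
    simp only [ci_kap]
    exact tendsto_id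
  rw [ContinuousAt, ci_kap, nhds_kap, tendsto_map'_iff]
  exact h1

/-- Uniqueness of the inverse branch along a disc. -/
theorem branch_eq {F : Sp → Sp} (hF : HolMap F) {b bv : Bool} {w₀ zv : ℂ} {δ ρ : ℝ} (hρ : 0 < ρ)
    {g : ℂ → Sp} (hg : ∀ w ∈ ball w₀ δ, HolAt g w ∧ F (g w) = kap b w)
    (hcrit : ∀ ζ, ¬ LI F ζ → F ζ ∉ kap b '' ball w₀ δ)
    (hg0 : g (ci b (F (kap bv zv))) = kap bv zv)
    (hm : ∀ z ∈ ball zv ρ, F (kap bv z) ∈ kap b '' ball w₀ δ) :
    ∀ z ∈ ball zv ρ, g (ci b (F (kap bv z))) = kap bv z := by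
  have hkc : Continuous (kap bv) := (isOpenEmbedding_kap bv).continuous
  have hu : ∀ z ∈ ball zv ρ, ci b (F (kap bv z)) ∈ ball w₀ δ ∧
      F (kap bv z) = kap b (ci b (F (kap bv z))) ∧
      ContinuousAt (fun z => ci b (F (kap bv z))) z := by
    intro z hz
    obtain ⟨w, hw, h⟩ := hm z hz
    rw [← h, ci_kap]
    refine ⟨hw, rfl, ?_⟩
    apply ContinuousAt.comp (g := ci b) (f := fun z => F (kap bv z))
    · rw [← h]
      exact ci_cont b w
    · exact (hF.continuous.comp hkc).continuousAt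
  have hGc : ∀ z ∈ ball zv ρ, ContinuousAt (fun z => g (ci b (F (kap bv z)))) z := by
    intro z hz
    exact ContinuousAt.comp (g := g) (hg _ (hu z hz).1).1.continuousAt (hu z hz).2.2
  have hpre : PreconnectedSpace (ball zv ρ) :=
    Subtype.preconnectedSpace (convex_ball zv ρ).isPreconnected
  set S : Set (ball zv ρ) := {z | g (ci b (F (kap bv z.1))) = kap bv z.1} with hS
  have hcl : IsClosed S := by
    apply isClosed_eq
    · rw [continuous_iff_continuousAt]
      intro z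
      exact ContinuousAt.comp (g := fun z => g (ci b (F (kap bv z)))) (f := Subtype.val)
        (hGc z.1 z.2) continuous_subtype_val.continuousAt
    · exact hkc.comp continuous_subtype_val
  have hop : IsOpen S := by
    rw [isOpen_iff_mem_nhds]
    rintro ⟨z, hz⟩ hzS
    have hzS' : g (ci b (F (kap bv z))) = kap bv z := hzS
    obtain ⟨U, hU, hUi⟩ : LI F (kap bv z) := by
      by_contra h
      exact hcrit _ h (hm z hz)
    have h1 : ∀ᶠ z' in 𝓝 z, g (ci b (F (kap bv z'))) ∈ U := by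
      apply (hGc z hz)
      show U ∈ 𝓝 (g (ci b (F (kap bv z))))
      rw [hzS']
      exact hU
    have h2 : ∀ᶠ z' in 𝓝 z, kap bv z' ∈ U := hkc.continuousAt hU
    have h3 : ∀ᶠ z' in 𝓝 z, z' ∈ ball zv ρ := isOpen_ball.mem_nhds hz
    have h4 : ∀ᶠ z' in 𝓝 z, g (ci b (F (kap bv z'))) = kap bv z' := by
      filter_upwards [h1, h2, h3] with z' h1 h2 h3
      apply hUi h1 h2
      rw [(hg _ (hu z' h3).1).2, ← (hu z' h3).2.1]
    exact (continuous_subtype_val.continuousAt (x := (⟨z, hz⟩ : ball zv ρ))) h4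
  have hne : S.Nonempty := ⟨⟨zv, mem_ball_self hρ⟩, hg0⟩
  have huniv : S = univ := IsClopen.eq_univ ⟨hcl, hop⟩ hne
  intro z hz
  have : (⟨z, hz⟩ : ball zv ρ) ∈ S := huniv ▸ mem_univ _
  exact this

/-- Many values have two different preimages. -/
def Two (F : Sp → Sp) : Prop :=
  ∀ y : Sp, ∀ ε : ℝ, 0 < ε → ∃ y', dist y' y < ε ∧ ∃ a b, a ≠ b ∧ F a = y' ∧ F b = y'

open Polynomial in
theorem two_rat {f : Sp → Sp} {P Q : ℂ[X]} (hf : IsRat f P Q)
    (hd : 2 ≤ max P.natDegree Q.natDegree) : Two f := by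
  classical
  have hd0 : 0 < max P.natDegree Q.natDegree := by omega
  obtain ⟨C₀, hC₀⟩ := (good_rat hf hd).crit
  set d := max P.natDegree Q.natDegree with hdd
  -- the exceptional values
  have hex : ∀ u : ℂ, (u : Sp) ∉ C₀.image f → P.coeff d - u * Q.coeff d ≠ 0 →
      ∃ a b : Sp, a ≠ b ∧ f a = (u : Sp) ∧ f b = (u : Sp) := by
    intro u hu1 hu2
    set R : ℂ[X] := P - C u * Q with hR
    have hRd : R.natDegree = d := by
      apply le_antisymm
      · refine (natDegree_sub_le _ _).trans ?_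
        apply max_le (le_max_left _ _)
        exact (natDegree_C_mul_le _ _).trans (le_max_right _ _)
      · apply le_natDegree_of_ne_zero
        rw [hR, coeff_sub, coeff_C_mul]
        exact hu2
    have hR0 : R ≠ 0 := by
      intro h
      rw [h, natDegree_zero] at hRd
      omega
    have hval : ∀ z : ℂ, R.eval z = 0 → Q.eval z ≠ 0 ∧ f (z : Sp) = (u : Sp) := by
      intro z hz
      have h1 : P.eval z = u * Q.eval z := by
        rw [hR, eval_sub, eval_mul, eval_C, sub_eq_zero] at hz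
        exact hz
      have h2 : Q.eval z ≠ 0 := by
        intro h0
        obtain ⟨A, B, hAB⟩ := hf.cop
        have h3 := congrArg (Polynomial.eval z) hAB
        rw [eval_add, eval_mul, eval_mul, h1, h0, eval_one] at h3
        simp at h3
      refine ⟨h2, ?_⟩
      rw [hf.eval z h2, h1, mul_div_assoc, div_self h2, mul_one]
    have hdeg : R.degree ≠ 0 := by
      rw [degree_eq_natDegree hR0, hRd]
      exact_mod_cast (by omega : d ≠ 0)
    obtain ⟨z₀, hz₀⟩ := IsAlgClosed.exists_root R hdeg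
    obtain ⟨S, hS⟩ := dvd_iff_isRoot.2 hz₀
    have hS0 : S ≠ 0 := by
      rintro rfl
      rw [mul_zero] at hS
      exact hR0 hS
    have hSd : S.natDegree = d - 1 := by
      have h1 := congrArg natDegree hS
      rw [natDegree_mul (X_sub_C_ne_zero _) hS0, natDegree_X_sub_C, hRd] at h1
      omega
    have hdeg2 : S.degree ≠ 0 := by
      rw [degree_eq_natDegree hS0, hSd]
      exact_mod_cast (by omega : d - 1 ≠ 0)
    obtain ⟨z₁, hz₁⟩ := IsAlgClosed.exists_root S hdeg2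
    have hz₁R : R.eval z₁ = 0 := by
      rw [hS, eval_mul, hz₁.eq_zero, mul_zero]
    refine ⟨(z₀ : Sp), (z₁ : Sp), ?_, (hval z₀ hz₀.eq_zero).2, (hval z₁ hz₁R).2⟩
    intro heq
    have heq' : z₀ = z₁ := by exact_mod_cast heq
    subst heq'
    have h5 : (derivative R).eval z₀ = 0 := by
      rw [hS, derivative_mul, eval_add, eval_mul, eval_mul, hz₁.eq_zero, mul_zero, eval_sub, eval_X,
        eval_C, sub_self, zero_mul, add_zero]
    have h6 : (wron P Q).eval z₀ = 0 := by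
      have h7 : P.eval z₀ = u * Q.eval z₀ := by
        have := hz₀.eq_zero
        rw [hR, eval_sub, eval_mul, eval_C, sub_eq_zero] at this
        exact this
      have h8 : (derivative P).eval z₀ = u * (derivative Q).eval z₀ := by
        rw [hR, derivative_sub, derivative_C_mul, eval_sub, eval_mul, eval_C, sub_eq_zero] at h5
        exact h5
      rw [wron, eval_sub, eval_mul, eval_mul, h7, h8]
      ring
    have h9 : ¬ LI f (z₀ : Sp) := by
      rw [li_rat hf hd0]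
      exact not_not.2 h6
    apply hu1
    rw [Finset.mem_image]
    refine ⟨(z₀ : Sp), ?_, (hval z₀ hz₀.eq_zero).2⟩
    by_contra h10
    exact h9 (hC₀ _ h10)
  -- the exceptional set is finite
  have hfin : {u : ℂ | (u : Sp) ∈ C₀.image f ∨ P.coeff d - u * Q.coeff d = 0}.Finite := by
    apply Set.Finite.union
    · exact (C₀.image f).finite_toSet.preimage OnePoint.coe_injective.injOn
    · have hne : P.coeff d ≠ 0 ∨ Q.coeff d ≠ 0 := by
        by_cases hP : P.natDegree = d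
        · left
          intro h
          rw [← hP, coeff_natDegree, leadingCoeff_eq_zero] at h
          rw [h, natDegree_zero] at hP
          omega
        · right
          have hQ : Q.natDegree = d := by
            rcases max_choice P.natDegree Q.natDegree with h | h
            · exact absurd h.symm hP
            · exact h.symm
          intro h
          rw [← hQ, coeff_natDegree, leadingCoeff_eq_zero] at h
          rw [h, natDegree_zero] at hQ
          omega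
      apply Set.Subsingleton.finite
      intro u hu v hv
      change P.coeff d - u * Q.coeff d = 0 at hu
      change P.coeff d - v * Q.coeff d = 0 at hv
      have h1 : (u - v) * Q.coeff d = 0 := by linear_combination hv - hu
      rcases mul_eq_zero.1 h1 with h | h
      · exact sub_eq_zero.1 h
      · rw [h, mul_zero, sub_zero] at hu
        exact absurd hu (hne.resolve_right (not_not.2 h))
  intro y ε hε
  obtain ⟨b, z, rfl⟩ := exists_kap y
  have h1 : ∀ᶠ w in 𝓝 z, dist (kap b w) (kap b z) < ε :=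
    ((isOpenEmbedding_kap b).continuous.continuousAt (x := z)) (ball_mem_nhds _ hε)
  set E : Set Sp := (fun u : ℂ => (u : Sp)) ''
    {u : ℂ | (u : Sp) ∈ C₀.image f ∨ P.coeff d - u * Q.coeff d = 0} ∪ {∞} with hE
  have hEf : E.Finite := (hfin.image _).union (finite_singleton _)
  have h2 : (kap b ⁻¹' E).Finite := hEf.preimage (isOpenEmbedding_kap b).injective.injOn
  have h3 : ∃ w, w ∉ kap b ⁻¹' E ∧ dist (kap b w) (kap b z) < ε := by
    by_contra hcon
    push Not at hcon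
    have h4 : {w | dist (kap b w) (kap b z) < ε} ⊆ kap b ⁻¹' E := by
      intro w hw
      by_contra h
      exact absurd hw (not_lt.2 (hcon w h))
    exact (infinite_of_mem_nhds z h1) (h2.subset h4)
  obtain ⟨w, hw1, hw2⟩ := h3
  have h5 : kap b w ≠ ∞ := fun h => hw1 (Or.inr h)
  have h6 := coe_co h5
  set u := co (kap b w) with hu
  have h7 : ¬ ((u : Sp) ∈ C₀.image f ∨ P.coeff d - u * Q.coeff d = 0) := by
    intro h
    apply hw1
    left
    exact ⟨u, h, h6⟩
  rw [not_or] at h7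
  obtain ⟨a, c, h8, h9, h10⟩ := hex u h7.1 h7.2
  exact ⟨kap b w, hw2, a, c, h8, by rw [h9, h6], by rw [h10, h6]⟩

theorem dist_ge_snd (x y : Sp) : |(emb x).2 - (emb y).2| ≤ dist x y := by
  rw [dist_emb, Prod.dist_eq, ← Real.dist_eq]
  exact le_max_right _ _

theorem snd_zero : (emb ((0 : ℂ) : Sp)).2 = -1 := by
  rw [emb_coe]
  norm_num

theorem snd_one : (emb ((1 : ℂ) : Sp)).2 = 0 := by
  rw [emb_coe]
  norm_num

theorem snd_infty : (emb (∞ : Sp)).2 = 1 := by
  rw [emb_infty]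

/-- **Strong contraction forces a critical value nearby.** -/
theorem cv_near {Λ : ℝ} (hΛ : 1 ≤ Λ) : ∃ κ : ℝ, 0 < κ ∧ κ ≤ 1 ∧
    ∀ δ ρ : ℝ, 0 < δ → δ ≤ 1 → 0 < ρ → ρ ≤ 1 →
    ∀ F₀ G : Sp → Sp, HolMap F₀ → HolMap G → (∀ x y, dist (F₀ x) (F₀ y) ≤ Λ * dist x y) →
      Two F₀ → ∀ v : Sp, (∀ z, dist z v < ρ → dist (G (F₀ z)) (G (F₀ v)) < κ * δ * ρ) →
      ∃ ζ, ¬ LI (fun x => G (F₀ x)) ζ ∧ dist (G (F₀ ζ)) (G (F₀ v)) < δ := by
  classical
  set B₀ : ℝ := 300 ^ 5 with hB₀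
  have hB₀p : 0 < B₀ := by positivity
  have hΛ0 : 0 < Λ := by linarith
  set s : ℝ := 1 / (2 * Λ) / B₀ with hs
  have hs0 : 0 < s := by positivity
  set R' : ℝ := 2 / s with hR'
  have hR'0 : 0 < R' := by positivity
  set V₀ : ℝ := 2 / (1 / (4 * Λ) / B₀) with hV₀
  have hV₀0 : 0 < V₀ := by positivity
  set M₀ : ℝ := 2 * ((V₀ + R') / (s / 5)) + 1 with hM₀
  set BM : ℝ := Real.exp (Real.pi * Real.exp (Real.pi * (M₀ + 386))) with hBM
  have hBM0 : 0 < BM := Real.exp_pos _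
  set B' : ℝ := (BM + 1) * R' + R' with hB'
  have hB'0 : 0 < B' := by positivity
  have hBB : 1 ≤ B₀ * (2 * B' + 1) := by
    apply one_le_mul_of_one_le_of_one_le
    · rw [hB₀]; norm_num
    · linarith
  have hκ600 : 1 / (500000 * (B₀ * (2 * B' + 1))) ≤ 1 / 600 := by
    apply one_div_le_one_div_of_le (by norm_num)
    linarith
  refine ⟨1 / (500000 * (B₀ * (2 * B' + 1))), by positivity, by linarith, ?_⟩
  intro δ ρ hδ hδ1 hρ hρ1
  set δ₁ : ℝ := δ / 10 with hδ₁
  have hδ₁0 : 0 < δ₁ := by positivity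
  set ρ₀ : ℝ := ρ / 10 with hρ₀
  have hρ₀0 : 0 < ρ₀ := by positivity
  have hρ₀1 : ρ₀ ≤ ρ / 10 := le_rfl
  have hρ₀2 : ρ₀ ≤ 1 / 10 := by linarith
  set τ : ℝ := 1 / (500000 * (B₀ * (2 * B' + 1))) * δ * ρ with hτ
  have hτ0 : 0 < τ := by positivity
  have hτ2 : τ ≤ δ₁ / 60 := by
    have h1 : τ ≤ 1 / 600 * δ * 1 := by
      rw [hτ]
      gcongr
    rw [hδ₁]
    linarith
  have hτ1 : τ ≤ 1 / 4 := by linarith
  have hτ3 : τ ≤ ρ₀ * δ₁ / (5000 * B₀ * (2 * B' + 1)) := by
    rw [hτ, hρ₀, hδ₁]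
    apply le_of_eq
    field_simp
    ring
  intro F₀ G hF₀ hG hL hTwo v hv
  by_contra hcon
  push Not at hcon
  set F : Sp → Sp := fun x => G (F₀ x) with hF
  have hFh : HolMap F := hG.comp hF₀
  obtain ⟨b, w₀, hw₀, hFv⟩ := exists_kap_le (F v)
  obtain ⟨bv, zv, hzv, hvk⟩ := exists_kap_le v
  have hcrit : ∀ ζ, ¬ LI F ζ → F ζ ∉ kap b '' ball w₀ δ₁ := by
    rintro ζ hζ ⟨w, hw, h⟩
    have h1 := hcon ζ hζ
    have h2 : dist (F ζ) (F v) ≤ 5 * ‖w - w₀‖ := by
      rw [← h, hFv]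
      exact dist_kap_le _ _ _
    rw [mem_ball, dist_eq_norm] at hw
    have h3 : dist (F ζ) (F v) = dist (G (F₀ ζ)) (G (F₀ v)) := rfl
    rw [hδ₁] at hw
    linarith
  obtain ⟨g, hg, hgw₀⟩ := branchS hFh hδ₁0 hFv hcrit
  -- the small disc
  have hsm : ∀ z ∈ ball zv ρ₀, ∃ w, ‖w - w₀‖ ≤ 15 * τ ∧ w ∈ ball w₀ δ₁ ∧
      F (kap bv z) = kap b w := by
    intro z hz
    rw [mem_ball, dist_eq_norm] at hz
    have h1 : dist (kap bv z) v < ρ := by
      rw [hvk]
      refine lt_of_le_of_lt (dist_kap_le _ _ _) ?_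
      linarith
    have h2 : dist (F (kap bv z)) (F v) < τ := hv _ h1
    rw [dist_comm, hFv] at h2
    obtain ⟨w, -, h3, h4⟩ := near_kap hw₀ (by linarith : dist (kap b w₀) (F (kap bv z)) < 1 / 2)
    have h5 : ‖w - w₀‖ ≤ 15 * τ := h4.trans (by linarith)
    refine ⟨w, h5, ?_, h3⟩
    rw [mem_ball, dist_eq_norm]
    linarith
  have hbr : ∀ z ∈ ball zv ρ₀, g (ci b (F (kap bv z))) = kap bv z := by
    apply branch_eq hFh hρ₀0 hg hcrit
    · rw [← hvk, hFv, ci_kap, hgw₀]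
    · intro z hz
      obtain ⟨w, -, h2, h3⟩ := hsm z hz
      exact ⟨w, h2, h3.symm⟩
  have hrange : ∀ z ∈ ball zv ρ₀, ∃ w, ‖w - w₀‖ ≤ 15 * τ ∧ w ∈ ball w₀ δ₁ ∧ g w = kap bv z := by
    intro z hz
    obtain ⟨w, h1, h2, h3⟩ := hsm z hz
    refine ⟨w, h1, h2, ?_⟩
    have h4 := hbr z hz
    rwa [h3, ci_kap] at h4
  -- omitted points
  have hK : ∀ y : Sp, ∃ a, dist (F₀ a) y < 1 / 10 ∧ ∀ w ∈ ball w₀ δ₁, g w ≠ a := by
    intro y
    obtain ⟨y', h1, a, c, h2, h3, h4⟩ := hTwo y (1 / 10) (by norm_num)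
    by_cases ha : ∀ w ∈ ball w₀ δ₁, g w ≠ a
    · exact ⟨a, by rw [h3]; exact h1, ha⟩
    · refine ⟨c, by rw [h4]; exact h1, ?_⟩
      push Not at ha
      obtain ⟨w, hw, hwa⟩ := ha
      intro w' hw' hwc
      apply h2
      have h5 : F a = F c := by
        show G (F₀ a) = G (F₀ c)
        rw [h3, h4]
      rw [← hwa, ← hwc, (hg w hw).2, (hg w' hw').2] at h5
      have h6 := (isOpenEmbedding_kap b).injective h5
      rw [← hwa, ← hwc, h6]
  obtain ⟨a₁, ha1, ha2₁⟩ := hK ∞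
  obtain ⟨p₁, hp1, hp2₁⟩ := hK ((0 : ℂ) : Sp)
  obtain ⟨q₁, hq1, hq2₁⟩ := hK ((1 : ℂ) : Sp)
  have hsep : ∀ {x x' y y' : Sp}, dist (F₀ x) y < 1 / 10 → dist (F₀ x') y' < 1 / 10 →
      1 ≤ |(emb y).2 - (emb y').2| → 1 / (2 * Λ) ≤ dist x x' := by
    intro x x' y y' h1 h2 h3
    have h4 := dist_ge_snd y y'
    have h5 := hL x x'
    have h6 : dist y y' ≤ dist (F₀ x) y + dist (F₀ x) (F₀ x') + dist (F₀ x') y' := by
      have h7 := dist_triangle y (F₀ x) y'
      have h8 := dist_triangle (F₀ x) (F₀ x') y'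
      rw [dist_comm y (F₀ x)] at h7
      linarith
    rw [div_le_iff₀ (by positivity)]
    nlinarith
  have hpa₁ : 1 / (2 * Λ) ≤ dist p₁ a₁ := hsep hp1 ha1 (by rw [snd_zero, snd_infty]; norm_num)
  have hqa₁ : 1 / (2 * Λ) ≤ dist q₁ a₁ := hsep hq1 ha1 (by rw [snd_one, snd_infty]; norm_num)
  have hpq₁ : 1 / (2 * Λ) ≤ dist p₁ q₁ := hsep hp1 hq1 (by rw [snd_zero, snd_one]; norm_num)
  obtain ⟨a, p', q', ha2, hp2, hq2, hpa, hqa, hpq, hva⟩ : ∃ a p' q' : Sp,
      (∀ w ∈ ball w₀ δ₁, g w ≠ a) ∧ (∀ w ∈ ball w₀ δ₁, g w ≠ p') ∧ (∀ w ∈ ball w₀ δ₁, g w ≠ q') ∧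
      1 / (2 * Λ) ≤ dist p' a ∧ 1 / (2 * Λ) ≤ dist q' a ∧ 1 / (2 * Λ) ≤ dist p' q' ∧
      1 / (4 * Λ) ≤ dist v a := by
    by_cases h : 1 / (4 * Λ) ≤ dist v a₁
    · exact ⟨a₁, p₁, q₁, ha2₁, hp2₁, hq2₁, hpa₁, hqa₁, hpq₁, h⟩
    · push Not at h
      refine ⟨p₁, a₁, q₁, hp2₁, ha2₁, hq2₁, by rw [dist_comm]; exact hpa₁,
        by rw [dist_comm]; exact hpq₁, by rw [dist_comm]; exact hqa₁, ?_⟩
      have h1 := dist_triangle_left p₁ a₁ v
      have h2 : 1 / (2 * Λ) = 1 / (4 * Λ) + 1 / (4 * Λ) := by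
        field_simp
        norm_num
      linarith
  obtain ⟨H, hHa, hH1, hH2, hHL, hHL'⟩ := to_inf a
  have hHinv : ∀ x y, dist x y ≤ B₀ * dist (H x) (H y) := by
    intro x y
    have h := hHL' (H x) (H y)
    rwa [H.symm_apply_apply, H.symm_apply_apply] at h
  have hfinite : ∀ x, x ≠ a → H x ≠ ∞ := by
    intro x hx h
    apply hx
    exact H.injective (by rw [h, hHa])
  have hL2 : (0 : ℝ) < 1 / (2 * Λ) := by positivity
  have hpne : p' ≠ a := by
    rintro rfl
    rw [dist_self] at hpa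
    linarith
  have hqne : q' ≠ a := by
    rintro rfl
    rw [dist_self] at hqa
    linarith
  set p := co (H p') with hp
  set q := co (H q') with hq
  have hpc : (p : Sp) = H p' := coe_co (hfinite _ hpne)
  have hqc : (q : Sp) = H q' := coe_co (hfinite _ hqne)
  have hfar : ∀ x t, 0 < t → t ≤ dist x a → t / B₀ ≤ dist (H x) ∞ := by
    intro x t _ ht
    rw [div_le_iff₀ hB₀p, ← hHa]
    have := hHinv x a
    linarith
  have hpn : ‖p‖ ≤ R' := norm_le_of_far hs0 (by rw [hpc]; exact hfar _ _ hL2 hpa)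
  have hqn : ‖q‖ ≤ R' := norm_le_of_far hs0 (by rw [hqc]; exact hfar _ _ hL2 hqa)
  have hpqn : s / 5 ≤ ‖q - p‖ := by
    have h1 := hHinv p' q'
    have h2 := dist_coe_le p q
    rw [hpc, hqc] at h2
    have h3 : s ≤ dist (H p') (H q') := by
      rw [hs, div_le_iff₀ hB₀p]
      linarith
    rw [norm_sub_rev]
    linarith
  -- the function
  set ψ : ℂ → ℂ := fun w => co (H (g w)) with hψ
  have hψc : ∀ w ∈ ball w₀ δ₁, ((ψ w : ℂ) : Sp) = H (g w) := fun w hw =>
    coe_co (hfinite _ (ha2 w hw))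
  have hψd : DifferentiableOn ℂ ψ (ball w₀ δ₁) := by
    intro w hw
    have h1 : HolAt (fun u => H (g u)) w := hH1 g w (hg w hw).1
    obtain ⟨k, hk, h2⟩ := h1.exists_coe (hfinite _ (ha2 w hw))
    have h3 : ψ =ᶠ[𝓝 w] k := by
      filter_upwards [h2] with u hu
      show co (H (g u)) = k u
      rw [hu, co_coe]
    exact (hk.differentiableAt.congr_of_eventuallyEq h3).differentiableWithinAt
  have hψp : ∀ w ∈ ball w₀ δ₁, ψ w ≠ p := by
    intro w hw h
    apply hp2 w hw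
    apply H.injective
    rw [← hψc w hw, ← hpc, h]
  have hψq : ∀ w ∈ ball w₀ δ₁, ψ w ≠ q := by
    intro w hw h
    apply hq2 w hw
    apply H.injective
    rw [← hψc w hw, ← hqc, h]
  have hw₀m : w₀ ∈ ball w₀ δ₁ := mem_ball_self hδ₁0
  have hψ0 : ‖ψ w₀‖ ≤ V₀ := by
    apply norm_le_of_far (by positivity)
    rw [hψc w₀ hw₀m, hgw₀]
    exact hfar _ _ (by positivity) hva
  -- Schottky
  have hqp0 : q - p ≠ 0 := by
    intro h
    rw [h, norm_zero] at hpqn
    linarith [hs0]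
  have hsch : ∀ w ∈ ball w₀ (δ₁ / 2), ‖ψ w‖ ≤ B' := by
    set f : ℂ → ℂ := fun ζ => 2 * ((ψ (w₀ + δ₁ * ζ) - p) / (q - p)) - 1 with hf
    have hmem : ∀ ζ ∈ ball (0 : ℂ) 1, w₀ + δ₁ * ζ ∈ ball w₀ δ₁ := by
      intro ζ hζ
      rw [mem_ball_zero_iff] at hζ
      rw [mem_ball, dist_eq_norm, add_sub_cancel_left, norm_mul, Complex.norm_real,
        Real.norm_eq_abs, abs_of_pos hδ₁0]
      nlinarith
    have hfd : DifferentiableOn ℂ f (ball 0 1) := by
      have h1 : DifferentiableOn ℂ (fun ζ : ℂ => ψ (w₀ + δ₁ * ζ)) (ball 0 1) :=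
        hψd.comp (by fun_prop) hmem
      exact (((h1.sub_const p).div_const (q - p)).const_mul 2).sub_const 1
    have hf1 : ∀ ζ ∈ ball (0 : ℂ) 1, f ζ ≠ 1 := by
      intro ζ hζ h
      apply hψq _ (hmem ζ hζ)
      have h2 : (ψ (w₀ + δ₁ * ζ) - p) / (q - p) = 1 := by
        have h3 : 2 * ((ψ (w₀ + δ₁ * ζ) - p) / (q - p)) - 1 = 1 := h
        linear_combination h3 / 2
      rw [div_eq_one_iff_eq hqp0] at h2
      linear_combination h2
    have hf2 : ∀ ζ ∈ ball (0 : ℂ) 1, f ζ ≠ -1 := by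
      intro ζ hζ h
      apply hψp _ (hmem ζ hζ)
      have h2 : (ψ (w₀ + δ₁ * ζ) - p) / (q - p) = 0 := by
        have h3 : 2 * ((ψ (w₀ + δ₁ * ζ) - p) / (q - p)) - 1 = -1 := h
        linear_combination h3 / 2
      rcases div_eq_zero_iff.1 h2 with h | h
      · exact sub_eq_zero.1 h
      · exact absurd h hqp0
    have hf0 : ‖f 0‖ ≤ M₀ := by
      show ‖2 * ((ψ (w₀ + δ₁ * 0) - p) / (q - p)) - 1‖ ≤ M₀
      rw [mul_zero, add_zero]
      have h1 : ‖(ψ w₀ - p) / (q - p)‖ ≤ (V₀ + R') / (s / 5) := by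
        rw [norm_div]
        apply div_le_div₀ (by positivity) ((norm_sub_le _ _).trans (add_le_add hψ0 hpn))
          (by positivity) hpqn
      calc ‖2 * ((ψ w₀ - p) / (q - p)) - 1‖ ≤ ‖2 * ((ψ w₀ - p) / (q - p))‖ + ‖(1 : ℂ)‖ :=
            norm_sub_le _ _
        _ = 2 * ‖(ψ w₀ - p) / (q - p)‖ + 1 := by rw [norm_mul, norm_one]; norm_num
        _ ≤ M₀ := by rw [hM₀]; linarith
    intro w hw
    have h1 := H113G.schottky_all f M₀ hfd hf1 hf2 hf0 ((w - w₀) / δ₁) (by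
      rw [mem_ball, dist_eq_norm] at hw
      rw [mem_ball_zero_iff, norm_div, Complex.norm_real, Real.norm_eq_abs, abs_of_pos hδ₁0,
        div_lt_iff₀ hδ₁0]
      linarith)
    rw [← hBM] at h1
    have h2 : w₀ + δ₁ * ((w - w₀) / δ₁) = w := by
      have : (δ₁ : ℂ) ≠ 0 := by exact_mod_cast hδ₁0.ne'
      field_simp
      ring
    have h3 : f ((w - w₀) / δ₁) = 2 * ((ψ w - p) / (q - p)) - 1 := by
      show 2 * ((ψ (w₀ + δ₁ * ((w - w₀) / δ₁)) - p) / (q - p)) - 1 = _
      rw [h2]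
    have h4 : ψ w = (f ((w - w₀) / δ₁) + 1) / 2 * (q - p) + p := by
      rw [h3]
      field_simp
      ring
    rw [h4]
    have h5 : ‖q - p‖ ≤ 2 * R' := (norm_sub_le _ _).trans (by linarith)
    calc ‖(f ((w - w₀) / δ₁) + 1) / 2 * (q - p) + p‖
        ≤ ‖(f ((w - w₀) / δ₁) + 1) / 2 * (q - p)‖ + ‖p‖ := norm_add_le _ _
      _ = ‖f ((w - w₀) / δ₁) + 1‖ / 2 * ‖q - p‖ + ‖p‖ := by
          rw [norm_mul, norm_div]
          norm_num
      _ ≤ (BM + 1) / 2 * (2 * R') + R' := by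
          gcongr
          refine (norm_add_le _ _).trans ?_
          rw [norm_one]
          linarith
      _ = B' := by rw [hB']; ring
  -- Schwarz
  have hschw : ∀ w ∈ ball w₀ (δ₁ / 2), dist (ψ w) (ψ w₀) ≤ (2 * B' + 1) / (δ₁ / 2) * dist w w₀ := by
    intro w hw
    apply Complex.dist_le_div_mul_dist_of_mapsTo_ball
      (hψd.mono (ball_subset_ball (by linarith))) _ hw
    intro u hu
    rw [mem_closedBall, dist_eq_norm]
    have h1 := hsch u hu
    have h2 := hsch w₀ (mem_ball_self (by positivity))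
    have := norm_sub_le (ψ u) (ψ w₀)
    linarith
  -- the end
  have hz'm : zv + (ρ₀ / 2 : ℝ) ∈ ball zv ρ₀ := by
    rw [mem_ball, dist_eq_norm, add_sub_cancel_left, Complex.norm_real, Real.norm_eq_abs,
      abs_of_pos (by positivity)]
    linarith
  obtain ⟨w, h1, h2, h3⟩ := hrange _ hz'm
  have h4 : w ∈ ball w₀ (δ₁ / 2) := by
    rw [mem_ball, dist_eq_norm]
    linarith
  have h5 := hschw w h4
  rw [dist_eq_norm, dist_eq_norm] at h5
  have h6 : dist (kap bv (zv + (ρ₀ / 2 : ℝ))) v ≤ B₀ * (5 * ‖ψ w - ψ w₀‖) := by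
    refine (hHinv _ _).trans ?_
    rw [← h3, ← hgw₀, ← hψc w h2, ← hψc w₀ hw₀m]
    gcongr
    exact dist_coe_le _ _
  have h7 : dist (kap bv zv) (kap bv (zv + (ρ₀ / 2 : ℝ))) < 1 / 2 := by
    refine lt_of_le_of_lt (dist_kap_le _ _ _) ?_
    rw [sub_add_cancel_left, norm_neg, Complex.norm_real, Real.norm_eq_abs,
      abs_of_pos (by positivity)]
    linarith
  obtain ⟨w', -, h8, h9⟩ := near_kap hzv h7
  have h10 := (isOpenEmbedding_kap bv).injective h8
  rw [← h10, add_sub_cancel_left, Complex.norm_real, Real.norm_eq_abs,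
      abs_of_pos (by positivity), ← hvk, dist_comm] at h9
  have h11 : ‖ψ w - ψ w₀‖ ≤ (2 * B' + 1) / (δ₁ / 2) * (15 * τ) := by
    refine h5.trans ?_
    gcongr
  have h12 : (2 * B' + 1) / (δ₁ / 2) * (15 * τ) ≤ (2 * B' + 1) / (δ₁ / 2) *
      (15 * (ρ₀ * δ₁ / (5000 * B₀ * (2 * B' + 1)))) := by gcongr
  have h13 : (2 * B' + 1) / (δ₁ / 2) * (15 * (ρ₀ * δ₁ / (5000 * B₀ * (2 * B' + 1)))) =
      30 * ρ₀ / (5000 * B₀) := by
    field_simp
    ring
  have h14 : B₀ * (5 * ‖ψ w - ψ w₀‖) ≤ B₀ * (5 * (30 * ρ₀ / (5000 * B₀))) := by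
    gcongr
    rw [← h13]
    exact h11.trans h12
  have h15 : B₀ * (5 * (30 * ρ₀ / (5000 * B₀))) = 150 * ρ₀ / 5000 := by
    field_simp
    ring
  linarith

end Pool.Agent.Y334.SR
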