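import Mathlib
import Pool.Agent.Y334.SR.Cv

/-! Montel's theorem for maps into the sphere which omit three given points. -/

set_option autoImplicit false

open Set Filter Topology Metric
open scoped OnePoint
open Pool.Agent.Helper114.Herman
open Pool.Agent.Y334.RM
open Pool.Agent.Y334.FS

namespace Pool.Agent.Y334.SR

attribute [local instance] sphMet

/-- holomorphic functions on a disc which omit `0` and `1` are uniformly Lipschitz near the centre,
as maps into the sphere, if their value at the centre is small -/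
theorem omit01 : ∃ C : ℝ, 0 < C ∧ ∀ (f : ℂ → ℂ) (w₀ : ℂ) (δ : ℝ), 0 < δ →
    DifferentiableOn ℂ f (ball w₀ δ) → (∀ w ∈ ball w₀ δ, f w ≠ 0 ∧ f w ≠ 1) → ‖f w₀‖ ≤ 1 →
    ∀ w ∈ ball w₀ (δ / 2), ‖f w - f w₀‖ ≤ C / δ * ‖w - w₀‖ := by
  set B : ℝ := Real.exp (Real.pi * Real.exp (Real.pi * (3 + 386))) with hB
  have hB0 : 0 < B := Real.exp_pos _
  refine ⟨2 * (2 * B + 3), by positivity, ?_⟩
  intro f w₀ δ hδ hf hom h0
  have hbd : ∀ w ∈ ball w₀ (δ / 2), ‖f w‖ ≤ (B + 1) / 2 := by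
    set g : ℂ → ℂ := fun ζ => 2 * f (w₀ + δ * ζ) - 1 with hg
    have hmem : ∀ ζ ∈ ball (0 : ℂ) 1, w₀ + δ * ζ ∈ ball w₀ δ := by
      intro ζ hζ
      rw [mem_ball_zero_iff] at hζ
      rw [mem_ball, dist_eq_norm, add_sub_cancel_left, norm_mul, Complex.norm_real,
        Real.norm_eq_abs, abs_of_pos hδ]
      nlinarith
    have hgd : DifferentiableOn ℂ g (ball 0 1) := by
      have h1 : DifferentiableOn ℂ (fun ζ : ℂ => f (w₀ + δ * ζ)) (ball 0 1) :=
        hf.comp (by fun_prop) hmem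
      exact (h1.const_mul 2).sub_const 1
    have hg1 : ∀ ζ ∈ ball (0 : ℂ) 1, g ζ ≠ 1 := by
      intro ζ hζ h
      apply (hom _ (hmem ζ hζ)).2
      have h3 : 2 * f (w₀ + δ * ζ) - 1 = 1 := h
      linear_combination h3 / 2
    have hg2 : ∀ ζ ∈ ball (0 : ℂ) 1, g ζ ≠ -1 := by
      intro ζ hζ h
      apply (hom _ (hmem ζ hζ)).1
      have h3 : 2 * f (w₀ + δ * ζ) - 1 = -1 := h
      linear_combination h3 / 2
    have hg0 : ‖g 0‖ ≤ 3 := by
      show ‖2 * f (w₀ + δ * 0) - 1‖ ≤ 3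
      rw [mul_zero, add_zero]
      calc ‖2 * f w₀ - 1‖ ≤ ‖2 * f w₀‖ + ‖(1 : ℂ)‖ := norm_sub_le _ _
        _ = 2 * ‖f w₀‖ + 1 := by rw [norm_mul, norm_one]; norm_num
        _ ≤ 3 := by linarith
    intro w hw
    have h1 := H113G.schottky_all g 3 hgd hg1 hg2 hg0 ((w - w₀) / δ) (by
      rw [mem_ball, dist_eq_norm] at hw
      rw [mem_ball_zero_iff, norm_div, Complex.norm_real, Real.norm_eq_abs, abs_of_pos hδ,
        div_lt_iff₀ hδ]
      linarith)
    rw [← hB] at h1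
    have h2 : w₀ + δ * ((w - w₀) / δ) = w := by
      have : (δ : ℂ) ≠ 0 := by exact_mod_cast hδ.ne'
      field_simp
      ring
    have h3 : g ((w - w₀) / δ) = 2 * f w - 1 := by
      show 2 * f (w₀ + δ * ((w - w₀) / δ)) - 1 = _
      rw [h2]
    have h4 : f w = (g ((w - w₀) / δ) + 1) / 2 := by
      rw [h3]
      ring
    rw [h4, norm_div]
    have h5 : ‖g ((w - w₀) / δ) + 1‖ ≤ B + 1 := (norm_add_le _ _).trans (by rw [norm_one]; linarith)
    have h6 : ‖(2 : ℂ)‖ = 2 := by norm_num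
    rw [h6]
    linarith
  intro w hw
  have h1 := Complex.dist_le_div_mul_dist_of_mapsTo_ball (f := f) (c := w₀) (R₁ := δ / 2)
    (R₂ := 2 * B + 3) (hf.mono (ball_subset_ball (by linarith))) (by
      intro u hu
      rw [mem_closedBall, dist_eq_norm]
      have h2 := hbd u hu
      have := norm_sub_le (f u) (f w₀)
      linarith) hw
  rw [dist_eq_norm, dist_eq_norm] at h1
  refine h1.trans (le_of_eq ?_)
  field_simp

/-- **Montel's theorem.** -/
theorem montel3 {a b c : Sp} (hab : b ≠ a) (hac : c ≠ a) (hbc : b ≠ c) :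
    ∃ C : ℝ, 0 < C ∧ ∀ (ψ : ℂ → Sp) (w₀ : ℂ) (δ : ℝ), 0 < δ →
      (∀ w ∈ ball w₀ δ, HolAt ψ w ∧ ψ w ≠ a ∧ ψ w ≠ b ∧ ψ w ≠ c) →
      ∀ w ∈ ball w₀ (δ / 2), dist (ψ w) (ψ w₀) ≤ C / δ * ‖w - w₀‖ := by
  obtain ⟨C₁, hC₁, hom⟩ := omit01
  obtain ⟨H, hHa, hH1, hH2, -, -⟩ := to_inf a
  have hfinite : ∀ x, x ≠ a → H x ≠ ∞ := by
    intro x hx h
    exact hx (H.injective (by rw [h, hHa]))
  set p := co (H b) with hp
  set q := co (H c) with hq
  have hpc : (p : Sp) = H b := coe_co (hfinite _ hab)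
  have hqc : (q : Sp) = H c := coe_co (hfinite _ hac)
  have hqp : q - p ≠ 0 := by
    intro h
    apply hbc
    apply H.injective
    rw [← hpc, ← hqc, sub_eq_zero.1 h]
  -- the affine map
  set A : Mx := ⟨1, -p, 0, q - p⟩ with hA
  set A' : Mx := ⟨q - p, p, 0, 1⟩ with hA'
  have hAd : A.det ≠ 0 := by
    show (1 : ℂ) * (q - p) - (-p) * 0 ≠ 0
    rw [mul_zero, sub_zero, one_mul]
    exact hqp
  have hAd' : A'.det ≠ 0 := by
    show (q - p) * (1 : ℂ) - p * 0 ≠ 0
    rw [mul_zero, sub_zero, mul_one]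
    exact hqp
  have hAA : ∀ x, A'.act (A.act x) = x := by
    intro x
    rw [← Mx.act_mul _ hAd]
    obtain ⟨u, v, h, rfl⟩ := exists_pr x
    rw [Mx.act_pr _ h]
    have e1 : (A'.mul A).a * u + (A'.mul A).b * v = (q - p) * u := by
      simp only [Mx.mul, hA, hA']
      ring
    have e2 : (A'.mul A).c * u + (A'.mul A).e * v = (q - p) * v := by
      simp only [Mx.mul, hA, hA']
      ring
    rw [e1, e2, pr_smul hqp]
  set K : Sp → Sp := fun x => A.act (H x) with hK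
  set K' : Sp → Sp := fun x => H.symm (A'.act x) with hK'
  have hKh : HolMap K := (Mx.hol hAd).comp hH1
  have hKh' : HolMap K' := hH2.comp (Mx.hol hAd')
  have hKK : ∀ x, K' (K x) = x := by
    intro x
    show H.symm (A'.act (A.act (H x))) = x
    rw [hAA, H.symm_apply_apply]
  have hKval : ∀ x, x ≠ a → K x = (((co (H x) - p) / (q - p) : ℂ) : Sp) := by
    intro x hx
    show A.act (H x) = _
    rw [← coe_co (hfinite x hx), Mx.act_coe, co_coe]
    show pr (1 * co (H x) + -p) (0 * co (H x) + (q - p)) = _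
    unfold pr
    rw [if_neg (by rw [zero_mul, zero_add]; exact hqp), zero_mul, zero_add, one_mul,
      ← sub_eq_add_neg]
  obtain ⟨L, hL1, hL⟩ := hol_lip hKh'
  have hL0 : 0 < L := by linarith
  refine ⟨L * (5 * C₁), by positivity, ?_⟩
  intro ψ w₀ δ hδ hψ w hw
  set f : ℂ → ℂ := fun w => (co (H (ψ w)) - p) / (q - p) with hf
  have hfc : ∀ w ∈ ball w₀ δ, K (ψ w) = (f w : Sp) := fun w hw => hKval _ (hψ w hw).2.1
  have hfd : DifferentiableOn ℂ f (ball w₀ δ) := by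
    intro w hw
    have h1 : HolAt (fun u => H (ψ u)) w := hH1 ψ w (hψ w hw).1
    obtain ⟨k, hk, h2⟩ := h1.exists_coe (hfinite _ (hψ w hw).2.1)
    have h3 : (fun u => co (H (ψ u))) =ᶠ[𝓝 w] k := by
      filter_upwards [h2] with u hu
      rw [hu, co_coe]
    have h4 : DifferentiableAt ℂ (fun u => co (H (ψ u))) w :=
      hk.differentiableAt.congr_of_eventuallyEq h3
    exact ((h4.sub_const p).div_const (q - p)).differentiableWithinAt
  have hf01 : ∀ w ∈ ball w₀ δ, f w ≠ 0 ∧ f w ≠ 1 := by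
    intro w hw
    have hcoe : ((co (H (ψ w)) : ℂ) : Sp) = H (ψ w) := coe_co (hfinite _ (hψ w hw).2.1)
    constructor
    · intro h
      rcases div_eq_zero_iff.1 h with h | h
      · apply (hψ w hw).2.2.1
        apply H.injective
        rw [← hcoe, ← hpc, sub_eq_zero.1 h]
      · exact hqp h
    · intro h
      apply (hψ w hw).2.2.2
      apply H.injective
      have h1 := (div_eq_one_iff_eq hqp).1 h
      have h2 : co (H (ψ w)) = q := by linear_combination h1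
      rw [← hcoe, ← hqc, h2]
  have hw₀ : w₀ ∈ ball w₀ δ := mem_ball_self hδ
  have hwδ : w ∈ ball w₀ δ := ball_subset_ball (by linarith) hw
  have hfin : dist (K (ψ w)) (K (ψ w₀)) ≤ 5 * (C₁ / δ * ‖w - w₀‖) := by
    rw [hfc w hwδ, hfc w₀ hw₀]
    by_cases h0 : ‖f w₀‖ ≤ 1
    · refine (dist_coe_le _ _).trans ?_
      gcongr
      exact hom f w₀ δ hδ hfd hf01 h0 w hw
    · push Not at h0
      have hg := hom (fun w => (f w)⁻¹) w₀ δ hδ (hfd.inv fun w hw => (hf01 w hw).1)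
        (fun w hw => ⟨inv_ne_zero (hf01 w hw).1, fun h => (hf01 w hw).2 (by
          rw [← inv_inv (f w), h, inv_one])⟩) (by
          rw [norm_inv]
          exact inv_le_one_of_one_le₀ h0.le) w hw
      rw [← dist_sinv, sinv_coe (hf01 w hwδ).1, sinv_coe (hf01 w₀ hw₀).1]
      refine (dist_coe_le _ _).trans ?_
      gcongr
  calc dist (ψ w) (ψ w₀) = dist (K' (K (ψ w))) (K' (K (ψ w₀))) := by rw [hKK, hKK]
    _ ≤ L * dist (K (ψ w)) (K (ψ w₀)) := hL _ _
    _ ≤ L * (5 * (C₁ / δ * ‖w - w₀‖)) := by gcongr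
    _ = L * (5 * C₁) / δ * ‖w - w₀‖ := by ring

end Pool.Agent.Y334.SR
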