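import Mathlib
import Pool.Agent.Y334.FS.Contr

/-! Uniform exponential contraction for sequences of maps whose perturbed orbits omit balls. -/

set_option autoImplicit false

open Set Filter Topology Metric
open scoped OnePoint
open Pool.Agent.Helper114.Herman
open Pool.Agent.Y334.RM
open Pool.Agent.Y334.FS

namespace Pool.Agent.Y334.SR

attribute [local instance] sphMet

theorem contrInf {r : ℝ} (hr : 0 < r) : ∃ K₁ κ₁ κ₂ : ℝ, 1 ≤ K₁ ∧ 0 < κ₁ ∧ κ₁ ≤ 1 ∧ 0 < κ₂ ∧ κ₂ ≤ 1 ∧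
    ∀ η : ℝ, 0 < η → η ≤ 1 →
    ∀ F : ℕ → Sp → Sp, (∀ k, HolMap (F k)) → ∀ U : ℕ → Set Sp, (∀ k, IsOpen (U k)) →
      ∀ y : ℕ → Sp, (∀ k, ∀ u ∈ U k, r ≤ dist u (y k)) →
      (∀ k, ∀ u ∈ U k, ball (F k u) η ⊆ U (k + 1)) → ∀ z, ball z η ⊆ U 0 →
      ∀ k, ∀ x ∈ ball z (κ₂ * η), ∀ x' ∈ ball z (κ₂ * η),
        dist (It F k x) (It F k x') ≤ K₁ / η * ((1 + κ₁ * η)⁻¹) ^ k * dist x x' := by
  classical
  -- the net
  obtain ⟨t, -, htf, htc⟩ := finite_cover_balls_of_compact (isCompact_univ (X := Sp)) (half_pos hr)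
  have hnet : ∀ x : Sp, ∃ ν ∈ t, dist x ν < r / 2 := by
    intro x
    obtain ⟨ν, hν, hx⟩ := mem_iUnion₂.1 (htc (mem_univ x))
    exact ⟨ν, hν, hx⟩
  choose Hf Lf Rf hL1 hR0 hH0 hH1 hH2 hHL hHR using fun ν : Sp => coord (half_pos hr) ν
  choose Gf hG1 hGL using fun ν : Sp => hol_lip (hH1 ν)
  obtain ⟨L', hL'⟩ := (htf.toFinset.image Lf).exists_le
  obtain ⟨R', hR'⟩ := (htf.toFinset.image Rf).exists_le
  obtain ⟨G', hG'⟩ := (htf.toFinset.image Gf).exists_le
  set L : ℝ := max L' 1 with hL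
  set R : ℝ := max R' 0 with hR
  set L₂ : ℝ := max G' 1 with hL₂
  have hL1' : 1 ≤ L := le_max_right _ _
  have hL21 : 1 ≤ L₂ := le_max_right _ _
  have hR0' : 0 ≤ R := le_max_right _ _
  have hLt : ∀ ν ∈ t, Lf ν ≤ L := fun ν hν =>
    (hL' _ (Finset.mem_image_of_mem _ (htf.mem_toFinset.2 hν))).trans (le_max_left _ _)
  have hGt : ∀ ν ∈ t, Gf ν ≤ L₂ := fun ν hν =>
    (hG' _ (Finset.mem_image_of_mem _ (htf.mem_toFinset.2 hν))).trans (le_max_left _ _)
  have hRt : ∀ ν ∈ t, Rf ν ≤ R := fun ν hν =>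
    (hR' _ (Finset.mem_image_of_mem _ (htf.mem_toFinset.2 hν))).trans (le_max_left _ _)
  set A : ℝ := (1 + R) * (1 + R ^ 2) * L₂ with hA
  have hA1 : 1 ≤ A := by
    rw [hA]
    have h1 : 1 ≤ 1 + R := by linarith
    have h2 : 1 ≤ 1 + R ^ 2 := by nlinarith
    exact one_le_mul_of_one_le_of_one_le (one_le_mul_of_one_le_of_one_le h1 h2) hL21
  have hA0 : 0 < A := by positivity
  have hLR : 1 ≤ L * (R + 1) := one_le_mul_of_one_le_of_one_le hL1' (by linarith)
  have hLA : 1 ≤ L * A := one_le_mul_of_one_le_of_one_le hL1' hA1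
  refine ⟨100 * (L * (R + 1)) * (L * A), 1 / (20 * (L * (R + 1))), 1 / (40 * (L * A)), ?_,
    by positivity, ?_, by positivity, ?_, ?_⟩
  · nlinarith [one_le_mul_of_one_le_of_one_le hLR hLA]
  · rw [div_le_one (by positivity)]
    linarith
  · rw [div_le_one (by positivity)]
    linarith
  intro η hη hη1
  set η' : ℝ := η / (5 * L) with hη'
  have hη0 : 0 < η' := by positivity
  set q : ℝ := 1 + η' / (4 * (R + 1)) with hq
  have hq1 : 1 < q := by
    have : 0 < η' / (4 * (R + 1)) := by positivity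
    linarith
  set C₁ : ℝ := (R + 1) * (1 / (η' / 4)) with hC₁
  have hC₁0 : 0 < C₁ := by positivity
  set ρ : ℝ := min (η / 2) (η' / (8 * A)) with hρ
  have hρ0 : 0 < ρ := by positivity
  have hqe : 1 + 1 / (20 * (L * (R + 1))) * η = q := by
    rw [hq, hη']
    field_simp
    ring
  have hρe : 1 / (40 * (L * A)) * η = ρ := by
    have h1 : η' / (8 * A) = 1 / (40 * (L * A)) * η := by
      rw [hη']
      field_simp
      ring
    rw [hρ, ← h1, min_eq_right]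
    rw [h1]
    have h2 : 1 / (40 * (L * A)) ≤ 1 / 2 := by
      apply one_div_le_one_div_of_le (by norm_num)
      linarith
    nlinarith
  have hCe : 100 * (L * (R + 1)) * (L * A) / η = L * (5 * (C₁ * A)) := by
    rw [hC₁, hη']
    field_simp
    ring
  rw [hqe, hρe, hCe]
  intro F hF U hU y hom hm z hz k x hx x' hx'
  have hmaps : ∀ k, ∀ u ∈ U k, F k u ∈ U (k + 1) := fun k u hu => hm k u hu (mem_ball_self hη)
  choose ν hνt hνd using fun k => hnet (y k)
  have hom' : ∀ k, ∀ u ∈ U k, r / 2 ≤ dist u (ν k) := by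
    intro k u hu
    have h1 := hom k u hu
    have h2 := dist_triangle_right u (y k) (ν k)
    have h3 := hνd k
    linarith
  have hfin : ∀ k, ∀ x ∈ U k, Hf (ν k) x ≠ ∞ := by
    intro k x hx h
    have h1 : x = ν k := (Hf (ν k)).injective (by rw [h, hH0])
    have h2 := hom' k x hx
    rw [h1, dist_self] at h2
    linarith
  set O : ℕ → Set ℂ := fun k => {u | (Hf (ν k)).symm (u : Sp) ∈ U k} with hO
  have hOo : ∀ k, IsOpen (O k) := fun k =>
    (hU k).preimage ((Hf (ν k)).symm.continuous.comp OnePoint.continuous_coe)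
  set f : ℕ → ℂ → ℂ := fun k u => co (Hf (ν (k + 1)) (F k ((Hf (ν k)).symm (u : Sp)))) with hf
  have hfc : ∀ k, ∀ u ∈ O k, ((f k u : ℂ) : Sp) = Hf (ν (k + 1)) (F k ((Hf (ν k)).symm (u : Sp))) :=
    fun k u hu => coe_co (hfin (k + 1) _ (hmaps k _ hu))
  have hfs : ∀ k, ∀ u ∈ O k, (Hf (ν (k + 1))).symm ((f k u : ℂ) : Sp) =
      F k ((Hf (ν k)).symm (u : Sp)) := by
    intro k u hu
    rw [hfc k u hu, Homeomorph.symm_apply_apply]
  have hfd : ∀ k, DifferentiableOn ℂ (f k) (O k) := by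
    intro k u hu
    have h1 : HolAt (fun w : ℂ => Hf (ν (k + 1)) (F k ((Hf (ν k)).symm (w : Sp)))) u :=
      hH1 _ _ _ (hF k _ _ (hH2 _ _ _ (holAt_coe analyticAt_id)))
    obtain ⟨g, hg, h2⟩ := h1.exists_coe (hfin (k + 1) _ (hmaps k _ hu))
    have h3 : f k =ᶠ[𝓝 u] g := by
      filter_upwards [h2] with w hw
      show co (Hf (ν (k + 1)) (F k ((Hf (ν k)).symm (w : Sp)))) = g w
      rw [hw, co_coe]
    exact (hg.differentiableAt.congr_of_eventuallyEq h3).differentiableWithinAt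
  have hB : ∀ k, ∀ u ∈ O k, ‖u‖ ≤ R := fun k u hu =>
    (hHR _ u (hom' k _ hu)).trans (hRt _ (hνt k))
  have hmar : ∀ k, ∀ u ∈ O k, ball (f k u) η' ⊆ O (k + 1) := by
    intro k u hu v hv
    show (Hf (ν (k + 1))).symm (v : Sp) ∈ U (k + 1)
    apply hm k _ hu
    rw [mem_ball, ← hfs k u hu]
    rw [mem_ball, dist_eq_norm] at hv
    have h0 : (0 : ℝ) < Lf (ν (k + 1)) := by linarith [hL1 (ν (k + 1))]
    calc dist ((Hf (ν (k + 1))).symm (v : Sp)) ((Hf (ν (k + 1))).symm ((f k u : ℂ) : Sp))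
        ≤ Lf (ν (k + 1)) * dist (v : Sp) ((f k u : ℂ) : Sp) := hHL _ _ _
      _ ≤ L * (5 * ‖v - f k u‖) := by
          gcongr
          · exact hLt _ (hνt _)
          · exact dist_coe_le _ _
      _ < L * (5 * η') := by gcongr
      _ = η := by rw [hη']; field_simp
  have hfm : ∀ k, ∀ u ∈ O k, f k u ∈ O (k + 1) := fun k u hu => hmar k u hu (mem_ball_self hη0)
  have hz0 : z ∈ U 0 := hz (mem_ball_self hη)
  set u₀ : ℂ := co (Hf (ν 0) z) with hu₀
  have hu₀c : (u₀ : Sp) = Hf (ν 0) z := coe_co (hfin 0 z hz0)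
  have hcb : ball u₀ η' ⊆ O 0 := by
    intro v hv
    show (Hf (ν 0)).symm (v : Sp) ∈ U 0
    apply hz
    rw [mem_ball]
    rw [mem_ball, dist_eq_norm] at hv
    have h1 : (Hf (ν 0)).symm (u₀ : Sp) = z := by
      rw [hu₀c, Homeomorph.symm_apply_apply]
    have h0 : (0 : ℝ) < Lf (ν 0) := by linarith [hL1 (ν 0)]
    calc dist ((Hf (ν 0)).symm (v : Sp)) z
        = dist ((Hf (ν 0)).symm (v : Sp)) ((Hf (ν 0)).symm (u₀ : Sp)) := by rw [h1]
      _ ≤ Lf (ν 0) * dist (v : Sp) (u₀ : Sp) := hHL _ _ _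
      _ ≤ L * (5 * ‖v - u₀‖) := by
          gcongr
          · exact hLt _ (hνt _)
          · exact dist_coe_le _ _
      _ < L * (5 * η') := by gcongr
      _ = η := by rw [hη']; field_simp
  -- derivative bound
  have hder : ∀ k, ∀ u ∈ ball u₀ (η' / 4), ‖deriv (It f k) u‖ ≤ C₁ * q⁻¹ ^ k := by
    intro k u hu
    have hcb2 : closedBall u (η' / 4) ⊆ O 0 := by
      refine Subset.trans ?_ hcb
      intro v hv
      rw [mem_ball] at hu ⊢
      rw [mem_closedBall] at hv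
      have := dist_triangle v u u₀
      linarith
    have h1 := carath_seq hOo hfd hR0' hη0 hB hmar (by positivity : 0 < η' / 4) hcb2 k
      (fun u => u / ((R + 1 : ℝ) : ℂ)) ((differentiable_id.div_const _).differentiableOn) (by
        intro u hu
        rw [norm_div, Complex.norm_real, Real.norm_eq_abs, abs_of_pos (by linarith : (0:ℝ) < R + 1),
          div_le_one (by linarith)]
        have := hB k u hu
        linarith)
    have h2 : deriv (fun u : ℂ => u / ((R + 1 : ℝ) : ℂ)) (It f k u) = 1 / ((R + 1 : ℝ) : ℂ) := by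
      simp
    rw [h2, norm_div, norm_one, Complex.norm_real, Real.norm_eq_abs,
      abs_of_pos (by linarith : (0:ℝ) < R + 1), ← hq] at h1
    have hqk : 0 < q ^ k := by positivity
    have hR1 : (0:ℝ) < R + 1 := by linarith
    rw [inv_pow, ← div_eq_mul_inv, le_div_iff₀ hqk]
    calc ‖deriv (It f k) u‖ * q ^ k = (R + 1) * (1 / (R + 1) * ‖deriv (It f k) u‖ * q ^ k) := by
          field_simp
      _ ≤ (R + 1) * (1 / (η' / 4)) := by gcongr
  -- the coordinates of `x`, `x'`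
  have hsub : ball z ρ ⊆ U 0 := by
    refine Subset.trans (ball_subset_ball ?_) hz
    exact (min_le_left _ _).trans (by linarith)
  have hco : ∀ x ∈ U 0, ∀ x' ∈ U 0, ‖co (Hf (ν 0) x) - co (Hf (ν 0) x')‖ ≤ A * dist x x' := by
    intro x hx x' hx'
    have e1 : ((co (Hf (ν 0) x) : ℂ) : Sp) = Hf (ν 0) x := coe_co (hfin 0 x hx)
    have e2 : ((co (Hf (ν 0) x') : ℂ) : Sp) = Hf (ν 0) x' := coe_co (hfin 0 x' hx')
    have hxO : co (Hf (ν 0) x) ∈ O 0 := by
      show (Hf (ν 0)).symm ((co (Hf (ν 0) x) : ℂ) : Sp) ∈ U 0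
      rw [e1, Homeomorph.symm_apply_apply]
      exact hx
    have hxO' : co (Hf (ν 0) x') ∈ O 0 := by
      show (Hf (ν 0)).symm ((co (Hf (ν 0) x') : ℂ) : Sp) ∈ U 0
      rw [e2, Homeomorph.symm_apply_apply]
      exact hx'
    have h1 := coe_dist (hB 0 _ hxO) (hB 0 _ hxO')
    rw [e1, e2] at h1
    refine h1.trans ?_
    rw [hA, mul_assoc ((1 + R) * (1 + R ^ 2))]
    gcongr
    exact (hGL _ _ _).trans (by gcongr; exact hGt _ (hνt _))
  have hxb : ∀ x ∈ ball z ρ, co (Hf (ν 0) x) ∈ ball u₀ (η' / 4) := by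
    intro x hx
    rw [mem_ball, dist_eq_norm]
    have h1 := hco x (hsub hx) z hz0
    have h2 : A * dist x z < A * ρ := by
      rw [mem_ball] at hx
      gcongr
    have h3 : A * ρ ≤ A * (η' / (8 * A)) := by
      gcongr
      exact min_le_right _ _
    have h4 : A * (η' / (8 * A)) = η' / 8 := by field_simp
    linarith
  -- the transfer
  have htr : ∀ m, ∀ x ∈ U 0, It F m x = (Hf (ν m)).symm ((It f m (co (Hf (ν 0) x)) : ℂ) : Sp) := by
    intro m x hx
    have hx0 : ((co (Hf (ν 0) x) : ℂ) : Sp) = Hf (ν 0) x := coe_co (hfin 0 x hx)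
    have hxO : co (Hf (ν 0) x) ∈ O 0 := by
      show (Hf (ν 0)).symm ((co (Hf (ν 0) x) : ℂ) : Sp) ∈ U 0
      rw [hx0, Homeomorph.symm_apply_apply]
      exact hx
    induction m with
    | zero => rw [It_zero, It_zero, hx0, Homeomorph.symm_apply_apply]
    | succ m ih =>
      rw [It_succ, It_succ, hfs m _ (It_mem hfm m hxO), ← ih]
  rw [htr k x (hsub hx), htr k x' (hsub hx')]
  have hmv : ‖It f k (co (Hf (ν 0) x)) - It f k (co (Hf (ν 0) x'))‖ ≤
      C₁ * q⁻¹ ^ k * ‖co (Hf (ν 0) x) - co (Hf (ν 0) x')‖ := by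
    apply (convex_ball u₀ (η' / 4)).norm_image_sub_le_of_norm_deriv_le (𝕜 := ℂ) _ (hder k)
      (hxb x' hx') (hxb x hx)
    intro u hu
    exact (It_diff hfd hfm k).differentiableAt ((hOo 0).mem_nhds (hcb (ball_subset_ball
      (by linarith) hu)))
  have h0 : (0 : ℝ) < Lf (ν k) := by linarith [hL1 (ν k)]
  have hqi : 0 < q⁻¹ ^ k := by positivity
  calc _ ≤ Lf (ν k) * dist ((It f k (co (Hf (ν 0) x)) : ℂ) : Sp)
        ((It f k (co (Hf (ν 0) x')) : ℂ) : Sp) := hHL _ _ _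
    _ ≤ L * (5 * ‖It f k (co (Hf (ν 0) x)) - It f k (co (Hf (ν 0) x'))‖) := by
        gcongr
        · exact hLt _ (hνt _)
        · exact dist_coe_le _ _
    _ ≤ L * (5 * (C₁ * q⁻¹ ^ k * (A * dist x x'))) := by
        gcongr
        refine hmv.trans ?_
        gcongr
        exact hco x (hsub hx) x' (hsub hx')
    _ = L * (5 * (C₁ * A)) * q⁻¹ ^ k * dist x x' := by ring

/-- **Uniform exponential contraction** over windows. -/
theorem contrU {r : ℝ} (hr : 0 < r) (hr1 : r ≤ 1) :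
    ∃ K₁ κ₁ κ₂ : ℝ, 1 ≤ K₁ ∧ 0 < κ₁ ∧ κ₁ ≤ 1 ∧ 0 < κ₂ ∧ κ₂ ≤ 1 ∧ ∀ η : ℝ, 0 < η → η ≤ 1 →
    ∀ F : ℕ → Sp → Sp, (∀ k, HolMap (F k)) → ∀ U : ℕ → Set Sp, (∀ k, IsOpen (U k)) →
      ∀ (N : ℕ) (y : ℕ → Sp), (∀ k ≤ N, ∀ u ∈ U k, r ≤ dist u (y k)) →
      (∀ k < N, ∀ u ∈ U k, ball (F k u) η ⊆ U (k + 1)) → ∀ z, ball z η ⊆ U 0 →
      ∀ k ≤ N, ∀ x ∈ ball z (κ₂ * η), ∀ x' ∈ ball z (κ₂ * η),
        dist (It F k x) (It F k x') ≤ K₁ / η * ((1 + κ₁ * η)⁻¹) ^ k * dist x x' := by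
  obtain ⟨K₁, κ₁, κ₂, hK₁, hκ₁, hκ₁1, hκ₂, hκ₂1, h⟩ := contrInf hr
  refine ⟨K₁, κ₁, κ₂, hK₁, hκ₁, hκ₁1, hκ₂, hκ₂1, ?_⟩
  intro η hη hη1 F hF U hU N y hom hm z hz k hk x hx x' hx'
  set p₀ : Sp := ((0 : ℂ) : Sp) with hp₀
  set F' : ℕ → Sp → Sp := fun k => if k < N then F k else fun _ => p₀ with hF'
  set U' : ℕ → Set Sp := fun k => if k ≤ N then U k else ball p₀ η with hU'
  set y' : ℕ → Sp := fun k => if k ≤ N then y k else ∞ with hy'
  have hd2 : 2 ≤ dist p₀ ∞ := by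
    have : |(emb p₀).2 - (emb ∞).2| ≤ dist p₀ ∞ := by
      rw [dist_emb, Prod.dist_eq, ← Real.dist_eq]
      exact le_max_right _ _
    rw [hp₀, emb_coe, emb_infty] at this
    norm_num at this
    exact this
  have hFk : ∀ k ≤ N, ∀ x, It F' k x = It F k x := by
    intro k
    induction k with
    | zero => intro _ x; rfl
    | succ k ih =>
      intro hk x
      rw [It_succ, It_succ, ih (by omega)]
      simp only [hF']
      rw [if_pos (by omega)]
  rw [← hFk k hk, ← hFk k hk]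
  refine h η hη hη1 F' ?_ U' ?_ y' ?_ ?_ z ?_ k x hx x' hx'
  · intro k
    simp only [hF']
    split_ifs
    · exact hF k
    · intro φ w _
      exact holAt_coe analyticAt_const
  · intro k
    simp only [hU']
    split_ifs
    · exact hU k
    · exact isOpen_ball
  · intro k u hu
    simp only [hU'] at hu
    simp only [hy']
    split_ifs at hu ⊢ with h1
    · exact hom k h1 u hu
    · rw [mem_ball] at hu
      have := dist_triangle_left p₀ ∞ u
      linarith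
  · intro k u hu
    simp only [hU'] at hu ⊢
    simp only [hF']
    by_cases h1 : k < N
    · rw [if_pos h1, if_pos (by omega : k + 1 ≤ N)]
      rw [if_pos h1.le] at hu
      exact hm k h1 u hu
    · rw [if_neg h1, if_neg (by omega : ¬ k + 1 ≤ N)]
  · simp only [hU']
    rw [if_pos (Nat.zero_le N)]
    exact hz

end Pool.Agent.Y334.SR
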