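import Mathlib
import Pool.Agent.Y334.FS.Fibre
import Pool.Agent.Y334.ST.Pre

/-! Pseudo-orbits are orbits of continuous perturbations. -/

set_option autoImplicit false

open Set Filter Topology Metric
open scoped OnePoint
open Pool.Agent.Helper114.Herman
open Pool.Agent.Y334.RM
open Pool.Agent.Y334.FS
open Pool.Agent.Y334.ST (trunc trunc_cont trunc_le trunc_eq)

namespace Pool.Agent.Y334.SR

attribute [local instance] sphMet

theorem exists_pertN {X : Type} [TopologicalSpace X] [NormalSpace X] [T1Space X] {T : X → X} {N : ℕ}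
    (hT : ∀ x : X, ∀ k : ℕ, 1 ≤ k → k < N → T^[k] x ≠ x) (x : X) (n : ℕ) (hn : n ≤ N) (a : ℕ → ℂ)
    {ρ : ℝ} (hρ : 0 < ρ) (ha : ∀ j < n, ‖a j‖ ≤ ρ) :
    ∃ s : X → ℂ, Continuous s ∧ (∀ y, ‖s y‖ ≤ ρ) ∧ ∀ j < n, s (T^[j] x) = a j := by
  classical
  have hinj : ∀ i j : ℕ, i < n → j < n → T^[i] x = T^[j] x → i = j := by
    have key : ∀ i j : ℕ, i < j → j < n → T^[i] x ≠ T^[j] x := by
      intro i j hij hj h
      obtain ⟨k, rfl⟩ : ∃ k, j = k + i := ⟨j - i, by omega⟩
      rw [Function.iterate_add_apply] at h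
      exact hT _ k (by omega) (by omega) h.symm
    intro i j hi hj h
    rcases lt_trichotomy i j with h1 | h1 | h1
    · exact absurd h (key i j h1 hj)
    · exact h1
    · exact absurd h.symm (key j i h1 hi)
  set S : Set X := (fun j : ℕ => T^[j] x) '' (Set.Iio n) with hS
  have hfin : S.Finite := (Set.finite_Iio n).image _
  have hcl : IsClosed S := hfin.isClosed
  have : Finite S := hfin
  have hdisc : DiscreteTopology S := Finite.instDiscreteTopology
  set f₀ : X → ℂ := fun y => if h : ∃ j < n, T^[j] x = y then a h.choose else 0 with hf₀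
  have hval : ∀ j < n, f₀ (T^[j] x) = a j := by
    intro j hj
    have h : ∃ i < n, T^[i] x = T^[j] x := ⟨j, hj, rfl⟩
    rw [hf₀]
    simp only
    rw [dif_pos h]
    congr 1
    exact hinj _ _ h.choose_spec.1 hj h.choose_spec.2
  obtain ⟨g, hg⟩ := ContinuousMap.exists_restrict_eq hcl
    (⟨fun y : S => f₀ y, continuous_of_discreteTopology⟩ : C(S, ℂ))
  refine ⟨fun y => trunc ρ (g y), (trunc_cont hρ).comp g.continuous, fun y => trunc_le hρ _,
    fun j hj => ?_⟩
  have h1 : g (T^[j] x) = a j := by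
    have hm : T^[j] x ∈ S := ⟨j, hj, rfl⟩
    have h2 := DFunLike.congr_fun hg ⟨T^[j] x, hm⟩
    have h3 : g (T^[j] x) = f₀ (T^[j] x) := h2
    rw [h3, hval j hj]
  show trunc ρ (g (T^[j] x)) = a j
  rw [h1, trunc_eq hρ (ha j hj)]


/-- The Moebius map `w ↦ w / (1 + γ w) + β`. -/
noncomputable def mb (β γ : ℂ) (w : Sp) : Sp := (un false β).act ((un true γ).act w)

theorem un_zero (b : Bool) (x : Sp) : (un b 0).act x = x := by
  have : un b 0 = Mx.one := by cases b <;> simp [un, Mx.one]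
  rw [this, Mx.act_one]

theorem mb_disp {δ : ℝ} (hδ : δ ≤ 1 / 4) {β γ : ℂ} (hβ : ‖β‖ < δ) (hγ : ‖γ‖ < δ) (x : Sp) :
    dist (mb β γ x) x ≤ 20 * δ := by
  have h1 := kick_disp hδ (⟨false, β, hβ, rfl⟩ : Kick δ (un false β)) ((un true γ).act x)
  have h2 := kick_disp hδ (⟨true, γ, hγ, rfl⟩ : Kick δ (un true γ)) x
  have h3 := dist_triangle (mb β γ x) ((un true γ).act x) x
  have h4 : dist (mb β γ x) ((un true γ).act x) ≤ 10 * δ := h1
  linarith

/-- The perturbed family. -/
noncomputable def pf {X : Type} (f : X → Sp → Sp) (β γ : X → ℂ) : X → Sp → Sp :=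
  fun x z => mb (β x) (γ x) (f x z)

theorem It_congr {F F' : ℕ → Sp → Sp} {k : ℕ} (h : ∀ i < k, F i = F' i) (z : Sp) :
    It F k z = It F' k z := by
  induction k with
  | zero => rfl
  | succ k ih => rw [It_succ, It_succ, ih (fun i hi => h i (by omega)), h k (by omega)]

theorem fb_It {X : Type} (T : X → X) (f : X → Sp → Sp) (k : ℕ) (x : X) (z : Sp) :
    fb T f k x z = It (fun i => f (T^[i] x)) k z := by
  induction k with
  | zero => rfl
  | succ k ih => rw [fb_succ, It_succ, ih]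

theorem orb_mem (F : ℕ → Sp → Sp) {η : ℝ} (hη : 0 < η) (c : Sp) (k : ℕ) : It F k c ∈ PO F η c k := by
  induction k with
  | zero => rw [PO_zero, It_zero]; exact mem_singleton c
  | succ k ih => exact PO_ball ih (mem_ball_self hη)

theorem PO_seq {F : ℕ → Sp → Sp} {η δ : ℝ} (hη : η ≤ 1 / 2) (hδ0 : 0 < δ) (hδ : 15 * η ≤ δ) {c : Sp}
    (k : ℕ) : ∀ u ∈ PO F η c k, ∃ a b : ℕ → ℂ, (∀ i, ‖a i‖ < δ ∧ ‖b i‖ < δ) ∧
      It (fun i z => mb (a i) (b i) (F i z)) k c = u := by
  induction k with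
  | zero =>
    intro u hu
    rw [PO_zero, mem_singleton_iff] at hu
    exact ⟨fun _ => 0, fun _ => 0, fun i => by simpa using hδ0, hu.symm⟩
  | succ k ih =>
    intro u hu
    rw [PO_succ, mem_iUnion₂] at hu
    obtain ⟨u', hu', hu⟩ := hu
    obtain ⟨a, b, h1, h2⟩ := ih u' hu'
    rw [mem_ball, dist_comm] at hu
    obtain ⟨M, ⟨bb, β, hβ, rfl⟩, hM⟩ := kick_trans (δ := δ) (lt_of_lt_of_le hu hη) (by linarith)
    refine ⟨fun i => if i = k then (if bb then 0 else β) else a i,
      fun i => if i = k then (if bb then β else 0) else b i, ?_, ?_⟩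
    · intro i
      by_cases hi : i = k
      · simp only [hi, if_true]
        cases bb <;> simp [hβ, hδ0]
      · simp only [hi, if_false]
        exact h1 i
    · rw [It_succ]
      simp only [if_true]
      have h3 : It (fun i z => mb (if i = k then (if bb then 0 else β) else a i)
          (if i = k then (if bb then β else 0) else b i) (F i z)) k c = u' := by
        rw [← h2]
        apply It_congr
        intro i hi
        funext z
        rw [if_neg (by omega), if_neg (by omega)]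
      rw [h3, ← hM]
      cases bb
      · simp only [Bool.false_eq_true, if_false]
        show (un false β).act ((un true 0).act (F k u')) = _
        rw [un_zero]
      · simp only [if_true]
        show (un false 0).act ((un true β).act (F k u')) = _
        rw [un_zero]

/-- The perturbed critical orbits of size `δ` omit balls of radius `r`, up to the time `N`. -/
def Om {X : Type} [TopologicalSpace X] (T : X → X) (f : X → Sp → Sp) (δ r : ℝ) (N : ℕ) : Prop :=
  ∀ x c, ¬ LI (f x) c → ∀ k, 1 ≤ k → k ≤ N → ∃ y : Sp, ∀ β γ : X → ℂ, Continuous β → Continuous γ →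
    (∀ x, ‖β x‖ < δ ∧ ‖γ x‖ < δ) → r ≤ dist (fb T (pf f β γ) k x c) y

theorem PO_omit {X : Type} [TopologicalSpace X] [NormalSpace X] [T1Space X] {T : X → X} {N : ℕ}
    (hT : ∀ x : X, ∀ k : ℕ, 1 ≤ k → k < N → T^[k] x ≠ x) {f : X → Sp → Sp} {δ r η : ℝ} (hδ : 0 < δ)
    (hη : η ≤ 1 / 2) (hηδ : 30 * η ≤ δ) (h : Om T f δ r N) {x : X} {c : Sp} (hc : ¬ LI (f x) c)
    {k : ℕ} (hk1 : 1 ≤ k) (hkN : k ≤ N) :
    ∃ y : Sp, ∀ u ∈ PO (fun i => f (T^[i] x)) η c k, r ≤ dist u y := by
  obtain ⟨y, hy⟩ := h x c hc k hk1 hkN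
  refine ⟨y, fun u hu => ?_⟩
  obtain ⟨a, b, h1, h2⟩ := PO_seq (δ := δ / 2) hη (by linarith) (by linarith) k u hu
  obtain ⟨β, hβ1, hβ2, hβ3⟩ := exists_pertN hT x k hkN a (by linarith : 0 < δ / 2)
    fun j _ => (h1 j).1.le
  obtain ⟨γ, hγ1, hγ2, hγ3⟩ := exists_pertN hT x k hkN b (by linarith : 0 < δ / 2)
    fun j _ => (h1 j).2.le
  have h3 := hy β γ hβ1 hγ1 fun x => ⟨lt_of_le_of_lt (hβ2 x) (by linarith),
    lt_of_le_of_lt (hγ2 x) (by linarith)⟩
  have h4 : fb T (pf f β γ) k x c = u := by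
    rw [fb_It, ← h2]
    apply It_congr
    intro i hi
    funext z
    show mb (β (T^[i] x)) (γ (T^[i] x)) (f (T^[i] x) z) = _
    rw [hβ3 i hi, hγ3 i hi]
  rwa [h4] at h3

end Pool.Agent.Y334.SR
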