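import Mathlib
import Pool.Agent.Y334.SR.Cv
import Pool.Agent.Y334.SR.Ctr
import Pool.Agent.Y334.SR.Rlz

/-! Stable fibered rational maps over systems with long periods are hyperbolic, with uniform
constants. -/

set_option autoImplicit false

open Set Filter Topology Metric
open scoped OnePoint
open Pool.Agent.Helper114.Herman
open Pool.Agent.Y334.RM
open Pool.Agent.Y334.FS

namespace Pool.Agent.Y334.SR

attribute [local instance] sphMet

theorem fb_hol {X : Type} {T : X → X} {f : X → Sp → Sp} (hf : ∀ x, HolMap (f x)) (k : ℕ) (x : X) :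
    HolMap (fb T f k x) := by
  induction k with
  | zero => exact HolMap.id
  | succ k ih => exact (hf (T^[k] x)).comp ih

theorem fb_li {X : Type} {T : X → X} {f : X → Sp → Sp} (hf : ∀ x, HolMap (f x)) {k : ℕ} {x : X}
    {z : Sp} (h : ∀ i < k, LI (f (T^[i] x)) (fb T f i x z)) : LI (fb T f k x) z := by
  induction k with
  | zero => exact ⟨univ, univ_mem, fun a _ b _ h => h⟩
  | succ k ih =>
    exact LI.comp (f := f (T^[k] x)) (g := fb T f k x) (ih fun i hi => h i (by omega))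
      (h k (by omega)) (fb_hol hf k x).continuous

theorem fb_joint {X : Type} [TopologicalSpace X] {T : X → X} (hT : Continuous T) {f : X → Sp → Sp}
    (hf : Continuous fun p : X × Sp => f p.1 p.2) (k : ℕ) :
    Continuous fun p : X × Sp => fb T f k p.1 p.2 := by
  induction k with
  | zero => exact continuous_snd
  | succ k ih =>
    exact hf.comp (((hT.iterate k).comp continuous_fst).prodMk ih)

theorem fb_near {X : Type} [TopologicalSpace X] {T : X → X} (hT : Continuous T) {f : X → Sp → Sp}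
    (hf : Continuous fun p : X × Sp => f p.1 p.2) (k : ℕ) (x₀ : X) {ε : ℝ} (hε : 0 < ε) :
    ∀ᶠ x in 𝓝 x₀, ∀ z : Sp, dist (fb T f k x z) (fb T f k x₀ z) < ε := by
  have h := (isCompact_univ (X := Sp)).eventually_forall_of_forall_eventually
    (P := fun (x : X) (z : Sp) => dist (fb T f k x z) (fb T f k x₀ z) < ε) (x₀ := x₀) ?_
  · filter_upwards [h] with x hx z
    exact hx z (mem_univ z)
  · intro z _
    have h1 : Continuous fun p : X × Sp => dist (fb T f k p.1 p.2) (fb T f k x₀ p.2) :=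
      (fb_joint hT hf k).dist ((fb_joint hT hf k).comp (continuous_const.prodMk continuous_snd))
    exact (h1.continuousAt (x := (x₀, z))).eventually_lt continuousAt_const (by
      simp only [dist_self]
      exact hε)

/-- the post-critical points of small times -/
def PS {X : Type} (T : X → X) (f : X → Sp → Sp) (m : ℕ) : Set (X × Sp) :=
  {p | ∃ y c k, 1 ≤ k ∧ k ≤ m ∧ ¬ LI (f y) c ∧ p = (T^[k] y, fb T f k y c)}

/-- **The core.** -/
theorem coreM {Λ r₀ : ℝ} (hΛ : 1 ≤ Λ) (hr₀ : 0 < r₀) :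
    ∃ κ₁ κ₃ : ℝ, 0 < κ₁ ∧ κ₁ ≤ 1 ∧ 0 < κ₃ ∧ κ₃ ≤ 1 ∧ ∀ δ : ℝ, 0 < δ → δ ≤ 1 → ∀ m : ℕ, 1 ≤ m →
      Real.sqrt (1 + κ₁ * δ)⁻¹ ^ m ≤ κ₃ * δ ^ 2 →
      ∃ r C lam : ℝ, 0 < r ∧ 0 ≤ C ∧ 0 < lam ∧ lam < 1 ∧
      ∀ (X : Type) [TopologicalSpace X] [NormalSpace X] [T1Space X] (T : X → X), Continuous T →
        (∀ x : X, ∀ k : ℕ, 1 ≤ k → k < 2 * m → T^[k] x ≠ x) →
        ∀ f : X → Sp → Sp, (Continuous fun p : X × Sp => f p.1 p.2) →
        (∀ x, HolMap (f x)) → (∀ x, Two (f x)) →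
        (∀ x z z', dist (f x z) (f x z') ≤ Λ * dist z z') → Om T f δ r₀ (2 * m) →
        HypF T f r C lam := by
  have hΛ0 : 0 < Λ := by linarith
  set r₁ : ℝ := min r₀ 1 with hr₁
  have hr₁0 : 0 < r₁ := by positivity
  obtain ⟨K₁, κ₁, κ₂, hK₁, hκ₁, hκ₁1, hκ₂, hκ₂1, hcon'⟩ := contrU hr₁0 (min_le_right r₀ 1)
  obtain ⟨κ, hκ, hκ1, hcv'⟩ := cv_near hΛ
  have hK₁0 : 0 < K₁ := by linarith
  refine ⟨κ₁ / 30, κ * κ₂ / (128 * 900 * K₁), by positivity, by linarith, by positivity, ?_, ?_⟩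
  · rw [div_le_one (by positivity)]
    nlinarith [mul_le_one₀ hκ1 hκ₂.le hκ₂1]
  intro δ hδ hδ1 m hm1 hsmall
  set η : ℝ := δ / 30 with hη
  have hη0 : 0 < η := by positivity
  have hη1 : η ≤ 1 / 2 := by linarith
  have hη2 : 30 * η ≤ δ := by linarith
  have hcon := hcon' η hη0 (by linarith)
  set ρ : ℝ := κ₂ * η with hρdef
  have hρ : 0 < ρ := by positivity
  have hρ1 : ρ ≤ 1 := by nlinarith
  set C : ℝ := K₁ / η with hCdef
  have hC : 1 ≤ C := by
    rw [hCdef, le_div_iff₀ hη0]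
    linarith
  set q : ℝ := (1 + κ₁ * η)⁻¹ with hqdef
  have hq0 : 0 < q := by positivity
  have hq1 : q < 1 := inv_lt_one_of_one_lt₀ (by nlinarith [mul_pos hκ₁ hη0])
  have hqe : (1 + κ₁ / 30 * δ)⁻¹ = q := by
    rw [hqdef, hη]
    congr 1
    ring
  rw [hqe] at hsmall
  -- the rate
  set s : ℝ := Real.sqrt q with hs
  have hs0 : 0 < s := Real.sqrt_pos.2 hq0
  have hss : s * s = q := Real.mul_self_sqrt hq0.le
  have hs1 : s < 1 := by
    rw [hs, Real.sqrt_lt' one_pos]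
    simpa using hq1
  have hCs : C * s ^ m ≤ κ * ρ / 128 := by
    calc C * s ^ m ≤ C * (κ * κ₂ / (128 * 900 * K₁) * δ ^ 2) := by gcongr
      _ = κ * ρ / 128 := by
          rw [hCdef, hρdef, hη]
          field_simp
          ring
  have hκρ : κ * ρ ≤ 1 := by nlinarith
  obtain ⟨m₀, hm⟩ : ∃ m₀, m = m₀ + 1 := ⟨m - 1, by omega⟩
  set τ : ℝ := κ * (ρ / 8) * (ρ / 4) with hτdef
  have hτ : 0 < τ := by positivity
  have hcv := hcv' (ρ / 8) (ρ / 4) (by positivity) (by linarith) (by positivity) (by linarith)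
  have hsm1 : C * s ^ m ≤ 1 := by linarith
  have hqm : C * q ^ m ≤ s ^ m := by
    rw [← hss, mul_pow, ← mul_assoc]
    calc C * s ^ m * s ^ m ≤ 1 * s ^ m := by gcongr
      _ = s ^ m := one_mul _
  have hsm' : s ^ m ≤ 1 := pow_le_one₀ hs0.le hs1.le
  have hqs : C * q ^ m ≤ C * s ^ m := by
    rw [← hss, mul_pow]
    have : s ^ m * s ^ m ≤ 1 * s ^ m := by gcongr
    nlinarith
  have hq4 : C * q ^ m ≤ 1 / 4 := by linarith
  have hqτ : C * q ^ m * ρ ≤ τ / 4 := by
    have h1 : C * q ^ m ≤ κ * ρ / 128 := hqs.trans hCs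
    calc C * q ^ m * ρ ≤ κ * ρ / 128 * ρ := by gcongr
      _ = τ / 4 := by rw [hτdef]; ring
  set r : ℝ := ρ / (8 * Λ ^ m) with hr
  have hr0 : 0 < r := by positivity
  have hLm : 1 ≤ Λ ^ m := one_le_pow₀ hΛ
  have hrρ : r ≤ ρ / 8 := by
    rw [hr]
    apply div_le_div_of_nonneg_left hρ.le (by positivity)
    linarith
  have hrL : Λ ^ m * r = ρ / 8 := by
    rw [hr]
    field_simp
  refine ⟨r, C * Λ ^ m * (s ^ m)⁻¹, s, hr0, by positivity, hs0, hs1, ?_⟩
  intro X _ _ _ T hT hper f hf hhol htwo hlip hom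
  -- Claim A
  have hA : ∀ p ∈ PS T f m, ∀ k ≤ m, ∀ z z' : Sp, dist z p.2 < ρ → dist z' p.2 < ρ →
      dist (fb T f k p.1 z) (fb T f k p.1 z') ≤ C * q ^ k * dist z z' := by
    rintro p ⟨y, c, j, hj1, hjm, hc, rfl⟩ k hk z z' hz hz'
    obtain ⟨j', rfl⟩ : ∃ j', j = j' + 1 := ⟨j - 1, by omega⟩
    have hex : ∀ k : ℕ, ∃ v : Sp, k + (j' + 1) ≤ 2 * m →
        ∀ u ∈ PO (fun i => f (T^[i] y)) η c (k + (j' + 1)), r₁ ≤ dist u v := by
      intro k
      by_cases hk : k + (j' + 1) ≤ 2 * m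
      · obtain ⟨v, hv⟩ := PO_omit hper hδ hη1 hη2 hom hc (by omega : 1 ≤ k + (j' + 1)) hk
        exact ⟨v, fun _ u hu => (min_le_left _ _).trans (hv u hu)⟩
      · exact ⟨∞, fun h => absurd h hk⟩
    choose v hv using hex
    have h1 := hcon (fun i => f (T^[i] (T^[j' + 1] y))) (fun i => hhol _)
      (fun k => PO (fun i => f (T^[i] y)) η c (k + (j' + 1)))
      (fun k => by
        have : k + (j' + 1) = (k + j') + 1 := by ring
        rw [this]
        exact PO_open _ _ _ _) m v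
      (fun k hk u hu => hv k (by omega) u hu)
      (fun k hk u hu => by
        have e : k + 1 + (j' + 1) = (k + (j' + 1)) + 1 := by ring
        rw [e]
        have := PO_ball hu
        rw [← Function.iterate_add_apply]
        exact this)
      (fb T f (j' + 1) y c) (by
        rw [Nat.zero_add, fb_It]
        exact PO_ball (orb_mem _ hη0 c j')) k hk z (mem_ball.2 hz) z' (mem_ball.2 hz')
    show dist (fb T f k (T^[j' + 1] y) z) (fb T f k (T^[j' + 1] y) z') ≤ _
    rw [fb_It T f k, fb_It T f k]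
    exact h1
  -- Claim B
  have hB : ∀ (x : X) (v : Sp), (∀ z, dist z v < ρ / 4 →
      dist (fb T f m x z) (fb T f m x v) < τ) →
      ∃ p ∈ PS T f m, p.1 = T^[m] x ∧ dist p.2 (fb T f m x v) < ρ / 8 := by
    intro x v hv
    have he : ∀ z, fb T f m x z = fb T f m₀ (T^[1] x) (f x z) := fun z => by
      rw [hm]
      exact fb_add T f 1 m₀ x z
    obtain ⟨ζ, h1, h2⟩ := hcv (f x) (fb T f m₀ (T^[1] x)) (hhol x) (fb_hol hhol _ _) (hlip x)
      (htwo x) v (fun z hz => by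
        have := hv z hz
        rwa [he, he] at this)
    have h3 : ¬ LI (fb T f m x) ζ := by
      intro h
      apply h1
      have : (fun z => fb T f m₀ (T^[1] x) (f x z)) = fb T f m x := funext fun z => (he z).symm
      rw [this]
      exact h
    obtain ⟨i, hi, hli⟩ : ∃ i < m, ¬ LI (f (T^[i] x)) (fb T f i x ζ) := by
      by_contra hno
      push Not at hno
      exact h3 (fb_li hhol hno)
    refine ⟨(T^[m - i] (T^[i] x), fb T f (m - i) (T^[i] x) (fb T f i x ζ)),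
      ⟨T^[i] x, fb T f i x ζ, m - i, by omega, by omega, hli, rfl⟩, ?_, ?_⟩
    · show T^[m - i] (T^[i] x) = T^[m] x
      rw [← Function.iterate_add_apply, show m - i + i = m by omega]
    · show dist (fb T f (m - i) (T^[i] x) (fb T f i x ζ)) (fb T f m x v) < ρ / 8
      rw [← fb_add, show m - i + i = m by omega, he, he]
      exact h2
  -- one block
  have hblock : ∀ p ∈ PS T f m, ∀ v, dist v p.2 < 3 * ρ / 4 →
      ∃ p' ∈ PS T f m, p'.1 = T^[m] p.1 ∧ dist p'.2 (fb T f m p.1 v) < ρ / 8 := by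
    intro p hp v hv
    apply hB
    intro z hz
    have h1 := dist_triangle z v p.2
    have h2 := hA p hp m le_rfl z v (by linarith) (by linarith)
    have h3 : C * q ^ m * dist z v ≤ C * q ^ m * ρ := by
      gcongr
      linarith
    linarith
  -- Claim C
  have hCl : ∀ k : ℕ, ∀ p ∈ PS T f m, ∀ z z' : Sp, dist z p.2 < ρ / 2 → dist z' p.2 < ρ / 2 →
      dist (fb T f k p.1 z) (fb T f k p.1 z') ≤ C * s ^ k * dist z z' := by
    intro k
    induction k using Nat.strong_induction_on with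
    | _ k ih =>
      intro p hp z z' hz hz'
      rcases le_or_gt k m with hk | hk
      · refine (hA p hp k hk z z' (by linarith) (by linarith)).trans ?_
        have : q ≤ s := by
          rw [← hss]
          nlinarith
        gcongr
      · obtain ⟨k', rfl⟩ : ∃ k', k = k' + m := ⟨k - m, by omega⟩
        obtain ⟨p', hp', h1, h2⟩ := hblock p hp z (by linarith)
        have h3 := hA p hp m le_rfl z z' (by linarith) (by linarith)
        have h4 : dist z z' < ρ := by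
          have := dist_triangle_right z z' p.2
          linarith
        have h5 : dist (fb T f m p.1 z) (fb T f m p.1 z') ≤ ρ / 4 := by
          refine h3.trans ?_
          calc C * q ^ m * dist z z' ≤ 1 / 4 * ρ := by gcongr
            _ = ρ / 4 := by ring
        have h6 : dist (fb T f m p.1 z) p'.2 < ρ / 2 := by
          rw [dist_comm]
          linarith
        have h7 : dist (fb T f m p.1 z') p'.2 < ρ / 2 := by
          have := dist_triangle_left (fb T f m p.1 z') p'.2 (fb T f m p.1 z)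
          rw [dist_comm (fb T f m p.1 z) p'.2] at this
          linarith
        have h8 := ih k' (by omega) p' hp' _ _ h6 h7
        rw [h1] at h8
        rw [fb_add T f m k' p.1 z, fb_add T f m k' p.1 z']
        calc _ ≤ C * s ^ k' * dist (fb T f m p.1 z) (fb T f m p.1 z') := h8
          _ ≤ C * s ^ k' * (C * q ^ m * dist z z') := by gcongr
          _ ≤ C * s ^ k' * (s ^ m * dist z z') := by gcongr
          _ = C * s ^ (k' + m) * dist z z' := by rw [pow_add]; ring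
  -- Claim D
  have hD : ∀ j : ℕ, 1 ≤ j → ∀ y c, ¬ LI (f y) c →
      ∃ p ∈ PS T f m, p.1 = T^[j] y ∧ dist p.2 (fb T f j y c) < ρ / 8 := by
    intro j
    induction j using Nat.strong_induction_on with
    | _ j ih =>
      intro hj y c hc
      rcases le_or_gt j m with hjm | hjm
      · refine ⟨_, ⟨y, c, j, hj, hjm, hc, rfl⟩, rfl, ?_⟩
        simp only [dist_self]
        positivity
      · obtain ⟨j', rfl⟩ : ∃ j', j = j' + m := ⟨j - m, by omega⟩
        obtain ⟨p, hp, h1, h2⟩ := ih j' (by omega) (by omega) y c hc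
        obtain ⟨p', hp', h3, h4⟩ := hblock p hp (fb T f j' y c) (by
          rw [dist_comm]
          linarith)
        refine ⟨p', hp', ?_, ?_⟩
        · rw [h3, h1, ← Function.iterate_add_apply, Nat.add_comm m j']
        · have e : fb T f (j' + m) y c = fb T f m p.1 (fb T f j' y c) := by
            rw [h1, Nat.add_comm, fb_add]
          rw [e]
          exact h4
  -- Claim E
  intro p hp
  have hW := fb_near hT hf m p.1 (by positivity : 0 < τ / 8)
  -- a post-critical point nearby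
  have hnb : {x | ∀ z : Sp, dist (fb T f m x z) (fb T f m p.1 z) < τ / 8} ×ˢ ball p.2 (ρ / 8) ∈
      𝓝 p := by
    rw [show p = (p.1, p.2) from rfl, nhds_prod_eq]
    exact prod_mem_prod hW (ball_mem_nhds _ (by positivity))
  obtain ⟨q', ⟨hq'1, hq'2⟩, hq'⟩ := mem_closure_iff_nhds.1 hp _ hnb
  obtain ⟨y, c, j, hj, hc, rfl⟩ := hq'
  obtain ⟨σ, hσ, h1, h2⟩ := hD j hj y c hc
  simp only at hq'1 hq'2
  have h3 : dist σ.2 p.2 < ρ / 4 := by
    rw [mem_ball] at hq'2
    have := dist_triangle σ.2 (fb T f j y c) p.2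
    linarith
  refine ⟨_, hW, ?_⟩
  intro x hx z z' hz hz' k
  have hbase : ∀ z, dist z p.2 < ρ / 4 → dist (fb T f m x z) (fb T f m x p.2) < τ := by
    intro z hz
    have e1 := hx z
    have e2 := hx p.2
    have e3 : dist (fb T f m (T^[j] y) z) (fb T f m p.1 z) < τ / 8 := hq'1 z
    have e4 : dist (fb T f m (T^[j] y) p.2) (fb T f m p.1 p.2) < τ / 8 := hq'1 p.2
    have e5 := hA σ hσ m le_rfl z p.2 (by
      have := dist_triangle_right z σ.2 p.2
      linarith) (by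
      rw [dist_comm]
      linarith)
    rw [h1] at e5
    have e6 : C * q ^ m * dist z p.2 ≤ C * q ^ m * ρ := by
      gcongr
      linarith
    have t1 := dist_triangle (fb T f m x z) (fb T f m p.1 z) (fb T f m x p.2)
    have t2 := dist_triangle (fb T f m p.1 z) (fb T f m (T^[j] y) z) (fb T f m x p.2)
    have t3 := dist_triangle (fb T f m (T^[j] y) z) (fb T f m (T^[j] y) p.2) (fb T f m x p.2)
    have t4 := dist_triangle (fb T f m (T^[j] y) p.2) (fb T f m p.1 p.2) (fb T f m x p.2)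
    rw [dist_comm (fb T f m p.1 z) (fb T f m (T^[j] y) z)] at t2
    rw [dist_comm (fb T f m p.1 p.2) (fb T f m x p.2)] at t4
    linarith
  obtain ⟨p', hp', h4, h5⟩ := hB x p.2 hbase
  have hfirst : ∀ k ≤ m, ∀ z z' : Sp, dist (fb T f k x z) (fb T f k x z') ≤
      Λ ^ m * dist z z' := fun k hk z z' => fb_lip' hΛ hlip hk x z z'
  have hsk : ∀ k ≤ m, s ^ m ≤ s ^ k := fun k hk => pow_le_pow_of_le_one hs0.le hs1.le hk
  rcases le_or_gt k m with hk | hk
  · refine (hfirst k hk z z').trans ?_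
    apply mul_le_mul_of_nonneg_right _ dist_nonneg
    have h6 := hsk k hk
    have h7 : 1 ≤ (s ^ m)⁻¹ * s ^ k := by
      rw [inv_mul_eq_div, le_div_iff₀ (by positivity), one_mul]
      exact h6
    calc Λ ^ m = 1 * Λ ^ m * 1 := by ring
      _ ≤ C * Λ ^ m * ((s ^ m)⁻¹ * s ^ k) := by gcongr
      _ = C * Λ ^ m * (s ^ m)⁻¹ * s ^ k := by ring
  · obtain ⟨k', rfl⟩ : ∃ k', k = k' + m := ⟨k - m, by omega⟩
    have hin : ∀ z, dist z p.2 < r → dist (fb T f m x z) p'.2 < ρ / 2 := by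
      intro z hz
      have e1 := hfirst m le_rfl z p.2
      have e2 : Λ ^ m * dist z p.2 ≤ Λ ^ m * r := by gcongr
      have e3 := dist_triangle_right (fb T f m x z) p'.2 (fb T f m x p.2)
      linarith
    have h6 := hCl k' p' hp' _ _ (hin z hz) (hin z' hz')
    rw [h4] at h6
    rw [fb_add T f m k' x z, fb_add T f m k' x z']
    calc _ ≤ C * s ^ k' * dist (fb T f m x z) (fb T f m x z') := h6
      _ ≤ C * s ^ k' * (Λ ^ m * dist z z') := by
          gcongr
          exact hfirst m le_rfl z z'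
      _ = C * Λ ^ m * (s ^ m)⁻¹ * s ^ (k' + m) * dist z z' := by
          rw [pow_add]
          have hsm0 : s ^ m ≠ 0 := by positivity
          field_simp

theorem log_small (K : ℝ) {δ : ℝ} (hδ : 0 < δ) :
    ∃ n₀ : ℕ, 3 ≤ n₀ ∧ ∀ n : ℕ, n₀ ≤ n → K * Real.log n / n ≤ δ := by
  have h1 := Real.isLittleO_log_id_atTop.bound (show 0 < δ / (|K| + 1) by positivity)
  have h2 := tendsto_natCast_atTop_atTop (R := ℝ) |>.eventually h1
  obtain ⟨n₁, hn₁⟩ := eventually_atTop.1 h2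
  refine ⟨max n₁ 3, le_max_right _ _, fun n hn => ?_⟩
  have h3 := hn₁ n ((le_max_left _ _).trans hn)
  have h4 : 3 ≤ n := (le_max_right _ _).trans hn
  have h5 : (3 : ℝ) ≤ n := by exact_mod_cast h4
  rw [id, Real.norm_eq_abs, Real.norm_eq_abs, abs_of_pos (by linarith : (0:ℝ) < n)] at h3
  rw [div_le_iff₀ (by linarith)]
  have h6 : K * Real.log n ≤ |K| * |Real.log n| := by
    rw [← abs_mul]
    exact le_abs_self _
  have h7 : |K| * |Real.log n| ≤ |K| * (δ / (|K| + 1) * n) := by gcongr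
  have h8 : |K| * (δ / (|K| + 1) * n) ≤ (|K| + 1) * (δ / (|K| + 1) * n) := by
    gcongr
    linarith
  have h9 : (|K| + 1) * (δ / (|K| + 1) * n) = δ * n := by
    have : |K| + 1 ≠ 0 := by positivity
    field_simp
  linarith

/-- **The core, with the rate `log n / n`.** -/
theorem core {Λ r₀ : ℝ} (hΛ : 1 ≤ Λ) (hr₀ : 0 < r₀) :
    ∃ (K : ℝ) (n₀ : ℕ), 0 < K ∧ 3 ≤ n₀ ∧ ∀ n : ℕ, n₀ ≤ n →
      ∃ r C lam : ℝ, 0 < r ∧ 0 ≤ C ∧ 0 < lam ∧ lam < 1 ∧
      ∀ (X : Type) [TopologicalSpace X] [NormalSpace X] [T1Space X] (T : X → X), Continuous T →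
        (∀ x : X, ∀ k : ℕ, 1 ≤ k → k < n → T^[k] x ≠ x) →
        ∀ f : X → Sp → Sp, (Continuous fun p : X × Sp => f p.1 p.2) →
        (∀ x, HolMap (f x)) → (∀ x, Two (f x)) →
        (∀ x z z', dist (f x z) (f x z') ≤ Λ * dist z z') →
        Om T f (K * Real.log n / n) r₀ n → HypF T f r C lam := by
  obtain ⟨κ₁, κ₃, hκ₁, hκ₁1, hκ₃, hκ₃1, h⟩ := coreM hΛ hr₀
  set K : ℝ := 12 * (2 + Real.log (1 / κ₃)) / κ₁ with hK
  have hlog3 : 0 ≤ Real.log (1 / κ₃) := Real.log_nonneg (by rw [le_div_iff₀ hκ₃]; linarith)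
  have hK24 : 24 ≤ K := by
    rw [hK, le_div_iff₀ hκ₁]
    nlinarith
  have hK0 : 0 < K := by linarith
  obtain ⟨n₀, hn₀3, hn₀⟩ := log_small K one_pos
  refine ⟨K, n₀, hK0, hn₀3, fun n hn => ?_⟩
  have hn3 : 3 ≤ n := hn₀3.trans hn
  have hn3' : (3 : ℝ) ≤ n := by exact_mod_cast hn3
  have hnpos : (0 : ℝ) < n := by linarith
  have hlogn : 1 ≤ Real.log n := by
    rw [Real.le_log_iff_exp_le hnpos]
    exact Real.exp_one_lt_three.le.trans hn3'
  set δ : ℝ := K * Real.log n / n with hδ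
  have hδ0 : 0 < δ := by positivity
  have hδ1 : δ ≤ 1 := hn₀ n hn
  have hm : 1 ≤ n / 2 := by omega
  have hm3 : (n : ℝ) / 3 ≤ ((n / 2 : ℕ) : ℝ) := by
    have h1 : n ≤ 3 * (n / 2) := by omega
    have h2 : (n : ℝ) ≤ 3 * ((n / 2 : ℕ) : ℝ) := by exact_mod_cast h1
    linarith
  have hkey : Real.sqrt (1 + κ₁ * δ)⁻¹ ^ (n / 2) ≤ κ₃ * δ ^ 2 := by
    have hx : 0 < κ₁ * δ := by positivity
    have hx1 : κ₁ * δ ≤ 1 := by nlinarith
    have hsq : 0 < Real.sqrt (1 + κ₁ * δ)⁻¹ := Real.sqrt_pos.2 (by positivity)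
    have h1 : Real.log (Real.sqrt (1 + κ₁ * δ)⁻¹) ≤ -(κ₁ * δ / 4) := by
      rw [Real.log_sqrt (by positivity), Real.log_inv]
      have h2 := Real.one_sub_inv_le_log_of_pos (by positivity : 0 < 1 + κ₁ * δ)
      have h3 : κ₁ * δ / 2 ≤ 1 - (1 + κ₁ * δ)⁻¹ := by
        rw [inv_eq_one_div, le_sub_comm, div_le_iff₀ (by positivity)]
        nlinarith
      linarith
    have h4 : Real.sqrt (1 + κ₁ * δ)⁻¹ ^ (n / 2) =
        Real.exp (((n / 2 : ℕ) : ℝ) * Real.log (Real.sqrt (1 + κ₁ * δ)⁻¹)) := by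
      rw [Real.exp_nat_mul, Real.exp_log hsq]
    have h5 : ((n / 2 : ℕ) : ℝ) * Real.log (Real.sqrt (1 + κ₁ * δ)⁻¹) ≤
        -(κ₁ * K / 12 * Real.log n) := by
      have h6 : ((n / 2 : ℕ) : ℝ) * Real.log (Real.sqrt (1 + κ₁ * δ)⁻¹) ≤
          ((n / 2 : ℕ) : ℝ) * -(κ₁ * δ / 4) := by gcongr
      have h7 : (n : ℝ) / 3 * (κ₁ * δ / 4) ≤ ((n / 2 : ℕ) : ℝ) * (κ₁ * δ / 4) := by gcongr
      have h8 : (n : ℝ) / 3 * (κ₁ * δ / 4) = κ₁ * K / 12 * Real.log n := by
        rw [hδ]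
        field_simp
        ring
      linarith
    have h9 : κ₁ * K / 12 = 2 + Real.log (1 / κ₃) := by
      rw [hK]
      field_simp
    have h10 : -(κ₁ * K / 12 * Real.log n) ≤ Real.log κ₃ + 2 * -Real.log n := by
      rw [h9, show Real.log (1 / κ₃) = -Real.log κ₃ by rw [one_div, Real.log_inv]] 
      rw [one_div, Real.log_inv] at hlog3
      nlinarith
    have h11 : Real.exp (Real.log κ₃ + 2 * -Real.log n) = κ₃ * (1 / n) ^ 2 := by
      rw [Real.exp_add, Real.exp_log hκ₃, show (2 : ℝ) * -Real.log n = ((2 : ℕ) : ℝ) * -Real.log n by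
        norm_num, Real.exp_nat_mul, Real.exp_neg, Real.exp_log hnpos, one_div]
    have h12 : 1 / (n : ℝ) ≤ δ := by
      rw [hδ]
      gcongr
      nlinarith
    rw [h4]
    calc Real.exp (((n / 2 : ℕ) : ℝ) * Real.log (Real.sqrt (1 + κ₁ * δ)⁻¹))
        ≤ Real.exp (Real.log κ₃ + 2 * -Real.log n) := Real.exp_le_exp.2 (h5.trans h10)
      _ = κ₃ * (1 / n) ^ 2 := h11
      _ ≤ κ₃ * δ ^ 2 := by gcongr
  obtain ⟨r, C, lam, hr, hC, hl0, hl1, hmain⟩ := h δ hδ0 hδ1 (n / 2) hm hkey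
  refine ⟨r, C, lam, hr, hC, hl0, hl1, ?_⟩
  intro X _ _ _ T hT hper f hf hhol htwo hlip hom
  refine hmain X T hT (fun x k hk1 hk2 => hper x k hk1 (by omega)) f hf hhol htwo hlip ?_
  intro x c hc k hk1 hk2
  exact hom x c hc k hk1 (by omega)

theorem Om.mono {X : Type} [TopologicalSpace X] {T : X → X} {f : X → Sp → Sp} {δ δ' r : ℝ}
    {N : ℕ} (h : Om T f δ r N) (hδ : δ' ≤ δ) : Om T f δ' r N := by
  intro x c hc k hk1 hk2
  obtain ⟨y, hy⟩ := h x c hc k hk1 hk2
  exact ⟨y, fun β γ hβ hγ hs => hy β γ hβ hγ fun x => ⟨(hs x).1.trans_le hδ,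
    (hs x).2.trans_le hδ⟩⟩

end Pool.Agent.Y334.SR
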