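import Mathlib
import Pool.Agent.Y334.FS.Fibre

/-! Perturbed critical orbits of a hyperbolic fibered rational map follow the unperturbed ones; a
uniform Lipschitz constant for continuous families over a compact space. -/

set_option autoImplicit false

open Set Filter Topology Metric
open scoped OnePoint
open Pool.Agent.Helper114.Herman
open Pool.Agent.Y334.RM
open Pool.Agent.Y334.FS

namespace Pool.Agent.Y334.SR

attribute [local instance] sphMet

/-- **Shadowing.** -/
theorem track {r C lam η : ℝ} (hr : 0 < r) (hl0 : 0 < lam) (hl1 : lam < 1) (hη : 0 < η) :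
    ∃ δ : ℝ, 0 < δ ∧ ∀ (X : Type) [TopologicalSpace X] (T : X → X) (f : X → Sp → Sp),
      HypF T f r C lam → ∀ g : X → Sp → Sp, (∀ x z, dist (g x z) (f x z) < δ) →
      ∀ x c, ¬ LI (f x) c → ∀ k : ℕ, dist (fb T g k x c) (fb T f k x c) < η := by
  set C' : ℝ := max C 1 with hC'
  have hC1 : 1 ≤ C' := le_max_right _ _
  have hl : 0 < 1 - lam := by linarith
  set m : ℝ := min r η with hm
  have hm0 : 0 < m := by positivity
  set δ : ℝ := m * (1 - lam) / (4 * C') with hδ
  have hδ0 : 0 < δ := by positivity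
  set σ : ℝ := C' * δ / (1 - lam) with hσ
  have hσm : σ = m / 4 := by
    rw [hσ, hδ]
    field_simp
  have hδm : δ ≤ m / 4 := by
    rw [hδ, div_le_div_iff₀ (by positivity) (by norm_num)]
    nlinarith [mul_pos hm0 hl]
  refine ⟨δ, hδ0, ?_⟩
  intro X _ T f hyp g hg x c hc
  have hcon : ∀ j : ℕ, 1 ≤ j → ∀ z z' : Sp, dist z (fb T f j x c) < r →
      dist z' (fb T f j x c) < r → ∀ i : ℕ,
      dist (fb T f i (T^[j] x) z) (fb T f i (T^[j] x) z') ≤ C' * lam ^ i * dist z z' := by
    intro j hj z z' hz hz' i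
    obtain ⟨W, hW, h⟩ := hyp (T^[j] x, fb T f j x c) (subset_closure ⟨x, c, j, hj, hc, rfl⟩)
    refine (h _ (mem_of_mem_nhds hW) z z' hz hz' i).trans ?_
    gcongr
    exact le_max_left _ _
  have key : ∀ k : ℕ, dist (fb T g k x c) (fb T f k x c) ≤ σ := by
    intro k
    induction k using Nat.strong_induction_on with
    | _ k ih =>
      have hstep : ∀ m' : ℕ, ∀ l : ℕ, l + m' = k →
          dist (fb T f l (T^[m'] x) (fb T g m' x c)) (fb T f k x c) ≤
            C' * δ * lam ^ l / (1 - lam) := by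
        intro m'
        induction m' with
        | zero =>
          intro l hl'
          rw [Nat.add_zero] at hl'
          rw [hl', Function.iterate_zero, id, fb_zero, dist_self]
          positivity
        | succ m' ihm =>
          intro l hl'
          have h1 := ihm (l + 1) (by omega)
          have h2 : fb T f (l + 1) (T^[m'] x) (fb T g m' x c) =
              fb T f l (T^[m' + 1] x) (f (T^[m'] x) (fb T g m' x c)) := by
            rw [fb_add T f 1 l, ← Function.iterate_add_apply, Nat.add_comm 1 m']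
            rfl
          rw [h2] at h1
          have h3 : dist (fb T g (m' + 1) x c) (f (T^[m'] x) (fb T g m' x c)) < δ := hg _ _
          have h4 : dist (fb T f l (T^[m' + 1] x) (fb T g (m' + 1) x c))
              (fb T f l (T^[m' + 1] x) (f (T^[m'] x) (fb T g m' x c))) ≤ C' * lam ^ l * δ := by
            rcases Nat.eq_zero_or_pos l with h0 | h0
            · subst h0
              rw [fb_zero, fb_zero, pow_zero, mul_one]
              nlinarith
            · have h5 := ih (m' + 1) (by omega)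
              have h6 := dist_triangle_left (f (T^[m'] x) (fb T g m' x c)) (fb T f (m' + 1) x c)
                (fb T g (m' + 1) x c)
              have hmr : m ≤ r := min_le_left _ _
              have h7 := hcon (m' + 1) (by omega) (fb T g (m' + 1) x c)
                (f (T^[m'] x) (fb T g m' x c)) (by linarith) (by linarith) l
              refine h7.trans ?_
              gcongr
          have h8 := dist_triangle (fb T f l (T^[m' + 1] x) (fb T g (m' + 1) x c))
            (fb T f l (T^[m' + 1] x) (f (T^[m'] x) (fb T g m' x c))) (fb T f k x c)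
          have h9 : C' * δ * lam ^ l / (1 - lam) =
              C' * lam ^ l * δ + C' * δ * lam ^ (l + 1) / (1 - lam) := by
            rw [pow_succ]
            field_simp
            ring
          linarith
      have h := hstep k 0 (by omega)
      rw [fb_zero, pow_zero, mul_one] at h
      exact h
  intro k
  have h1 := key k
  have h2 : m ≤ η := min_le_right _ _
  linarith

theorem kap_dist {b : Bool} {z w : ℂ} (hz : ‖z‖ ≤ 2) (hw : ‖w‖ ≤ 2) :
    ‖z - w‖ ≤ 15 * dist (kap b z) (kap b w) := by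
  have h := coe_dist hz hw
  cases b with
  | false =>
    rw [kap_false, kap_false]
    linarith
  | true =>
    rw [kap_true, kap_true, dist_sinv]
    linarith

theorem lip_loc {X : Type} [TopologicalSpace X] {f : X → Sp → Sp}
    (hf : Continuous fun p : X × Sp => f p.1 p.2) (hh : ∀ x, HolMap (f x)) (x₀ : X) (z₀ : Sp) :
    ∃ W ∈ 𝓝 x₀, ∃ U ∈ 𝓝 z₀, ∃ K : ℝ, 0 ≤ K ∧ ∀ x ∈ W, ∀ z ∈ U, ∀ z' ∈ U,
      dist (f x z) (f x z') ≤ K * dist z z' := by
  obtain ⟨b, w₀, hw₀, rfl⟩ := exists_kap_le z₀
  obtain ⟨b', v₀, hv₀, hfv⟩ := exists_kap_le (f x₀ (kap b w₀))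
  have h1 : (fun p : X × Sp => f p.1 p.2) ⁻¹' ball (kap b' v₀) (1 / 2) ∈ 𝓝 (x₀, kap b w₀) := by
    apply hf.continuousAt
    show ball (kap b' v₀) (1 / 2) ∈ 𝓝 (f x₀ (kap b w₀))
    rw [hfv]
    exact ball_mem_nhds _ (by norm_num)
  obtain ⟨W, hW, U', hU', hWU⟩ := mem_nhds_prod_iff.1 h1
  have h2 : kap b ⁻¹' U' ∈ 𝓝 w₀ := (isOpenEmbedding_kap b).continuous.continuousAt hU'
  obtain ⟨t, ht, htU⟩ := Metric.mem_nhds_iff.1 h2
  set s : ℝ := min (t / 2) (1 / 2) with hs
  have hs0 : 0 < s := by positivity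
  have hs1 : 2 * s ≤ t := by
    have := min_le_left (t / 2) (1 / 2 : ℝ)
    rw [← hs] at this
    linarith
  have hs2 : s ≤ 1 / 2 := min_le_right _ _
  refine ⟨W, hW, kap b '' ball w₀ s, kap_ball hs0, 5 * (2 / s) * 15, by positivity, ?_⟩
  rintro x hx _ ⟨w, hw, rfl⟩ _ ⟨w', hw', rfl⟩
  set h : ℂ → ℂ := fun u => ci b' (f x (kap b u)) with hh'
  have hval : ∀ u ∈ ball w₀ t, f x (kap b u) = kap b' (h u) ∧ ‖h u‖ ≤ 2 := by
    intro u hu
    have h3 : (x, kap b u) ∈ W ×ˢ U' := ⟨hx, htU hu⟩
    have h4 : dist (kap b' v₀) (f x (kap b u)) < 1 / 2 := by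
      rw [dist_comm]
      exact hWU h3
    obtain ⟨y, h5, h6, -⟩ := near_kap hv₀ h4
    rw [hh']
    simp only
    rw [h6, ci_kap]
    exact ⟨rfl, h5⟩
  have hd : DifferentiableOn ℂ h (ball w₀ t) := by
    intro u hu
    have h3 : HolAt (fun u => f x (kap b u)) u := hh x _ _ (holAt_kap b u)
    obtain ⟨g, hg, -, h4⟩ := h3.exists_kap (hval u hu).1
    have h5 : h =ᶠ[𝓝 u] g := by
      filter_upwards [h4] with v hv
      show ci b' (f x (kap b v)) = g v
      rw [hv, ci_kap]
    exact (hg.differentiableAt.congr_of_eventuallyEq h5).differentiableWithinAt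
  have hder : ∀ u ∈ ball w₀ s, ‖deriv h u‖ ≤ 2 / s := by
    intro u hu
    have hsub : closedBall u s ⊆ ball w₀ t := by
      intro v hv
      rw [mem_closedBall] at hv
      rw [mem_ball] at hu ⊢
      have := dist_triangle v u w₀
      linarith
    apply Complex.norm_deriv_le_of_forall_mem_sphere_norm_le hs0
    · exact (hd.mono hsub).diffContOnCl_ball (Subset.refl _)
    · intro v hv
      exact (hval v (hsub (sphere_subset_closedBall hv))).2
  have hsub2 : ball w₀ s ⊆ ball w₀ t := ball_subset_ball (by linarith)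
  have hmv : ‖h w - h w'‖ ≤ 2 / s * ‖w - w'‖ := by
    apply (convex_ball w₀ s).norm_image_sub_le_of_norm_deriv_le (𝕜 := ℂ) _ hder hw' hw
    intro u hu
    exact hd.differentiableAt (isOpen_ball.mem_nhds (hsub2 hu))
  have hn : ∀ u ∈ ball w₀ s, ‖u‖ ≤ 2 := by
    intro u hu
    rw [mem_ball, dist_eq_norm] at hu
    have := norm_add_le (u - w₀) w₀
    rw [sub_add_cancel] at this
    linarith
  rw [(hval w (hsub2 hw)).1, (hval w' (hsub2 hw')).1]
  calc dist (kap b' (h w)) (kap b' (h w')) ≤ 5 * ‖h w - h w'‖ := dist_kap_le _ _ _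
    _ ≤ 5 * (2 / s * (15 * dist (kap b w) (kap b w'))) := by
        gcongr
        refine hmv.trans ?_
        gcongr
        exact kap_dist (hn w hw) (hn w' hw')
    _ = 5 * (2 / s) * 15 * dist (kap b w) (kap b w') := by ring

/-- **Uniform Lipschitz constants over compact spaces.** -/
theorem lip_unif {X : Type} [TopologicalSpace X] [CompactSpace X] {f : X → Sp → Sp}
    (hf : Continuous fun p : X × Sp => f p.1 p.2) (hh : ∀ x, HolMap (f x)) :
    ∃ Λ : ℝ, 1 ≤ Λ ∧ ∀ x z z', dist (f x z) (f x z') ≤ Λ * dist z z' := by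
  classical
  set G : Sp → C(X, Sp) := fun z => ⟨fun x => f x z, hf.comp (continuous_id.prodMk
    continuous_const)⟩ with hG
  obtain ⟨L, hL1, hL⟩ := lip_compact (f := G) (fun z₀ => by
    choose W hW U hU K hK0 hK using fun x₀ => lip_loc hf hh x₀ z₀
    obtain ⟨t, ht⟩ := isCompact_univ.elim_nhds_subcover W fun x _ => hW x
    obtain ⟨K', hK'⟩ := (t.image K).exists_le
    refine ⟨max K' 0, ⋂ x ∈ t, U x, (Filter.biInter_finset_mem t).2 fun x _ => hU x, ?_⟩
    intro y hy z hz
    rw [ContinuousMap.dist_le (by positivity)]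
    intro x
    obtain ⟨x₀, hx₀, hxW⟩ := mem_iUnion₂.1 (ht.2 (mem_univ x))
    have h1 := hK x₀ x hxW y (mem_iInter₂.1 hy x₀ hx₀) z (mem_iInter₂.1 hz x₀ hx₀)
    refine h1.trans ?_
    gcongr
    exact (hK' _ (Finset.mem_image_of_mem _ hx₀)).trans (le_max_left _ _))
  refine ⟨L, hL1, fun x z z' => ?_⟩
  exact (ContinuousMap.dist_apply_le_dist (f := G z) (g := G z') x).trans (hL z z')

end Pool.Agent.Y334.SR
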