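import Mathlib
import Pool.Agent.Y334.SR.Core
import Pool.Agent.Y334.SR.Shad
import Pool.Agent.Y334.FS.Cyc
import Pool.Agent.Y334.RM.Fin

/-! Structural stability implies that the perturbed critical orbits omit balls; cycles of maps; one
map. -/

set_option autoImplicit false

open Set Filter Topology Metric
open scoped OnePoint
open Pool.Agent.Helper114.Herman
open Pool.Agent.Y334.RM
open Pool.Agent.Y334.FS

namespace Pool.Agent.Y334.SR

attribute [local instance] sphMet

open Polynomial in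
theorem crit_card {f : Sp → Sp} {P Q : ℂ[X]} (hf : IsRat f P Q)
    (hd : 2 ≤ max P.natDegree Q.natDegree) {d : ℕ} (hdd : max P.natDegree Q.natDegree ≤ d) :
    ∃ S : Finset Sp, S.card ≤ 2 * d + 1 ∧ ∀ c, ¬ LI f c → c ∈ S := by
  classical
  have hd0 : 0 < max P.natDegree Q.natDegree := by omega
  obtain ⟨C₀, hC₀⟩ := (good_rat hf hd).crit
  have hw : wron P Q ≠ 0 := by
    intro h
    have h1 : ∀ z : ℂ, (z : Sp) ∈ C₀ := by
      intro z
      by_contra hz
      exact (li_rat hf hd0 z).1 (hC₀ _ hz) (by rw [h, eval_zero])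
    have h2 : (univ : Set ℂ).Finite := by
      refine (C₀.finite_toSet.preimage (OnePoint.coe_injective (X := ℂ)).injOn).subset ?_
      intro z _
      exact h1 z
    exact Set.infinite_univ h2
  refine ⟨insert ∞ ((wron P Q).roots.toFinset.image fun z : ℂ => (z : Sp)), ?_, ?_⟩
  · refine (Finset.card_insert_le _ _).trans ?_
    have h1 : ((wron P Q).roots.toFinset.image fun z : ℂ => (z : Sp)).card ≤ 2 * d := by
      refine Finset.card_image_le.trans ?_
      refine (Multiset.toFinset_card_le _).trans ?_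
      refine (card_roots' _).trans ?_
      unfold wron
      refine (natDegree_sub_le _ _).trans (max_le ?_ ?_)
      · refine natDegree_mul_le.trans ?_
        have h2 := natDegree_derivative_le P
        have h3 := le_max_left P.natDegree Q.natDegree
        have h4 := le_max_right P.natDegree Q.natDegree
        omega
      · refine natDegree_mul_le.trans ?_
        have h2 := natDegree_derivative_le Q
        have h3 := le_max_left P.natDegree Q.natDegree
        have h4 := le_max_right P.natDegree Q.natDegree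
        omega
    omega
  · intro c hc
    induction c using OnePoint.rec with
    | infty => exact Finset.mem_insert_self _ _
    | coe z =>
      apply Finset.mem_insert_of_mem
      rw [Finset.mem_image]
      refine ⟨z, ?_, rfl⟩
      rw [Multiset.mem_toFinset, mem_roots hw]
      rw [li_rat hf hd0 z] at hc
      exact not_not.1 hc

theorem far_point (M : ℕ) : ∃ ρ : ℝ, 0 < ρ ∧ ∀ S : Finset Sp, S.card ≤ M →
    ∃ y : Sp, ∀ s ∈ S, 2 * ρ ≤ dist s y := by
  classical
  set y : ℕ → Sp := fun j => (((j : ℝ) : ℂ) : Sp) with hy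
  have hinj : ∀ i j : ℕ, y i = y j → i = j := by
    intro i j h
    have h1 : ((i : ℝ) : ℂ) = ((j : ℝ) : ℂ) := OnePoint.coe_injective h
    exact_mod_cast h1
  obtain ⟨ρ, hρ, h⟩ := exists_pos_lb ((Finset.range (M + 1)).offDiag)
    (fun p => dist (y p.1) (y p.2) / 4) (fun p hp => by
      have h1 := (Finset.mem_offDiag.1 hp).2.2
      have h2 : y p.1 ≠ y p.2 := fun h => h1 (hinj _ _ h)
      have := dist_pos.2 h2
      positivity)
  refine ⟨ρ, hρ, fun S hS => ?_⟩
  by_contra hcon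
  push Not at hcon
  choose s hsS hs using fun j : ℕ => hcon (y j)
  obtain ⟨i, hi, j, hj, hij, he⟩ := Finset.exists_ne_map_eq_of_card_lt_of_maps_to
    (s := Finset.range (M + 1)) (t := S) (by rw [Finset.card_range]; omega) (f := s)
    (fun j _ => hsS j)
  have h1 := h (i, j) (Finset.mem_offDiag.2 ⟨hi, hj, hij⟩)
  have h2 := hs i
  have h3 := hs j
  rw [← he] at h3
  have h4 := dist_triangle_left (y i) (y j) (s i)
  simp only at h1
  linarith

/-- Structural stability: all small perturbations are conjugate to the family by fibre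
homeomorphisms which are close to the identity. -/
def SS {X : Type} [TopologicalSpace X] (T : X → X) (f : X → Sp → Sp) : Prop :=
  ∀ η : ℝ, 0 < η → ∃ δ : ℝ, 0 < δ ∧ ∀ β γ : X → ℂ, Continuous β → Continuous γ →
    (∀ x, ‖β x‖ < δ ∧ ‖γ x‖ < δ) → ∃ h : X → (Sp ≃ₜ Sp), (∀ x z, dist (h x z) z < η) ∧
      ∀ x z, h (T x) (f x z) = pf f β γ x (h x z)

theorem mb_inj (β γ : ℂ) : Function.Injective (mb β γ) := by
  intro a b h
  have h1 := Mx.inj (M := un false β) (by rw [un_det]; exact one_ne_zero) h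
  exact Mx.inj (M := un true γ) (by rw [un_det]; exact one_ne_zero) h1

theorem om_of_ss {X : Type} [TopologicalSpace X] {T : X → X} {f : X → Sp → Sp} {M : ℕ}
    (hM : ∀ x, ∃ S : Finset Sp, S.card ≤ M ∧ ∀ c, ¬ LI (f x) c → c ∈ S) (hss : SS T f) :
    ∃ δ : ℝ, 0 < δ ∧ ∃ r : ℝ, 0 < r ∧ ∀ N, Om T f δ r N := by
  classical
  obtain ⟨ρ, hρ, hfar⟩ := far_point M
  obtain ⟨δ, hδ, h⟩ := hss ρ hρ
  refine ⟨δ, hδ, ρ, hρ, ?_⟩
  intro N x c' hc' k hk1 hkN
  obtain ⟨S, hS1, hS2⟩ := hM x
  obtain ⟨y, hy⟩ := hfar (S.image (fb T f k x)) (Finset.card_image_le.trans hS1)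
  refine ⟨y, fun β γ hβ hγ hs => ?_⟩
  obtain ⟨H, hH1, hH2⟩ := h β γ hβ hγ hs
  have hit : ∀ k z, fb T (pf f β γ) k x (H x z) = H (T^[k] x) (fb T f k x z) := by
    intro k z
    induction k with
    | zero => rfl
    | succ k ih =>
      rw [fb_succ, ih, ← hH2, fb_succ, Function.iterate_succ_apply']
  -- the corresponding critical point
  set c := (H x).symm c' with hc
  have hcc : H x c = c' := (H x).apply_symm_apply c'
  have hcrit : ¬ LI (f x) c := by
    rintro ⟨U, hU, hi⟩
    apply hc'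
    refine ⟨(H x) '' U, ?_, ?_⟩
    · rw [← hcc, ← (H x).map_nhds_eq c]
      exact image_mem_map hU
    · rintro _ ⟨u, hu, rfl⟩ _ ⟨v, hv, rfl⟩ huv
      have h1 : pf f β γ x (H x u) = pf f β γ x (H x v) := by
        show mb (β x) (γ x) (f x (H x u)) = mb (β x) (γ x) (f x (H x v))
        rw [huv]
      rw [← hH2, ← hH2] at h1
      rw [hi hu hv ((H (T x)).injective h1)]
  have h1 := hit k c
  rw [hcc] at h1
  rw [h1]
  have h2 := hy (fb T f k x c) (Finset.mem_image_of_mem _ (hS2 c hcrit))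
  have h3 := hH1 (T^[k] x) (fb T f k x c)
  have h4 := dist_triangle_left (fb T f k x c) y (H (T^[k] x) (fb T f k x c))
  linarith

theorem om_of_follow {X : Type} [TopologicalSpace X] {T : X → X} {f : X → Sp → Sp} {δ : ℝ}
    (hδ : 0 < δ) (h : ∀ g : X → Sp → Sp, (∀ x z, dist (g x z) (f x z) < δ) →
      ∀ x c, ¬ LI (f x) c → ∀ k : ℕ, dist (fb T g k x c) (fb T f k x c) < 1 / 4) (N : ℕ) :
    Om T f (min (δ / 40) (1 / 4)) (3 / 4) N := by
  set δ' : ℝ := min (δ / 40) (1 / 4) with hδ'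
  have hδ'0 : 0 < δ' := by positivity
  have h1 : δ' ≤ δ / 40 := min_le_left _ _
  have h2 : δ' ≤ 1 / 4 := min_le_right _ _
  intro x c hc k hk1 hkN
  have h0 : 2 ≤ dist (((0 : ℂ) : Sp)) ∞ := by
    have := dist_ge_snd ((0 : ℂ) : Sp) ∞
    rw [snd_zero, snd_infty] at this
    norm_num at this
    exact this
  have h3 : ∀ β γ : X → ℂ, Continuous β → Continuous γ → (∀ x, ‖β x‖ < δ' ∧ ‖γ x‖ < δ') →
      dist (fb T (pf f β γ) k x c) (fb T f k x c) < 1 / 4 := by
    intro β γ _ _ hs
    apply h _ _ x c hc k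
    intro x z
    have h4 : dist (mb (β x) (γ x) (f x z)) (f x z) ≤ 20 * δ' :=
      mb_disp h2 (hs x).1 (hs x).2 _
    show dist (mb (β x) (γ x) (f x z)) (f x z) < δ
    linarith
  by_cases h5 : 1 ≤ dist (fb T f k x c) ((0 : ℂ) : Sp)
  · refine ⟨((0 : ℂ) : Sp), fun β γ hβ hγ hs => ?_⟩
    have h6 := h3 β γ hβ hγ hs
    have h7 := dist_triangle_left (fb T f k x c) ((0 : ℂ) : Sp) (fb T (pf f β γ) k x c)
    linarith
  · push Not at h5
    refine ⟨∞, fun β γ hβ hγ hs => ?_⟩
    have h6 := h3 β γ hβ hγ hs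
    have h7 := dist_triangle_left (fb T f k x c) ∞ (fb T (pf f β γ) k x c)
    have h8 := dist_triangle_left ((0 : ℂ) : Sp) ∞ (fb T f k x c)
    linarith

theorem rot_it {n : ℕ} (k : ℕ) (x : ZMod n) : (fun i : ZMod n => i + 1)^[k] x = x + k := by
  induction k with
  | zero => simp
  | succ k ih =>
    rw [Function.iterate_succ_apply', ih]
    show x + k + 1 = _
    push_cast
    ring

theorem rot_aper {n : ℕ} (x : ZMod n) (k : ℕ) (hk1 : 1 ≤ k) (hkn : k < n) :
    (fun i : ZMod n => i + 1)^[k] x ≠ x := by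
  rw [rot_it]
  intro h
  have h1 : (k : ZMod n) = 0 := by
    have h2 : x + (k : ZMod n) = x + 0 := by rw [h, add_zero]
    exact add_left_cancel h2
  rw [ZMod.natCast_eq_zero_iff] at h1
  have := Nat.le_of_dvd (by omega) h1
  omega

/-- return maps of cycles -/
theorem ret_hypT {n : ℕ} (hn : 1 ≤ n) {f : ZMod n → Sp → Sp} (hf : ∀ i, Continuous (f i))
    {r C lam : ℝ} (hr : 0 < r) (hC : 0 ≤ C) (hl0 : 0 < lam) (hl1 : lam < 1)
    (hyp : HypF (fun i : ZMod n => i + 1) f r C lam) (i : ZMod n) :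
    Sys.HypT (fb (fun i : ZMod n => i + 1) f n i) :=
  hypT_of_cyc hr hC hl0 hl1 hyp hf hn (by rw [rot_it, ZMod.natCast_self, add_zero])

theorem fb_const {X : Type} (T : X → X) (F : Sp → Sp) (k : ℕ) (x : X) (z : Sp) :
    fb T (fun _ => F) k x z = F^[k] z := by
  induction k with
  | zero => rfl
  | succ k ih => rw [fb_succ, ih, Function.iterate_succ_apply']

/-- one map as a cycle of length `n` -/
theorem hyp_one {n : ℕ} {F : Sp → Sp} {r C lam : ℝ}
    (hyp : HypF (fun i : ZMod n => i + 1) (fun _ => F) r C lam) :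
    HypF (id : Unit → Unit) (fun _ => F) r C lam := by
  intro p hp
  have hcont : Continuous fun q : Unit × Sp => ((0 : ZMod n), q.2) :=
    continuous_const.prodMk continuous_snd
  have h1 : ((0 : ZMod n), p.2) ∈ closure (PC (fun i : ZMod n => i + 1) (fun _ => F)) := by
    have h3 := image_closure_subset_closure_image hcont (Set.mem_image_of_mem _ hp)
    refine closure_mono ?_ h3
    rintro _ ⟨q, ⟨y, c, k, hk, hc, rfl⟩, rfl⟩
    refine ⟨-(k : ZMod n), c, k, hk, hc, ?_⟩
    rw [rot_it, neg_add_cancel, fb_const, fb_const]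
  obtain ⟨W, hW, h2⟩ := hyp _ h1
  refine ⟨univ, univ_mem, fun x _ z z' hz hz' k => ?_⟩
  have h3 := h2 0 (mem_of_mem_nhds hW) z z' hz hz' k
  rwa [fb_const, fb_const] at h3 ⊢

theorem hyp_const {X : Type} [TopologicalSpace X] (T : X → X) {F : Sp → Sp} {r C lam : ℝ}
    (hyp : HypF (id : Unit → Unit) (fun _ => F) r C lam) : HypF T (fun _ => F) r C lam := by
  intro p hp
  have hcont : Continuous fun q : X × Sp => ((), q.2) :=
    continuous_const.prodMk continuous_snd
  have h1 : ((), p.2) ∈ closure (PC (id : Unit → Unit) (fun _ => F)) := by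
    have h3 := image_closure_subset_closure_image hcont (Set.mem_image_of_mem _ hp)
    refine closure_mono ?_ h3
    rintro _ ⟨q, ⟨y, c, k, hk, hc, rfl⟩, rfl⟩
    refine ⟨(), c, k, hk, hc, ?_⟩
    rw [fb_const, fb_const]
  obtain ⟨W, hW, h2⟩ := hyp _ h1
  refine ⟨univ, univ_mem, fun x _ z z' hz hz' k => ?_⟩
  have h3 := h2 () (mem_of_mem_nhds hW) z z' hz hz' k
  rwa [fb_const, fb_const] at h3 ⊢

theorem hyp_mono {X : Type} [TopologicalSpace X] {T : X → X} {f : X → Sp → Sp} {r C C' lam : ℝ}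
    (hl : 0 < lam) (hC : C ≤ C') (hyp : HypF T f r C lam) : HypF T f r C' lam := by
  intro p hp
  obtain ⟨W, hW, h2⟩ := hyp p hp
  refine ⟨W, hW, fun x hx z z' hz hz' k => (h2 x hx z z' hz hz' k).trans ?_⟩
  gcongr

theorem un_f (β : ℂ) : un false β = ⟨1, β, 0, 1⟩ := by simp [un]

theorem un_t (γ : ℂ) : un true γ = ⟨1, 0, γ, 1⟩ := by simp [un]

theorem mb_infty (β γ : ℂ) : mb β γ ∞ = if γ = 0 then ∞ else ((1 / γ + β : ℂ) : Sp) := by
  unfold mb
  rw [un_t, un_f, Mx.act_infty]
  show (⟨1, β, 0, 1⟩ : Mx).act (pr 1 γ) = _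
  rw [Mx.act_pr _ (Or.inl one_ne_zero)]
  show pr (1 * 1 + β * γ) (0 * 1 + 1 * γ) = _
  rw [mul_one, zero_mul, zero_add, one_mul]
  unfold pr
  split_ifs with h
  · rfl
  · congr 1
    field_simp

theorem mb_coe (β γ z : ℂ) : mb β γ (z : Sp) =
    if 1 + γ * z = 0 then ∞ else ((z / (1 + γ * z) + β : ℂ) : Sp) := by
  unfold mb
  rw [un_t, un_f, Mx.act_coe]
  have hne : z ≠ 0 ∨ 1 + γ * z ≠ 0 := by
    by_cases hz : z = 0
    · right
      rw [hz]
      simp
    · exact Or.inl hz
  show (⟨1, β, 0, 1⟩ : Mx).act (pr (1 * z + 0) (γ * z + 1)) = _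
  rw [show (1 : ℂ) * z + 0 = z by ring, show γ * z + 1 = 1 + γ * z by ring, Mx.act_pr _ hne]
  show pr (1 * z + β * (1 + γ * z)) (0 * z + 1 * (1 + γ * z)) = _
  rw [one_mul, zero_mul, zero_add, one_mul]
  unfold pr
  split_ifs with h
  · rfl
  · rw [add_div, mul_div_assoc, div_self h, mul_one]

end Pool.Agent.Y334.SR
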