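import Mathlib
import Pool.Agent.Y334.SR.Str

/-! One rational map: all critical orbits converge to sinks if and only if the map is uniformly
contracting near the closure of the post-critical set. -/

set_option autoImplicit false

open Set Filter Topology Metric
open scoped OnePoint
open Pool.Agent.Helper114.Herman
open Pool.Agent.Y334.RM
open Pool.Agent.Y334.FS

namespace Pool.Agent.Y334.SR

attribute [local instance] sphMet

/-- all critical orbits converge to sinks -/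
def SinkH (F : Sp → Sp) : Prop :=
  ∀ c, ¬ LI F c → ∃ (z : Sp) (n : ℕ) (lam : ℝ), 0 < n ∧ lam < 1 ∧ F^[n] z = z ∧
    (∃ U ∈ 𝓝 z, ∀ w ∈ U, ∀ w' ∈ U, dist (F^[n] w) (F^[n] w') ≤ lam * dist w w') ∧
    Tendsto (fun k : ℕ => F^[n * k] c) atTop (𝓝 z)

theorem sink_of_hyp {F : Sp → Sp} (hF : Continuous F) {r C lam : ℝ} (hr : 0 < r) (hl0 : 0 < lam)
    (hl1 : lam < 1) (hyp : HypF (id : Unit → Unit) (fun _ => F) r C lam) : SinkH F := by
  intro c hc
  set C' : ℝ := max C 1 with hC'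
  have hC1 : 1 ≤ C' := le_max_right _ _
  have hyp' := hyp_mono hl0 (le_max_left C 1) hyp
  rw [← hC'] at hyp'
  -- contraction near the closure
  have hcon : ∀ p : Sp, ((), p) ∈ closure (PC (id : Unit → Unit) (fun _ => F)) →
      ∀ z z' : Sp, dist z p < r → dist z' p < r → ∀ k : ℕ,
      dist (F^[k] z) (F^[k] z') ≤ C' * lam ^ k * dist z z' := by
    intro p hp z z' hz hz' k
    obtain ⟨W, hW, h⟩ := hyp' _ hp
    have h1 := h () (mem_of_mem_nhds hW) z z' hz hz' k
    rwa [fb_const, fb_const] at h1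
  have hpc : ∀ k : ℕ, 1 ≤ k → ((), F^[k] c) ∈ PC (id : Unit → Unit) (fun _ => F) := by
    intro k hk
    exact ⟨(), c, k, hk, hc, by rw [fb_const]⟩
  obtain ⟨q₀, hq₀⟩ := exists_pow_lt_of_lt_one (show (0 : ℝ) < 1 / (4 * C') by positivity) hl1
  obtain ⟨q, hq⟩ : ∃ q, q = q₀ + 1 := ⟨_, rfl⟩
  have hCq : ∀ k ≥ q, C' * lam ^ k ≤ 1 / 4 := by
    intro k hk
    have h1 : lam ^ k ≤ 1 / (4 * C') :=
      (pow_le_pow_of_le_one hl0.le hl1.le (by omega : q₀ ≤ k)).trans hq₀.le
    calc C' * lam ^ k ≤ C' * (1 / (4 * C')) := by gcongr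
      _ = 1 / 4 := by field_simp
  -- two close times
  obtain ⟨a, φ, hφ, ha⟩ := CompactSpace.tendsto_subseq fun k : ℕ => F^[q * (k + 1)] c
  obtain ⟨N₁, hN₁⟩ := Metric.cauchySeq_iff'.1 ha.cauchySeq (r / 8) (by positivity)
  have h1 : dist (F^[q * (φ (N₁ + 1) + 1)] c) (F^[q * (φ N₁ + 1)] c) < r / 8 :=
    hN₁ (N₁ + 1) (Nat.le_succ N₁)
  obtain ⟨i, hi⟩ : ∃ i, i = φ N₁ := ⟨_, rfl⟩
  have hij : φ N₁ < φ (N₁ + 1) := hφ (Nat.lt_succ_self N₁)
  obtain ⟨m, hm, hm1⟩ : ∃ m, φ (N₁ + 1) = m + i ∧ 1 ≤ m :=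
    ⟨φ (N₁ + 1) - i, by omega, by omega⟩
  rw [hm, ← hi, show q * (m + i + 1) = q * m + q * (i + 1) by ring,
    Function.iterate_add_apply] at h1
  obtain ⟨N, hN⟩ : ∃ N, N = q * m := ⟨_, rfl⟩
  rw [← hN] at h1
  have hqN : q ≤ N := by
    rw [hN]
    exact Nat.le_mul_of_pos_right _ (by omega)
  have hN1 : 1 ≤ N := by omega
  set u := F^[q * (i + 1)] c with hu
  have hq1 : 1 ≤ q * (i + 1) := Nat.one_le_iff_ne_zero.2 (by
    rw [hq]
    positivity)
  have hup := subset_closure (hpc _ hq1)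
  rw [← hu] at hup
  have hHc : ∀ z z' : Sp, dist z u < r → dist z' u < r →
      dist (F^[N] z) (F^[N] z') ≤ 1 / 4 * dist z z' := by
    intro z z' hz hz'
    refine (hcon u hup z z' hz hz' N).trans ?_
    exact mul_le_mul_of_nonneg_right (hCq N hqN) dist_nonneg
  have hin : ∀ s : ℕ, dist ((F^[N])^[s] u) u ≤ r / 2 := by
    intro s
    induction s with
    | zero => simp only [Function.iterate_zero, id, dist_self]; positivity
    | succ s ih =>
      rw [Function.iterate_succ_apply']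
      have h2 := hHc ((F^[N])^[s] u) u (by linarith) (by rw [dist_self]; exact hr)
      have h3 := dist_triangle (F^[N] ((F^[N])^[s] u)) (F^[N] u) u
      linarith
  have hgeo : ∀ s : ℕ, dist ((F^[N])^[s] u) ((F^[N])^[s + 1] u) ≤ r / 8 * (1 / 4) ^ s := by
    intro s
    induction s with
    | zero =>
      rw [pow_zero, mul_one]
      simp only [Function.iterate_zero, id, zero_add, Function.iterate_one]
      rw [dist_comm]
      exact h1.le
    | succ s ih =>
      rw [Function.iterate_succ_apply' (F^[N]) s u, Function.iterate_succ_apply' (F^[N]) (s + 1) u]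
      have h2 := hHc ((F^[N])^[s] u) ((F^[N])^[s + 1] u) (by linarith [hin s])
        (by linarith [hin (s + 1)])
      rw [pow_succ]
      linarith
  obtain ⟨z, hz⟩ := cauchySeq_tendsto_of_complete (cauchySeq_of_le_geometric (1 / 4) (r / 8)
    (by norm_num) hgeo)
  have hFz : F^[N] z = z := by
    have h2 : Tendsto (fun s : ℕ => (F^[N])^[s + 1] u) atTop (𝓝 (F^[N] z)) := by
      have h3 := ((hF.iterate N).tendsto z).comp hz
      refine h3.congr fun s => ?_
      rw [Function.iterate_succ_apply']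
      rfl
    exact tendsto_nhds_unique h2 ((tendsto_add_atTop_iff_nat 1).2 hz)
  -- the phase
  obtain ⟨t, ht⟩ : ∃ t, t + q * (i + 1) = N * (i + 1) :=
    ⟨N * (i + 1) - q * (i + 1), Nat.sub_add_cancel (Nat.mul_le_mul_right _ hqN)⟩
  have hlim : Tendsto (fun k : ℕ => F^[N * k] c) atTop (𝓝 (F^[t] z)) := by
    rw [← tendsto_add_atTop_iff_nat (i + 1)]
    refine (((hF.iterate t).tendsto z).comp hz).congr fun s => ?_
    show F^[t] ((F^[N])^[s] u) = F^[N * (s + (i + 1))] c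
    rw [← Function.iterate_mul, hu, ← Function.iterate_add_apply, ← Function.iterate_add_apply]
    congr 1
    have : t + N * s + q * (i + 1) = N * s + (t + q * (i + 1)) := by ring
    rw [this, ht]
    ring
  have hcl : ((), F^[t] z) ∈ closure (PC (id : Unit → Unit) (fun _ => F)) := by
    have h2 : Tendsto (fun k : ℕ => ((), F^[N * (k + 1)] c)) atTop (𝓝 ((), F^[t] z)) := by
      have h3 := (tendsto_add_atTop_iff_nat 1).2 hlim
      exact tendsto_const_nhds.prodMk_nhds h3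
    refine mem_closure_of_tendsto h2 (Eventually.of_forall fun k => ?_)
    exact hpc _ (Nat.one_le_iff_ne_zero.2 (by positivity))
  refine ⟨F^[t] z, N, 1 / 4, hN1, by norm_num, ?_, ⟨ball (F^[t] z) r, ball_mem_nhds _ hr, ?_⟩, hlim⟩
  · rw [← Function.iterate_add_apply, Nat.add_comm, Function.iterate_add_apply, hFz]
  · intro w hw w' hw'
    refine (hcon _ hcl w w' hw hw' N).trans ?_
    exact mul_le_mul_of_nonneg_right (hCq N hqN) dist_nonneg

/-- pseudo-orbits -/
theorem pseudo {F : Sp → Sp} {Λ δ : ℝ} (hΛ : 1 ≤ Λ) (hδ : 0 ≤ δ)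
    (hlip : ∀ x y, dist (F x) (F y) ≤ Λ * dist x y) {w : ℕ → Sp}
    (hw : ∀ k, dist (w (k + 1)) (F (w k)) ≤ δ) (j k : ℕ) (y : Sp) :
    dist (w (j + k)) (F^[k] y) ≤ Λ ^ k * dist (w j) y + k * Λ ^ k * δ := by
  induction k with
  | zero => simp
  | succ k ih =>
    rw [Function.iterate_succ_apply', ← Nat.add_assoc]
    have h1 := dist_triangle (w (j + k + 1)) (F (w (j + k))) (F (F^[k] y))
    have h2 := hw (j + k)
    have h3 := hlip (w (j + k)) (F^[k] y)
    have h4 : Λ * dist (w (j + k)) (F^[k] y) ≤ Λ * (Λ ^ k * dist (w j) y + k * Λ ^ k * δ) := by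
      gcongr
    have h5 : δ ≤ Λ ^ (k + 1) * δ := le_mul_of_one_le_left hδ (one_le_pow₀ hΛ)
    push_cast
    have h6 : Λ * (Λ ^ k * dist (w j) y + k * Λ ^ k * δ) + Λ ^ (k + 1) * δ =
        Λ ^ (k + 1) * dist (w j) y + (k + 1) * Λ ^ (k + 1) * δ := by ring
    linarith

theorem center_of_sink {F : Sp → Sp} {Λ : ℝ} (hΛ : 1 ≤ Λ)
    (hlip : ∀ x y, dist (F x) (F y) ≤ Λ * dist x y) {c z : Sp} {n : ℕ} {lam : ℝ} (hn : 0 < n)
    (hl1 : lam < 1) (hz : F^[n] z = z)
    (hU : ∃ U ∈ 𝓝 z, ∀ w ∈ U, ∀ w' ∈ U, dist (F^[n] w) (F^[n] w') ≤ lam * dist w w')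
    (hlim : Tendsto (fun k : ℕ => F^[n * k] c) atTop (𝓝 z)) :
    ∃ δ : ℝ, 0 < δ ∧ ∃ p : ℕ → Sp, ∀ w : ℕ → Sp, w 0 = c →
      (∀ k, dist (w (k + 1)) (F (w k)) ≤ δ) → ∀ k, dist (w k) (p k) < 1 / 4 := by
  obtain ⟨U, hU, hcon⟩ := hU
  obtain ⟨ρ₁, hρ₁, hball⟩ := Metric.mem_nhds_iff.1 hU
  set L : ℝ := Λ ^ n with hL
  have hL1 : 1 ≤ L := one_le_pow₀ hΛ
  set ρ : ℝ := min (ρ₁ / 2) (1 / (16 * L)) with hρ
  have hρ0 : 0 < ρ := by positivity
  have hρ₁' : ρ < ρ₁ := lt_of_le_of_lt (min_le_left _ _) (by linarith)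
  have hρL : L * ρ ≤ 1 / 16 := by
    calc L * ρ ≤ L * (1 / (16 * L)) := by
          gcongr
          exact min_le_right _ _
      _ = 1 / 16 := by field_simp
  have hρ16 : ρ ≤ 1 / 16 := by nlinarith
  obtain ⟨k₀, hk₀⟩ := (hlim.eventually (ball_mem_nhds z (by positivity : 0 < ρ / 2))).exists
  obtain ⟨M, hM⟩ : ∃ M, M = n * k₀ := ⟨_, rfl⟩
  rw [← hM] at hk₀
  set D : ℝ := (M + n) * Λ ^ (M + n) with hD
  have hD0 : 0 < D := by
    have : (0 : ℝ) < n := by exact_mod_cast hn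
    positivity
  have hl' : 0 < 1 - max lam 0 := by
    have : max lam 0 < 1 := max_lt hl1 one_pos
    linarith
  set δ : ℝ := ρ * (1 - max lam 0) / (4 * D) with hδ
  have hδ0 : 0 < δ := by positivity
  have hDδ : D * δ = ρ * (1 - max lam 0) / 4 := by
    rw [hδ]
    field_simp
  have hDδ1 : D * δ ≤ ρ / 4 := by
    rw [hDδ]
    have : max lam 0 ≥ 0 := le_max_right _ _
    nlinarith
  have hkD : ∀ k ≤ M + n, (k : ℝ) * Λ ^ k * δ ≤ D * δ := by
    intro k hk
    have h1 : (k : ℝ) ≤ M + n := by exact_mod_cast hk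
    have h2 : Λ ^ k ≤ Λ ^ (M + n) := pow_le_pow_right₀ hΛ hk
    rw [hD]
    gcongr
  refine ⟨δ, hδ0, fun k => if k ≤ M then F^[k] c else F^[(k - M) % n] z, ?_⟩
  intro w hw0 hw k
  -- the blocks
  have hfirst : ∀ k ≤ M, dist (w k) (F^[k] c) ≤ ρ / 4 := by
    intro k hk
    have h1 := pseudo hΛ hδ0.le hlip hw 0 k c
    rw [Nat.zero_add, hw0, dist_self, mul_zero, zero_add] at h1
    exact h1.trans ((hkD k (by omega)).trans hDδ1)
  have hblock : ∀ s : ℕ, dist (w (M + n * s)) z < ρ := by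
    intro s
    induction s with
    | zero =>
      rw [mul_zero, add_zero]
      have h1 := hfirst M le_rfl
      have h2 := dist_triangle (w M) (F^[M] c) z
      have h3 : dist (F^[M] c) z < ρ / 2 := hk₀
      linarith
    | succ s ih =>
      rw [Nat.mul_succ, ← Nat.add_assoc]
      have h1 := pseudo hΛ hδ0.le hlip hw (M + n * s) n (w (M + n * s))
      rw [dist_self, mul_zero, zero_add] at h1
      have h2 := hkD n (by omega)
      have h3 : dist (F^[n] (w (M + n * s))) z ≤ max lam 0 * ρ := by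
        conv_lhs => rw [← hz]
        refine (hcon _ (hball ?_) _ (hball (mem_ball_self hρ₁))).trans ?_
        · rw [mem_ball]; linarith
        · have h4 := dist_nonneg (x := w (M + n * s)) (y := z)
          have h5 : lam * dist (w (M + n * s)) z ≤ max lam 0 * dist (w (M + n * s)) z := by
            gcongr
            exact le_max_left _ _
          have h6 : max lam 0 * dist (w (M + n * s)) z ≤ max lam 0 * ρ := by
            gcongr
          linarith
      have h7 := dist_triangle (w (M + n * s + n)) (F^[n] (w (M + n * s))) z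
      have h8 : ρ * (1 - max lam 0) > 0 := by positivity
      nlinarith
  by_cases hk : k ≤ M
  · simp only [if_pos hk]
    have := hfirst k hk
    linarith
  · simp only [if_neg hk]
    obtain ⟨s, i, hi, hki⟩ : ∃ s i, i < n ∧ k - M = n * s + i :=
      ⟨(k - M) / n, (k - M) % n, Nat.mod_lt _ hn, (Nat.div_add_mod _ _).symm⟩
    have hmod : (k - M) % n = i := by
      rw [hki, Nat.mul_add_mod, Nat.mod_eq_of_lt hi]
    have hke : k = M + n * s + i := by omega
    rw [hmod, hke]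
    have h1 := pseudo hΛ hδ0.le hlip hw (M + n * s) i z
    have h2 := hkD i (by omega)
    have h3 : Λ ^ i * dist (w (M + n * s)) z ≤ L * ρ := by
      have h4 : Λ ^ i ≤ L := pow_le_pow_right₀ hΛ hi.le
      have h5 := (hblock s).le
      gcongr
    linarith

/-- **Maps all of whose critical orbits converge to sinks are stable.** -/
theorem om_of_sink {F : Sp → Sp} (hG : Good F) {Λ : ℝ} (hΛ : 1 ≤ Λ)
    (hlip : ∀ x y, dist (F x) (F y) ≤ Λ * dist x y) (hs : SinkH F) :
    ∃ δ : ℝ, 0 < δ ∧ ∀ (X : Type) [TopologicalSpace X] (T : X → X) (N : ℕ),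
      Om T (fun _ => F) δ (3 / 4) N := by
  classical
  obtain ⟨C₀, hC₀⟩ := hG.crit
  have h1 : ∀ c : Sp, ∃ δ : ℝ, 0 < δ ∧ (¬ LI F c → ∃ p : ℕ → Sp, ∀ w : ℕ → Sp, w 0 = c →
      (∀ k, dist (w (k + 1)) (F (w k)) ≤ δ) → ∀ k, dist (w k) (p k) < 1 / 4) := by
    intro c
    by_cases hc : LI F c
    · exact ⟨1, one_pos, fun h => absurd hc h⟩
    · obtain ⟨z, n, lam, hn, hl, hz, hU, hlim⟩ := hs c hc
      obtain ⟨δ, hδ, h⟩ := center_of_sink hΛ hlip hn hl hz hU hlim
      exact ⟨δ, hδ, fun _ => h⟩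
  choose δ hδ h1 using h1
  obtain ⟨δ₀, hδ₀, hmin⟩ := exists_pos_lb C₀ δ fun c _ => hδ c
  set δ' : ℝ := min (δ₀ / 20) (1 / 4) with hδ'
  have hδ'0 : 0 < δ' := by positivity
  have e1 : δ' ≤ δ₀ / 20 := min_le_left _ _
  have e2 : δ' ≤ 1 / 4 := min_le_right _ _
  refine ⟨δ', hδ'0, ?_⟩
  intro X _ T N x c hc k hk1 hkN
  have hcC : c ∈ C₀ := by
    by_contra h
    exact hc (hC₀ c h)
  obtain ⟨p, hp⟩ := h1 c hc
  have h0 : 2 ≤ dist (((0 : ℂ) : Sp)) ∞ := by
    have := dist_ge_snd ((0 : ℂ) : Sp) ∞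
    rw [snd_zero, snd_infty] at this
    norm_num at this
    exact this
  have h3 : ∀ β γ : X → ℂ, Continuous β → Continuous γ → (∀ x, ‖β x‖ < δ' ∧ ‖γ x‖ < δ') →
      dist (fb T (pf (fun _ => F) β γ) k x c) (p k) < 1 / 4 := by
    intro β γ _ _ hs
    apply hp (fun k => fb T (pf (fun _ => F) β γ) k x c) rfl
    intro j
    rw [fb_succ]
    have h4 : dist (mb (β (T^[j] x)) (γ (T^[j] x)) (F (fb T (pf (fun _ => F) β γ) j x c)))
        (F (fb T (pf (fun _ => F) β γ) j x c)) ≤ 20 * δ' :=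
      mb_disp e2 (hs _).1 (hs _).2 _
    have h5 := hmin c hcC
    show dist (mb (β (T^[j] x)) (γ (T^[j] x)) (F (fb T (pf (fun _ => F) β γ) j x c)))
        (F (fb T (pf (fun _ => F) β γ) j x c)) ≤ δ c
    linarith
  by_cases h5 : 1 ≤ dist (p k) ((0 : ℂ) : Sp)
  · refine ⟨((0 : ℂ) : Sp), fun β γ hβ hγ hs => ?_⟩
    have h6 := h3 β γ hβ hγ hs
    have h7 := dist_triangle_left (p k) ((0 : ℂ) : Sp) (fb T (pf (fun _ => F) β γ) k x c)
    linarith
  · push Not at h5
    refine ⟨∞, fun β γ hβ hγ hs => ?_⟩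
    have h6 := h3 β γ hβ hγ hs
    have h7 := dist_triangle_left (p k) ∞ (fb T (pf (fun _ => F) β γ) k x c)
    have h8 := dist_triangle_left ((0 : ℂ) : Sp) ∞ (p k)
    linarith

/-- return maps of cycles are uniformly contracting near the closure of the post-critical set -/
theorem ret_hyp {n : ℕ} (hn : 1 ≤ n) {g : ZMod n → Sp → Sp} (hg : ∀ i, HolMap (g i))
    {r C lam : ℝ} (hyp : HypF (fun i : ZMod n => i + 1) g r C lam) (i : ZMod n) :
    HypF (id : Unit → Unit) (fun _ => fb (fun i : ZMod n => i + 1) g n i) r C (lam ^ n) := by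
  set T : ZMod n → ZMod n := fun i => i + 1 with hT
  set G : Sp → Sp := fb T g n i with hG
  have hTn : ∀ k : ℕ, T^[k * n] i = i := by
    intro k
    rw [hT, rot_it, Nat.cast_mul, ZMod.natCast_self, mul_zero, add_zero]
  have hit : ∀ (k : ℕ) (z : Sp), G^[k] z = fb T g (k * n) i z := by
    intro k z
    induction k with
    | zero => rw [Nat.zero_mul]; rfl
    | succ k ih =>
      rw [Function.iterate_succ_apply', ih, show (k + 1) * n = n + k * n by ring, fb_add, hTn]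
  intro p hp
  have hcont : Continuous fun q : Unit × Sp => (i, q.2) := continuous_const.prodMk continuous_snd
  have h1 : (i, p.2) ∈ closure (PC T g) := by
    have h3 := image_closure_subset_closure_image hcont (Set.mem_image_of_mem _ hp)
    refine closure_mono ?_ h3
    rintro _ ⟨q, ⟨y, c, k, hk, hc, rfl⟩, rfl⟩
    obtain ⟨j, hj, hli⟩ : ∃ j < n, ¬ LI (g (T^[j] i)) (fb T g j i c) := by
      by_contra hno
      push Not at hno
      exact hc (fb_li hg hno)
    have hkn : n ≤ k * n := Nat.le_mul_of_pos_left _ (by omega)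
    refine ⟨T^[j] i, fb T g j i c, k * n - j, by omega, hli, ?_⟩
    refine Prod.ext ?_ ?_
    · show i = T^[k * n - j] (T^[j] i)
      rw [← Function.iterate_add_apply, Nat.sub_add_cancel (by omega), hTn]
    · show fb (id : Unit → Unit) (fun _ => G) k y c =
        fb T g (k * n - j) (T^[j] i) (fb T g j i c)
      rw [← fb_add, Nat.sub_add_cancel (by omega), fb_const, hit]
  obtain ⟨W, hW, h2⟩ := hyp _ h1
  refine ⟨univ, univ_mem, fun x _ z z' hz hz' k => ?_⟩
  have h3 := h2 i (mem_of_mem_nhds hW) z z' hz hz' (k * n)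
  rw [fb_const, fb_const, hit, hit, ← pow_mul, Nat.mul_comm n k]
  exact h3

end Pool.Agent.Y334.SR
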