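import Mathlib
import Pool.Agent.Y334.SR.Mon
import Pool.Agent.Y334.SR.Sink

/-! Topologically attracting cycles of rational maps are sinks. -/

set_option autoImplicit false

open Set Filter Topology Metric
open scoped OnePoint
open Pool.Agent.Helper114.Herman
open Pool.Agent.Y334.RM
open Pool.Agent.Y334.FS

namespace Pool.Agent.Y334.SR

attribute [local instance] sphMet

/-- equicontinuity of the iterates at a point -/
def Eqc (G : Sp → Sp) (w : Sp) : Prop :=
  ∀ ε : ℝ, 0 < ε → ∃ δ : ℝ, 0 < δ ∧ ∀ k : ℕ, ∀ w', dist w' w < δ → dist (G^[k] w') (G^[k] w) < ε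

/-- the Fatou set -/
def Fat (G : Sp → Sp) (w : Sp) : Prop := ∃ V ∈ 𝓝 w, ∀ v ∈ V, Eqc G v

theorem fat_open (G : Sp → Sp) : IsOpen {w | Fat G w} := by
  rw [isOpen_iff_mem_nhds]
  rintro w ⟨V, hV, h⟩
  filter_upwards [interior_mem_nhds.2 hV] with v hv
  exact ⟨V, mem_interior_iff_mem_nhds.1 hv, h⟩

theorem fat_fwd {G : Sp → Sp} (hop : IsOpenMap G) {w : Sp} (h : Fat G w) : Fat G (G w) := by
  obtain ⟨V, hV, h⟩ := h
  refine ⟨G '' V, hop.image_mem_nhds hV, ?_⟩
  rintro _ ⟨v, hv, rfl⟩ ε hε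
  obtain ⟨δ, hδ, h1⟩ := h v hv ε hε
  obtain ⟨δ', hδ', h2⟩ := Metric.mem_nhds_iff.1 (hop.image_mem_nhds (ball_mem_nhds v hδ))
  refine ⟨δ', hδ', fun k u hu => ?_⟩
  obtain ⟨v', hv', rfl⟩ := h2 (mem_ball.2 hu)
  have h3 := h1 (k + 1) v' hv'
  rwa [Function.iterate_succ_apply, Function.iterate_succ_apply] at h3

theorem fat_iter {G : Sp → Sp} (hop : IsOpenMap G) {w : Sp} (h : Fat G w) (k : ℕ) :
    Fat G (G^[k] w) := by
  induction k with
  | zero => exact h
  | succ k ih =>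
    rw [Function.iterate_succ_apply']
    exact fat_fwd hop ih

theorem lip_iter {G : Sp → Sp} {L : ℝ} (hL : 1 ≤ L) (h : ∀ x y, dist (G x) (G y) ≤ L * dist x y)
    (k : ℕ) (x y : Sp) : dist (G^[k] x) (G^[k] y) ≤ L ^ k * dist x y := by
  induction k with
  | zero => simp
  | succ k ih =>
    rw [Function.iterate_succ_apply', Function.iterate_succ_apply']
    calc _ ≤ L * dist (G^[k] x) (G^[k] y) := h _ _
      _ ≤ L * (L ^ k * dist x y) := by gcongr
      _ = L ^ (k + 1) * dist x y := by ring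

theorem fat_of_omit {G : Sp → Sp} (hG : HolMap G) {D : Set Sp} (hD : IsOpen D) {m : ℕ} {a b c : Sp}
    (hab : b ≠ a) (hac : c ≠ a) (hbc : b ≠ c)
    (hom : ∀ k ≥ m, ∀ w ∈ D, G^[k] w ≠ a ∧ G^[k] w ≠ b ∧ G^[k] w ≠ c) {e : Sp} (he : e ∈ D) :
    Fat G e := by
  obtain ⟨C, hC, hmon⟩ := montel3 hab hac hbc
  obtain ⟨L, hL1, hL⟩ := hol_lip hG
  refine ⟨D, hD.mem_nhds he, fun v hv => ?_⟩
  obtain ⟨bb, v₀, hv₀, rfl⟩ := exists_kap_le v
  have h1 : kap bb ⁻¹' D ∈ 𝓝 v₀ :=
    (isOpenEmbedding_kap bb).continuous.continuousAt (hD.mem_nhds hv)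
  obtain ⟨δ, hδ, hball⟩ := Metric.mem_nhds_iff.1 h1
  intro ε hε
  set δ' : ℝ := min (1 / 4) (min (δ / 60) (min (ε * δ / (30 * C)) (ε / (2 * L ^ m)))) with hδ'
  have hδ'0 : 0 < δ' := by positivity
  have e1 : δ' ≤ 1 / 4 := min_le_left _ _
  have e2 : δ' ≤ δ / 60 := (min_le_right _ _).trans (min_le_left _ _)
  have e3 : δ' ≤ ε * δ / (30 * C) :=
    (min_le_right _ _).trans ((min_le_right _ _).trans (min_le_left _ _))
  have e4 : δ' ≤ ε / (2 * L ^ m) :=
    (min_le_right _ _).trans ((min_le_right _ _).trans (min_le_right _ _))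
  refine ⟨δ', hδ'0, fun k w' hw' => ?_⟩
  rcases lt_or_ge k m with hk | hk
  · have h2 := lip_iter hL1 hL k w' (kap bb v₀)
    have h3 : L ^ k * dist w' (kap bb v₀) ≤ L ^ m * (ε / (2 * L ^ m)) := by
      have h4 : L ^ k ≤ L ^ m := pow_le_pow_right₀ hL1 hk.le
      have h5 : dist w' (kap bb v₀) ≤ ε / (2 * L ^ m) := hw'.le.trans e4
      gcongr
    have h6 : L ^ m * (ε / (2 * L ^ m)) = ε / 2 := by
      have : L ^ m ≠ 0 := by positivity
      field_simp
    linarith
  · have h2 : dist (kap bb v₀) w' < 1 / 2 := by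
      rw [dist_comm]
      linarith
    obtain ⟨u, -, rfl, h4⟩ := near_kap hv₀ h2
    rw [dist_comm] at h4
    have h5 : ‖u - v₀‖ ≤ 15 * δ' := h4.trans (by linarith)
    have h6 : u ∈ ball v₀ (δ / 2) := by
      rw [mem_ball, dist_eq_norm]
      linarith
    have h7 := hmon (fun u => G^[k] (kap bb u)) v₀ δ hδ (fun w hw =>
      ⟨(hG.iterate k) _ _ (holAt_kap bb w), hom k hk _ (hball hw)⟩) u h6
    have h8 : C / δ * ‖u - v₀‖ ≤ C / δ * (15 * (ε * δ / (30 * C))) := by
      gcongr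
      linarith
    have h9 : C / δ * (15 * (ε * δ / (30 * C))) = ε / 2 := by
      field_simp
      norm_num
    have h10 : dist (G^[k] (kap bb u)) (G^[k] (kap bb v₀)) ≤ C / δ * ‖u - v₀‖ := h7
    linarith

/-- **Topologically attracting fixed points lie in the Fatou set.** -/
theorem fat_fixed {G : Sp → Sp} (hG : HolMap G) (hop : IsOpenMap G) (hsurj : Function.Surjective G)
    {z : Sp} (hz : G z = z) {U : Set Sp} (hU : U ∈ 𝓝 z)
    (hconv : ∀ w ∈ U, Tendsto (fun k : ℕ => G^[k] w) atTop (𝓝 z)) {y₁ : Sp} (hy : y₁ ≠ z)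
    (hy1 : G y₁ = z) : Fat G z := by
  by_contra hzF
  obtain ⟨ρ, hρ, hρU⟩ := Metric.mem_nhds_iff.1 hU
  set S : Set Sp := {w | ¬ Fat G w} ∩ ball z ρ with hS
  have hclosed : IsClosed {w | ¬ Fat G w} := (fat_open G).isClosed_compl
  have hlc : IsLocallyClosed S := hclosed.isLocallyClosed.inter isOpen_ball.isLocallyClosed
  have : LocallyCompactSpace S := hlc.locallyCompactSpace
  have hne : Nonempty S := ⟨⟨z, hzF, mem_ball_self hρ⟩⟩
  set ε₀ : ℝ := dist y₁ z / 2 with hε₀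
  have hε₀0 : 0 < ε₀ := by
    have := dist_pos.2 hy
    positivity
  obtain ⟨m, hm⟩ := nonempty_interior_of_iUnion_of_closed
    (f := fun m : ℕ => {w : S | ∀ k ≥ m, dist (G^[k] w.1) z ≤ ε₀}) (fun m => by
      have : {w : S | ∀ k ≥ m, dist (G^[k] w.1) z ≤ ε₀} =
          ⋂ k : ℕ, ⋂ _ : k ≥ m, {w : S | dist (G^[k] w.1) z ≤ ε₀} := by
        ext w
        simp only [mem_iInter]
        rfl
      rw [this]
      refine isClosed_iInter fun k => isClosed_iInter fun _ => ?_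
      exact isClosed_le (((hG.iterate k).continuous.comp continuous_subtype_val).dist
        continuous_const) continuous_const) (by
      rw [eq_univ_iff_forall]
      intro w
      have h1 := hconv w.1 (hρU w.2.2)
      obtain ⟨m, hm⟩ := eventually_atTop.1 (h1.eventually (closedBall_mem_nhds z hε₀0))
      exact mem_iUnion.2 ⟨m, fun k hk => hm k hk⟩)
  obtain ⟨e, he⟩ := hm
  rw [mem_interior_iff_mem_nhds, mem_nhds_subtype] at he
  obtain ⟨D', hD', hD'A⟩ := he
  set D : Set Sp := interior D' ∩ ball z ρ with hD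
  have hDo : IsOpen D := isOpen_interior.inter isOpen_ball
  have heD : e.1 ∈ D := ⟨mem_interior_iff_mem_nhds.2 hD', e.2.2⟩
  have hJD : ∀ w ∈ D, ¬ Fat G w → ∀ k ≥ m, dist (G^[k] w) z ≤ ε₀ := by
    intro w hw hwF
    have h1 : w ∈ D' := interior_subset hw.1
    exact hD'A (show (⟨w, hwF, hw.2⟩ : S) ∈ Subtype.val ⁻¹' D' from h1)
  have hJ1 : ¬ Fat G y₁ := fun h => hzF (by
    have := fat_fwd hop h
    rwa [hy1] at this)
  obtain ⟨y₂, hy2⟩ := hsurj y₁
  obtain ⟨y₃, hy3⟩ := hsurj y₂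
  have d1 : y₂ ≠ y₁ := by
    rintro rfl
    exact hy (hy2.symm.trans hy1)
  have d2 : y₃ ≠ y₂ := by
    rintro rfl
    exact d1 (hy3.symm.trans hy2)
  have d3 : y₃ ≠ y₁ := by
    rintro rfl
    have h1 : z = y₂ := hy1.symm.trans hy3
    rw [← h1, hz] at hy2
    exact hy hy2.symm
  by_cases h1 : ∃ k ≥ m, ∃ w ∈ D, G^[k] w = y₁
  · obtain ⟨k, hk, w, hw, h⟩ := h1
    have h2 : ¬ Fat G w := fun h' => hJ1 (by
      have := fat_iter hop h' k
      rwa [h] at this)
    have h3 := hJD w hw h2 k hk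
    rw [h] at h3
    linarith
  · push Not at h1
    have h2 : ∀ k ≥ m, ∀ w ∈ D, G^[k] w ≠ y₂ := by
      intro k hk w hw h
      apply h1 (k + 1) (by omega) w hw
      rw [Function.iterate_succ_apply', h, hy2]
    have h3 : ∀ k ≥ m, ∀ w ∈ D, G^[k] w ≠ y₃ := by
      intro k hk w hw h
      apply h2 (k + 1) (by omega) w hw
      rw [Function.iterate_succ_apply', h, hy3]
    exact e.2.1 (fat_of_omit hG hDo d1 d3 d2.symm
      (fun k hk w hw => ⟨h1 k hk w hw, h2 k hk w hw, h3 k hk w hw⟩) heD)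

/-- fixed points in the Fatou set to which a neighbourhood converges are contracting -/
theorem contr_of_fat {G : Sp → Sp} (hG : HolMap G) {z : Sp} {U : Set Sp} (hU : U ∈ 𝓝 z)
    (hconv : ∀ w ∈ U, Tendsto (fun k : ℕ => G^[k] w) atTop (𝓝 z)) (hF : Fat G z) :
    ∃ k : ℕ, 1 ≤ k ∧ ∃ V ∈ 𝓝 z, ∀ w ∈ V, ∀ w' ∈ V,
      dist (G^[k] w) (G^[k] w') ≤ 1 / 2 * dist w w' := by
  obtain ⟨V₀, hV₀, hE⟩ := hF
  obtain ⟨b, z₀, hz₀, rfl⟩ := exists_kap_le z
  have hkc : Continuous (kap b) := (isOpenEmbedding_kap b).continuous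
  have h1 : kap b ⁻¹' (V₀ ∩ U) ∈ 𝓝 z₀ := hkc.continuousAt (inter_mem hV₀ hU)
  obtain ⟨t', ht', hball⟩ := Metric.nhds_basis_closedBall.mem_iff.1 h1
  set t : ℝ := min t' 1 with ht
  have ht0 : 0 < t := by positivity
  have ht1 : t ≤ 1 := min_le_right _ _
  have hK : closedBall z₀ t ⊆ kap b ⁻¹' (V₀ ∩ U) :=
    (closedBall_subset_closedBall (min_le_left _ _)).trans hball
  set ε : ℝ := min (1 / 4) (t / 9000) with hε
  have hε0 : 0 < ε := by positivity
  have hε1 : ε ≤ 1 / 4 := min_le_left _ _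
  have hε2 : ε ≤ t / 9000 := min_le_right _ _
  have hcomp : IsCompact (kap b '' closedBall z₀ t) := (isCompact_closedBall z₀ t).image hkc
  have hunif : ∀ᶠ k in atTop, ∀ w ∈ kap b '' closedBall z₀ t, dist (G^[k] w) (kap b z₀) < ε := by
    refine hcomp.induction_on (p := fun s => ∀ᶠ k in atTop, ∀ w ∈ s,
      dist (G^[k] w) (kap b z₀) < ε) ?_ ?_ ?_ ?_
    · exact Eventually.of_forall fun k w hw => hw.elim
    · intro s s' hss h
      filter_upwards [h] with k hk w hw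
      exact hk w (hss hw)
    · intro s s' h h'
      filter_upwards [h, h'] with k hk hk' w hw
      exact hw.elim (hk w) (hk' w)
    · rintro _ ⟨w, hw, rfl⟩
      obtain ⟨δ, hδ, h2⟩ := hE _ (hK hw).1 (ε / 2) (by positivity)
      have h3 := (hconv _ (hK hw).2).eventually (ball_mem_nhds _ (half_pos hε0))
      refine ⟨ball (kap b w) δ, mem_nhdsWithin_of_mem_nhds (ball_mem_nhds _ hδ), ?_⟩
      filter_upwards [h3] with k hk w' hw'
      have h4 := h2 k w' hw'
      have h5 : dist (G^[k] (kap b w)) (kap b z₀) < ε / 2 := hk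
      have h6 := dist_triangle (G^[k] w') (G^[k] (kap b w)) (kap b z₀)
      linarith
  obtain ⟨k, hk1, hk⟩ := ((eventually_ge_atTop 1).and hunif).exists
  refine ⟨k, hk1, kap b '' ball z₀ (t / 2), kap_ball (by positivity), ?_⟩
  rintro _ ⟨w, hw, rfl⟩ _ ⟨w', hw', rfl⟩
  set h : ℂ → ℂ := fun u => ci b (G^[k] (kap b u)) with hh
  have hval : ∀ u ∈ ball z₀ t, G^[k] (kap b u) = kap b (h u) ∧ ‖h u - z₀‖ ≤ 15 * ε := by
    intro u hu
    have h2 := hk (kap b u) ⟨u, ball_subset_closedBall hu, rfl⟩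
    rw [dist_comm] at h2
    obtain ⟨v, -, h3, h4⟩ := near_kap hz₀ (by linarith : dist (kap b z₀) (G^[k] (kap b u)) < 1 / 2)
    rw [hh]
    simp only
    rw [h3, ci_kap]
    rw [h3] at h2 h4
    exact ⟨rfl, h4.trans (by linarith)⟩
  have hd : DifferentiableOn ℂ h (ball z₀ t) := by
    intro u hu
    have h3 : HolAt (fun u => G^[k] (kap b u)) u := (hG.iterate k) _ _ (holAt_kap b u)
    obtain ⟨g, hg, -, h4⟩ := h3.exists_kap (hval u hu).1
    have h5 : h =ᶠ[𝓝 u] g := by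
      filter_upwards [h4] with v hv
      show ci b (G^[k] (kap b v)) = g v
      rw [hv, ci_kap]
    exact (hg.differentiableAt.congr_of_eventuallyEq h5).differentiableWithinAt
  have hder : ∀ u ∈ ball z₀ (t / 2), ‖deriv h u‖ ≤ 15 * ε / (t / 4) := by
    intro u hu
    have hsub : closedBall u (t / 4) ⊆ ball z₀ t := by
      intro v hv
      rw [mem_closedBall] at hv
      rw [mem_ball] at hu ⊢
      have := dist_triangle v u z₀
      linarith
    have h2 : deriv h u = deriv (fun u => h u - z₀) u := by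
      rw [deriv_sub_const]
    rw [h2]
    apply Complex.norm_deriv_le_of_forall_mem_sphere_norm_le (by positivity)
    · exact ((hd.mono hsub).sub_const z₀).diffContOnCl_ball (Subset.refl _)
    · intro v hv
      exact (hval v (hsub (sphere_subset_closedBall hv))).2
  have hsub2 : ball z₀ (t / 2) ⊆ ball z₀ t := ball_subset_ball (by linarith)
  have hmv : ‖h w - h w'‖ ≤ 15 * ε / (t / 4) * ‖w - w'‖ := by
    apply (convex_ball z₀ (t / 2)).norm_image_sub_le_of_norm_deriv_le (𝕜 := ℂ) _ hder hw' hw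
    intro u hu
    exact hd.differentiableAt (isOpen_ball.mem_nhds (hsub2 hu))
  have hn : ∀ u ∈ ball z₀ (t / 2), ‖u‖ ≤ 2 := by
    intro u hu
    rw [mem_ball, dist_eq_norm] at hu
    have := norm_add_le (u - z₀) z₀
    rw [sub_add_cancel] at this
    linarith
  rw [(hval w (hsub2 hw)).1, (hval w' (hsub2 hw')).1]
  calc dist (kap b (h w)) (kap b (h w')) ≤ 5 * ‖h w - h w'‖ := dist_kap_le _ _ _
    _ ≤ 5 * (15 * ε / (t / 4) * (15 * dist (kap b w) (kap b w'))) := by
        gcongr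
        refine hmv.trans ?_
        gcongr
        exact kap_dist (hn w hw) (hn w' hw')
    _ = 4500 * ε / t * dist (kap b w) (kap b w') := by
        field_simp
        ring
    _ ≤ 1 / 2 * dist (kap b w) (kap b w') := by
        apply mul_le_mul_of_nonneg_right _ dist_nonneg
        rw [div_le_iff₀ ht0]
        linarith

theorem second_pre {G : Sp → Sp} (hG : Continuous G) (hTwo : Two G) {z : Sp} (hLI : LI G z) :
    ∃ y₁, y₁ ≠ z ∧ G y₁ = G z := by
  by_contra hcon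
  push Not at hcon
  obtain ⟨U, hU, hi⟩ := hLI
  have h1 : IsCompact (G '' (interior U)ᶜ) :=
    (isOpen_interior.isClosed_compl.isCompact).image hG
  have h2 : G z ∉ G '' (interior U)ᶜ := by
    rintro ⟨y, hy, h⟩
    by_cases hyz : y = z
    · rw [hyz] at hy
      exact hy (mem_interior_iff_mem_nhds.2 hU)
    · exact hcon y hyz h
  obtain ⟨ε, hε, h3⟩ := Metric.mem_nhds_iff.1 (h1.isClosed.isOpen_compl.mem_nhds h2)
  obtain ⟨y', hy', a, b, hab, ha, hb⟩ := hTwo (G z) ε hε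
  have h4 : ∀ x, G x = y' → x ∈ U := by
    intro x hx
    by_contra hxU
    exact h3 (mem_ball.2 hy') ⟨x, fun h => hxU (interior_subset h), hx⟩
  exact hab (hi (h4 a ha) (h4 b hb) (ha.trans hb.symm))

theorem two_iter {F : Sp → Sp} (hTwo : Two F) (hs : Function.Surjective F) {n : ℕ} (hn : 0 < n) :
    Two F^[n] := by
  obtain ⟨m, rfl⟩ : ∃ m, n = m + 1 := ⟨n - 1, by omega⟩
  intro y ε hε
  obtain ⟨y', h1, a, b, hab, ha, hb⟩ := hTwo y ε hε
  obtain ⟨a', rfl⟩ := (hs.iterate m) a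
  obtain ⟨b', rfl⟩ := (hs.iterate m) b
  refine ⟨y', h1, a', b', fun h => hab (by rw [h]), ?_, ?_⟩
  · rw [Function.iterate_succ_apply', ha]
  · rw [Function.iterate_succ_apply', hb]

/-- **Topologically attracting cycles are sinks.** -/
theorem sink_of_top {F : Sp → Sp} (hF : HolMap F) (hs : Function.Surjective F) (hop : IsOpenMap F)
    (hTwo : Two F) (h : ∀ c, ¬ LI F c → ∃ (z : Sp) (n : ℕ), 0 < n ∧ F^[n] z = z ∧
      (∃ U ∈ 𝓝 z, ∀ w ∈ U, Tendsto (fun k : ℕ => F^[n * k] w) atTop (𝓝 z)) ∧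
      Tendsto (fun k : ℕ => F^[n * k] c) atTop (𝓝 z)) : SinkH F := by
  intro c hc
  obtain ⟨z, n, hn, hz, ⟨U, hU, hconv⟩, hlim⟩ := h c hc
  have hGh : HolMap F^[n] := hF.iterate n
  by_cases hLI : LI F^[n] z
  · obtain ⟨y₁, hy, hy1⟩ := second_pre hGh.continuous (two_iter hTwo hs hn) hLI
    rw [hz] at hy1
    have hconv' : ∀ w ∈ U, Tendsto (fun k : ℕ => (F^[n])^[k] w) atTop (𝓝 z) := by
      intro w hw
      refine (hconv w hw).congr fun k => ?_
      rw [Function.iterate_mul]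
    have hopn : ∀ n : ℕ, IsOpenMap F^[n] := by
      intro n
      induction n with
      | zero => exact IsOpenMap.id
      | succ n ih =>
        rw [Function.iterate_succ']
        exact hop.comp ih
    have hfat := fat_fixed hGh (hopn n) (hs.iterate n) hz hU hconv' hy hy1
    obtain ⟨k, hk, V, hV, hcon⟩ := contr_of_fat hGh hU hconv' hfat
    refine ⟨z, n * k, 1 / 2, Nat.mul_pos hn (by omega), by norm_num, ?_, ⟨V, hV, ?_⟩, ?_⟩
    · rw [Function.iterate_mul]
      exact Function.iterate_fixed hz k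
    · intro w hw w' hw'
      rw [Function.iterate_mul]
      exact hcon w hw w' hw'
    · have h1 : Tendsto (fun j : ℕ => k * j) atTop atTop := by
        refine tendsto_atTop_mono (fun j => ?_) tendsto_id
        exact Nat.le_mul_of_pos_left _ (by omega)
      refine (hlim.comp h1).congr fun j => ?_
      show F^[n * (k * j)] c = F^[n * k * j] c
      rw [Nat.mul_assoc]
  · obtain ⟨V, hV, hcon⟩ := lip_crit hGh hLI (show (0 : ℝ) < 1 / 2 by norm_num)
    exact ⟨z, n, 1 / 2, hn, by norm_num, hz, ⟨V, hV, hcon⟩, hlim⟩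

end Pool.Agent.Y334.SR
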