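import Mathlib
import Pool.Agent.Y334.SR.Fat

/-! Extensions of the base, in particular by cyclic groups. -/

set_option autoImplicit false

open Set Filter Topology Metric
open scoped OnePoint
open Pool.Agent.Helper114.Herman
open Pool.Agent.Y334.RM
open Pool.Agent.Y334.FS

namespace Pool.Agent.Y334.SR

attribute [local instance] sphMet

theorem semi_iter {X Y : Type} {T : X → X} {S : Y → Y} {π : Y → X} (h : ∀ y, π (S y) = T (π y))
    (k : ℕ) (y : Y) : π (S^[k] y) = T^[k] (π y) := by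
  induction k with
  | zero => rfl
  | succ k ih => rw [Function.iterate_succ_apply', h, ih, Function.iterate_succ_apply']

theorem fb_ext {X Y : Type} {T : X → X} {S : Y → Y} {π : Y → X} (h : ∀ y, π (S y) = T (π y))
    (f : X → Sp → Sp) (k : ℕ) (y : Y) (z : Sp) :
    fb S (fun y => f (π y)) k y z = fb T f k (π y) z := by
  induction k with
  | zero => rfl
  | succ k ih =>
    rw [fb_succ, ih, fb_succ, semi_iter h]

theorem hyp_ext {X Y : Type} [TopologicalSpace X] [TopologicalSpace Y] {T : X → X} {S : Y → Y}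
    {π : Y → X} (hc : Continuous π) (h : ∀ y, π (S y) = T (π y)) {f : X → Sp → Sp} {r C lam : ℝ}
    (hyp : HypF T f r C lam) : HypF S (fun y => f (π y)) r C lam := by
  intro p hp
  have hcont : Continuous fun q : Y × Sp => (π q.1, q.2) :=
    (hc.comp continuous_fst).prodMk continuous_snd
  have h1 : (π p.1, p.2) ∈ closure (PC T f) := by
    have h3 := image_closure_subset_closure_image hcont (Set.mem_image_of_mem _ hp)
    refine closure_mono ?_ h3
    rintro _ ⟨q, ⟨y, c, k, hk, hc, rfl⟩, rfl⟩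
    refine ⟨π y, c, k, hk, hc, ?_⟩
    show (π (S^[k] y), fb S (fun y => f (π y)) k y c) = _
    rw [fb_ext h, semi_iter h]
  obtain ⟨W, hW, h2⟩ := hyp _ h1
  refine ⟨π ⁻¹' W, hc.continuousAt hW, fun x hx z z' hz hz' k => ?_⟩
  rw [fb_ext h, fb_ext h]
  exact h2 (π x) hx z z' hz hz' k

/-- the extension by a cyclic group -/
def cyc {X : Type} (T : X → X) (n : ℕ) : X × ZMod n → X × ZMod n := fun p => (T p.1, p.2 + 1)

theorem cyc_iter {X : Type} (T : X → X) (n : ℕ) (k : ℕ) (p : X × ZMod n) :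
    (cyc T n)^[k] p = (T^[k] p.1, p.2 + k) := by
  induction k with
  | zero => simp
  | succ k ih =>
    rw [Function.iterate_succ_apply', ih, Function.iterate_succ_apply']
    show (T (T^[k] p.1), p.2 + k + 1) = _
    push_cast
    rw [add_assoc]

theorem cyc_aper {X : Type} (T : X → X) {n : ℕ} (p : X × ZMod n) (k : ℕ) (hk1 : 1 ≤ k)
    (hkn : k < n) : (cyc T n)^[k] p ≠ p := by
  rw [cyc_iter]
  intro h
  have h1 := congrArg Prod.snd h
  simp only at h1
  have h2 : (k : ZMod n) = 0 := by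
    have h3 : p.2 + (k : ZMod n) = p.2 + 0 := by rw [h1, add_zero]
    exact add_left_cancel h3
  rw [ZMod.natCast_eq_zero_iff] at h2
  have := Nat.le_of_dvd (by omega) h2
  omega

theorem cyc_cont {X : Type} [TopologicalSpace X] {T : X → X} (hT : Continuous T) (n : ℕ) :
    Continuous (cyc T n) := by
  have h : Continuous fun i : ZMod n => i + 1 := continuous_of_discreteTopology
  exact (hT.comp continuous_fst).prodMk (h.comp continuous_snd)

/-- products with discrete spaces are normal -/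
theorem normal_prod {X D : Type} [TopologicalSpace X] [NormalSpace X] [TopologicalSpace D]
    [DiscreteTopology D] : NormalSpace (X × D) := by
  refine ⟨fun s t hs ht hst => ?_⟩
  have hc : ∀ d : D, Continuous fun x : X => (x, d) := fun d =>
    continuous_id.prodMk continuous_const
  have h1 : ∀ d : D, SeparatedNhds ((fun x : X => (x, d)) ⁻¹' s) ((fun x : X => (x, d)) ⁻¹' t) :=
    fun d => NormalSpace.normal _ _ (hs.preimage (hc d)) (ht.preimage (hc d))
      (hst.preimage _)
  choose U V hU hV hsU htV hUV using h1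
  refine ⟨⋃ d, U d ×ˢ {d}, ⋃ d, V d ×ˢ {d}, isOpen_iUnion fun d => (hU d).prod (isOpen_discrete _),
    isOpen_iUnion fun d => (hV d).prod (isOpen_discrete _), ?_, ?_, ?_⟩
  · rintro ⟨x, d⟩ h
    exact mem_iUnion.2 ⟨d, hsU d h, rfl⟩
  · rintro ⟨x, d⟩ h
    exact mem_iUnion.2 ⟨d, htV d h, rfl⟩
  · rw [Set.disjoint_left]
    rintro ⟨x, d⟩ h1 h2
    obtain ⟨d1, h3, h4⟩ := mem_iUnion.1 h1
    obtain ⟨d2, h5, h6⟩ := mem_iUnion.1 h2
    rw [mem_singleton_iff] at h4 h6
    simp only at h3 h4 h5 h6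
    subst h4
    subst h6
    exact (Set.disjoint_left.1 (hUV _)) h3 h5

theorem hyp_desc {X : Type} [TopologicalSpace X] {T : X → X} {n : ℕ} {f : X → Sp → Sp}
    {r C lam : ℝ} (hyp : HypF (cyc T n) (fun p => f p.1) r C lam) : HypF T f r C lam := by
  have hfb : ∀ (k : ℕ) (p : X × ZMod n) (z : Sp),
      fb (cyc T n) (fun p => f p.1) k p z = fb T f k p.1 z :=
    fun k p z => fb_ext (T := T) (π := Prod.fst) (fun _ => rfl) f k p z
  intro p hp
  have hcont : Continuous fun q : X × Sp => ((q.1, (0 : ZMod n)), q.2) :=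
    (continuous_fst.prodMk continuous_const).prodMk continuous_snd
  have h1 : ((p.1, (0 : ZMod n)), p.2) ∈ closure (PC (cyc T n) (fun p => f p.1)) := by
    have h3 := image_closure_subset_closure_image hcont (Set.mem_image_of_mem _ hp)
    refine closure_mono ?_ h3
    rintro _ ⟨q, ⟨y, c, k, hk, hc, rfl⟩, rfl⟩
    refine ⟨(y, -(k : ZMod n)), c, k, hk, hc, ?_⟩
    rw [hfb, cyc_iter, neg_add_cancel]
  obtain ⟨W, hW, h2⟩ := hyp _ h1
  have hc2 : Continuous fun x : X => (x, (0 : ZMod n)) := continuous_id.prodMk continuous_const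
  refine ⟨_, hc2.continuousAt hW, fun x hx z z' hz hz' k => ?_⟩
  have h3 := h2 (x, 0) hx z z' hz hz' k
  rwa [hfb, hfb] at h3

/-- A quantitative form of `om_of_ss`. -/
theorem om_of_conj (M : ℕ) : ∃ η : ℝ, 0 < η ∧ ∀ (X : Type) [TopologicalSpace X] (T : X → X)
    (f : X → Sp → Sp), (∀ x, ∃ S : Finset Sp, S.card ≤ M ∧ ∀ c, ¬ LI (f x) c → c ∈ S) →
    ∀ δ : ℝ, (∀ β γ : X → ℂ, Continuous β → Continuous γ → (∀ x, ‖β x‖ < δ ∧ ‖γ x‖ < δ) →
      ∃ h : X → (Sp ≃ₜ Sp), (∀ x z, dist (h x z) z < η) ∧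
        ∀ x z, h (T x) (f x z) = pf f β γ x (h x z)) → ∀ N, Om T f δ η N := by
  classical
  obtain ⟨ρ, hρ, hfar⟩ := far_point M
  refine ⟨ρ, hρ, ?_⟩
  intro X _ T f hM δ h N x c' hc' k hk1 hkN
  obtain ⟨S, hS1, hS2⟩ := hM x
  obtain ⟨y, hy⟩ := hfar (S.image (fb T f k x)) (Finset.card_image_le.trans hS1)
  refine ⟨y, fun β γ hβ hγ hs => ?_⟩
  obtain ⟨H, hH1, hH2⟩ := h β γ hβ hγ hs
  have hit : ∀ k z, fb T (pf f β γ) k x (H x z) = H (T^[k] x) (fb T f k x z) := by
    intro k z
    induction k with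
    | zero => rfl
    | succ k ih =>
      rw [fb_succ, ih, ← hH2, fb_succ, Function.iterate_succ_apply']
  -- the corresponding critical point
  set c := (H x).symm c' with hc
  have hcc : H x c = c' := (H x).apply_symm_apply c'
  have hcrit : ¬ LI (f x) c := by
    rintro ⟨U, hU, hi⟩
    apply hc'
    refine ⟨(H x) '' U, ?_, ?_⟩
    · rw [← hcc, ← (H x).map_nhds_eq c]
      exact image_mem_map hU
    · rintro _ ⟨u, hu, rfl⟩ _ ⟨v, hv, rfl⟩ huv
      have h1 : pf f β γ x (H x u) = pf f β γ x (H x v) := by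
        show mb (β x) (γ x) (f x (H x u)) = mb (β x) (γ x) (f x (H x v))
        rw [huv]
      rw [← hH2, ← hH2] at h1
      rw [hi hu hv ((H (T x)).injective h1)]
  have h1 := hit k c
  rw [hcc] at h1
  rw [h1]
  have h2 := hy (fb T f k x c) (Finset.mem_image_of_mem _ (hS2 c hcrit))
  have h3 := hH1 (T^[k] x) (fb T f k x c)
  have h4 := dist_triangle_left (fb T f k x c) y (H (T^[k] x) (fb T f k x c))
  linarith

end Pool.Agent.Y334.SR
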